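import Mathlib

/-!
# Linear algebra in the real plane: linking of pairs of directions, and discrete groups
-/

set_option autoImplicit false

open Topology Set Filter Matrix
open scoped MatrixGroups

namespace Pool.Agent.Helper2.Fuch

/-- The determinant of two vectors of the plane. -/
def dt (u v : ℝ × ℝ) : ℝ := u.1 * v.2 - u.2 * v.1

/-- The linear action. -/
def ac (g : SL(2, ℝ)) (u : ℝ × ℝ) : ℝ × ℝ :=
  (g 0 0 * u.1 + g 0 1 * u.2, g 1 0 * u.1 + g 1 1 * u.2)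

lemma det_eq (g : SL(2, ℝ)) : g 0 0 * g 1 1 - g 0 1 * g 1 0 = 1 := by
  have := g.det_coe
  rwa [Matrix.det_fin_two] at this

lemma dt_ac (g : SL(2, ℝ)) (u v : ℝ × ℝ) : dt (ac g u) (ac g v) = dt u v := by
  have h := det_eq g
  simp only [dt, ac]
  linear_combination (u.1 * v.2 - u.2 * v.1) * h

lemma ac_one (u : ℝ × ℝ) : ac 1 u = u := by
  simp [ac]

lemma ac_mul (g h : SL(2, ℝ)) (u : ℝ × ℝ) : ac (g * h) u = ac g (ac h u) := by
  simp only [ac, Matrix.SpecialLinearGroup.coe_mul, Matrix.mul_apply, Fin.sum_univ_two]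
  ext <;> simp <;> ring

lemma ac_smul (g : SL(2, ℝ)) (c : ℝ) (u : ℝ × ℝ) : ac g (c • u) = c • ac g u := by
  simp only [ac, Prod.smul_fst, Prod.smul_snd, smul_eq_mul]
  ext <;> simp <;> ring

lemma ac_add (g : SL(2, ℝ)) (u v : ℝ × ℝ) : ac g (u + v) = ac g u + ac g v := by
  simp only [ac, Prod.fst_add, Prod.snd_add]
  ext <;> simp <;> ring

lemma ac_inv_ac (g : SL(2, ℝ)) (u : ℝ × ℝ) : ac g⁻¹ (ac g u) = u := by
  rw [← ac_mul, inv_mul_cancel, ac_one]

lemma ac_ac_inv (g : SL(2, ℝ)) (u : ℝ × ℝ) : ac g (ac g⁻¹ u) = u := by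
  rw [← ac_mul, mul_inv_cancel, ac_one]

lemma ac_ne_zero {g : SL(2, ℝ)} {u : ℝ × ℝ} (hu : u ≠ 0) : ac g u ≠ 0 := by
  intro h
  apply hu
  rw [← ac_inv_ac g u, h]
  simp [ac]

@[simp] lemma dt_self (u : ℝ × ℝ) : dt u u = 0 := by simp [dt]; ring

lemma dt_comm (u v : ℝ × ℝ) : dt u v = -dt v u := by simp [dt]; ring

lemma dt_smul_left (c : ℝ) (u v : ℝ × ℝ) : dt (c • u) v = c * dt u v := by
  simp [dt]; ring

lemma dt_smul_right (c : ℝ) (u v : ℝ × ℝ) : dt u (c • v) = c * dt u v := by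
  simp [dt]; ring

lemma dt_add_left (u u' v : ℝ × ℝ) : dt (u + u') v = dt u v + dt u' v := by
  simp [dt]; ring

lemma dt_add_right (u v v' : ℝ × ℝ) : dt u (v + v') = dt u v + dt u v' := by
  simp [dt]; ring

/-- Parallel vectors. -/
lemma exists_smul_of_dt {u v : ℝ × ℝ} (hu : u ≠ 0) (h : dt u v = 0) : ∃ c : ℝ, v = c • u := by
  have h' : u.1 * v.2 = u.2 * v.1 := by simp only [dt] at h; linarith
  by_cases h1 : u.1 = 0
  · have h2 : u.2 ≠ 0 := by
      intro h2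
      exact hu (Prod.ext h1 h2)
    refine ⟨v.2 / u.2, ?_⟩
    rw [h1, zero_mul] at h'
    have h3 : v.1 = 0 := by
      rcases mul_eq_zero.mp h'.symm with h | h
      · exact absurd h h2
      · exact h
    ext
    · simp [h1, h3]
    · simp [h2]
  · refine ⟨v.1 / u.1, ?_⟩
    ext
    · simp [h1]
    · simp only [Prod.smul_snd, smul_eq_mul]
      field_simp
      linarith

lemma exists_smul_of_dt' {u v : ℝ × ℝ} (hu : u ≠ 0) (hv : v ≠ 0) (h : dt u v = 0) :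
    ∃ c : ℝ, c ≠ 0 ∧ v = c • u := by
  obtain ⟨c, hc⟩ := exists_smul_of_dt hu h
  refine ⟨c, ?_, hc⟩
  rintro rfl
  exact hv (by rw [hc, zero_smul])

/-- Expansion in a basis. -/
lemma expand {u v : ℝ × ℝ} (h : dt u v ≠ 0) (w : ℝ × ℝ) :
    w = (dt w v / dt u v) • u + (dt u w / dt u v) • v := by
  have h' : u.1 * v.2 - u.2 * v.1 ≠ 0 := h
  ext
  · simp only [dt, Prod.fst_add, Prod.smul_fst, smul_eq_mul]
    rw [div_mul_eq_mul_div, div_mul_eq_mul_div, ← add_div, eq_div_iff h']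
    ring
  · simp only [dt, Prod.snd_add, Prod.smul_snd, smul_eq_mul]
    rw [div_mul_eq_mul_div, div_mul_eq_mul_div, ← add_div, eq_div_iff h']
    ring

/-- The product of four determinants. -/
def lkp (u v u' v' : ℝ × ℝ) : ℝ := dt u u' * dt u v' * dt v u' * dt v v'

/-- The pairs `{u, v}` and `{u', v'}` of directions are linked. -/
def Lk (u v u' v' : ℝ × ℝ) : Prop := lkp u v u' v' < 0

lemma lkp_ac (g : SL(2, ℝ)) (u v u' v' : ℝ × ℝ) :
    lkp (ac g u) (ac g v) (ac g u') (ac g v') = lkp u v u' v' := by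
  simp only [lkp, dt_ac]

lemma Lk_ac (g : SL(2, ℝ)) (u v u' v' : ℝ × ℝ) :
    Lk (ac g u) (ac g v) (ac g u') (ac g v') ↔ Lk u v u' v' := by
  simp only [Lk, lkp_ac]

lemma lkp_swap_left (u v u' v' : ℝ × ℝ) : lkp v u u' v' = lkp u v u' v' := by
  simp only [lkp]; ring

lemma lkp_swap_right (u v u' v' : ℝ × ℝ) : lkp u v v' u' = lkp u v u' v' := by
  simp only [lkp]; ring

lemma lkp_comm (u v u' v' : ℝ × ℝ) : lkp u' v' u v = lkp u v u' v' := by
  simp only [lkp, dt]; ring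

lemma lkp_smul (a b c d : ℝ) (u v u' v' : ℝ × ℝ) :
    lkp (a • u) (b • v) (c • u') (d • v') = (a * b * c * d) ^ 2 * lkp u v u' v' := by
  simp only [lkp, dt_smul_left, dt_smul_right]; ring

lemma Lk_smul {a b c d : ℝ} (ha : a ≠ 0) (hb : b ≠ 0) (hc : c ≠ 0) (hd : d ≠ 0)
    (u v u' v' : ℝ × ℝ) : Lk (a • u) (b • v) (c • u') (d • v') ↔ Lk u v u' v' := by
  simp only [Lk, lkp_smul]
  have : 0 < (a * b * c * d) ^ 2 := by positivity
  constructor
  · intro h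
    by_contra h'
    rw [not_lt] at h'
    nlinarith [mul_nonneg this.le h']
  · intro h
    exact mul_neg_of_pos_of_neg this h

/-- Linking only depends on the directions. -/
lemma Lk_of_par {u v u' v' p q p' q' : ℝ × ℝ} (hp : p ≠ 0) (hq : q ≠ 0) (hp' : p' ≠ 0)
    (hq' : q' ≠ 0) (h1 : dt u p = 0) (h2 : dt v q = 0) (h3 : dt u' p' = 0) (h4 : dt v' q' = 0)
    (h : Lk u v u' v') : Lk p q p' q' := by
  have hne : dt u u' * dt u v' * dt v u' * dt v v' ≠ 0 := ne_of_lt h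
  have hu : u ≠ 0 := by rintro rfl; exact hne (by simp [dt])
  have hv : v ≠ 0 := by rintro rfl; exact hne (by simp [dt])
  have hu' : u' ≠ 0 := by rintro rfl; exact hne (by simp [dt])
  have hv' : v' ≠ 0 := by rintro rfl; exact hne (by simp [dt])
  obtain ⟨a, ha, rfl⟩ := exists_smul_of_dt' hu hp h1
  obtain ⟨b, hb, rfl⟩ := exists_smul_of_dt' hv hq h2
  obtain ⟨c, hc, rfl⟩ := exists_smul_of_dt' hu' hp' h3
  obtain ⟨d, hd, rfl⟩ := exists_smul_of_dt' hv' hq' h4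
  exact (Lk_smul ha hb hc hd _ _ _ _).mpr h

lemma Lk.ne {u v u' v' : ℝ × ℝ} (h : Lk u v u' v') :
    dt u u' ≠ 0 ∧ dt u v' ≠ 0 ∧ dt v u' ≠ 0 ∧ dt v v' ≠ 0 := by
  have hne : dt u u' * dt u v' * dt v u' * dt v v' ≠ 0 := ne_of_lt h
  refine ⟨?_, ?_, ?_, ?_⟩ <;> intro h0 <;> apply hne <;> rw [h0] <;> ring

lemma Lk.ne' {u v u' v' : ℝ × ℝ} (h : Lk u v u' v') : dt u v ≠ 0 := by
  intro h0
  have hu : u ≠ 0 := by rintro rfl; exact h.ne.1 (by simp [dt])
  obtain ⟨c, rfl⟩ := exists_smul_of_dt hu h0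
  have h1 : lkp u (c • u) u' v' < 0 := h
  simp only [lkp, dt_smul_left] at h1
  nlinarith [sq_nonneg (c * dt u u' * dt u v'), sq_nonneg (dt u u' * dt u v'), h.ne.2.2.1,
    mul_self_nonneg c, h1, mul_pos (mul_self_pos.mpr h.ne.1) (mul_self_pos.mpr h.ne.2.1)]

end Pool.Agent.Helper2.Fuch
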