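import Mathlib
import Pool.Agent.Helper2.Planar.Ang

/-!
# The Poincaré–Miranda theorem in dimension two
-/

set_option autoImplicit false

open Topology unitInterval Set Filter

namespace Pool.Agent.Helper2.Fuch

open Pool.Agent.Helper2.Genus Pool.Agent.Helper2.Planar

lemma const_I {f : I → ℝ} (hf : Continuous f) (hint : ∀ y, ∃ n : ℤ, f y = n) : f 0 = f 1 :=
  const_of_int isPreconnected_univ f hf.continuousOn (fun y _ => hint y) (mem_univ 0) (mem_univ 1)

lemma const_I' {f : I → ℝ} (hf : Continuous f) (hint : ∀ y, ∃ n : ℤ, f y = n + 1 / 2) :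
    f 0 = f 1 := by
  have h := const_I (f := fun y => f y - 1 / 2) (by fun_prop) (fun y => by
    obtain ⟨n, hn⟩ := hint y
    exact ⟨n, by rw [hn]; ring⟩)
  linarith

theorem pm_unit (G : C(I × I, ℂ)) (h0 : ∀ p, G p ≠ 0) (hl : ∀ t, (G (0, t)).re < 0)
    (hr : ∀ t, 0 < (G (1, t)).re) (hb : ∀ s, (G (s, 0)).im < 0) (ht : ∀ s, 0 < (G (s, 1)).im) :
    False := by
  let β : C(I × I, UnitAddCircle) := ⟨fun p => ang (G p), by
    rw [continuous_iff_continuousAt]
    intro p
    exact ContinuousAt.comp (f := G) (g := ang) (ang_continuousAt (h0 p)) G.continuous.continuousAt⟩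
  let H : C(I × (I × I), UnitAddCircle) :=
    ⟨fun q => β (q.1 * q.2.1, q.1 * q.2.2) - β (0, 0), by fun_prop⟩
  have h1 := liftable_of_homotopy H (fun y => by simp [H])
  have h2 : β ∈ liftable (I × I) := by
    have h3 := (liftable (I × I)).add_mem h1 (const_mem_liftable (β (0, 0)))
    convert h3 using 1
    ext p
    simp [H]
  obtain ⟨θ, hθ⟩ := mem_liftable_iff.mp h2
  set c0 : ℝ := (2 * Real.pi)⁻¹ * 1 with hc0
  have hpc : Real.pi * c0 = 1 / 2 := by
    rw [hc0]
    field_simp
  have hint : ∀ p, ∃ n : ℤ, θ p - (G p).arg * c0 = n := by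
    intro p
    apply exists_int_of_coe_eq
    rw [hθ p]
    exact ang_eq (G p)
  have hargc : ∀ p, G p ∈ Complex.slitPlane → ContinuousAt (fun p => (G p).arg) p := by
    intro p hp
    exact ContinuousAt.comp (f := G) (g := Complex.arg) (Complex.continuousAt_arg hp)
      G.continuous.continuousAt
  -- right
  have er := const_I (f := fun t => θ (1, t) - (G (1, t)).arg * c0) (by
    rw [continuous_iff_continuousAt]
    intro t
    have h3 : ContinuousAt (fun t : I => (G (1, t)).arg) t :=
      ContinuousAt.comp (f := fun t : I => ((1 : I), t)) (g := fun p => (G p).arg)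
        (hargc _ (Or.inl (hr t))) (by fun_prop)
    have h4 : ContinuousAt (fun t : I => θ (1, t)) t := by fun_prop
    exact h4.sub (h3.mul continuousAt_const)) (fun t => hint _)
  have et := const_I (f := fun s => θ (s, 1) - (G (s, 1)).arg * c0) (by
    rw [continuous_iff_continuousAt]
    intro s
    have h3 : ContinuousAt (fun s : I => (G (s, 1)).arg) s :=
      ContinuousAt.comp (f := fun s : I => (s, (1 : I))) (g := fun p => (G p).arg)
        (hargc _ (Or.inr (ht s).ne')) (by fun_prop)
    have h4 : ContinuousAt (fun s : I => θ (s, 1)) s := by fun_prop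
    exact h4.sub (h3.mul continuousAt_const)) (fun t => hint _)
  have eb := const_I (f := fun s => θ (s, 0) - (G (s, 0)).arg * c0) (by
    rw [continuous_iff_continuousAt]
    intro s
    have h3 : ContinuousAt (fun s : I => (G (s, 0)).arg) s :=
      ContinuousAt.comp (f := fun s : I => (s, (0 : I))) (g := fun p => (G p).arg)
        (hargc _ (Or.inr (hb s).ne)) (by fun_prop)
    have h4 : ContinuousAt (fun s : I => θ (s, 0)) s := by fun_prop
    exact h4.sub (h3.mul continuousAt_const)) (fun t => hint _)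
  have el := const_I' (f := fun t => θ (0, t) - (-G (0, t)).arg * c0) (by
    rw [continuous_iff_continuousAt]
    intro t
    have h3 : ContinuousAt (fun t : I => (-G (0, t)).arg) t := by
      refine ContinuousAt.comp (f := fun t : I => -G (0, t)) (g := Complex.arg)
        (Complex.continuousAt_arg (Or.inl ?_)) (by fun_prop)
      rw [Complex.neg_re]
      linarith [hl t]
    have h4 : ContinuousAt (fun t : I => θ (0, t)) t := by fun_prop
    exact h4.sub (h3.mul continuousAt_const)) (fun t => by
      obtain ⟨n, hn⟩ := hint (0, t)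
      rcases lt_trichotomy (G (0, t)).im 0 with h | h | h
      · refine ⟨n - 1, ?_⟩
        rw [Complex.arg_neg_eq_arg_add_pi_of_im_neg h]
        push_cast
        linarith
      · refine ⟨n, ?_⟩
        have h5 : (G (0, t)).arg = Real.pi := Complex.arg_eq_pi_iff.mpr ⟨hl t, h⟩
        have h6 : (-G (0, t)).arg = 0 := by
          rw [Complex.arg_eq_zero_iff]
          rw [Complex.neg_re, Complex.neg_im, h]
          exact ⟨by linarith [hl t], neg_zero⟩
        rw [h5] at hn
        rw [h6]
        linarith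
      · refine ⟨n, ?_⟩
        rw [Complex.arg_neg_eq_arg_sub_pi_of_im_pos h]
        linarith)
  rw [Complex.arg_neg_eq_arg_add_pi_of_im_neg (hb 0),
    Complex.arg_neg_eq_arg_sub_pi_of_im_pos (ht 0)] at el
  linarith

/-- The Poincaré–Miranda theorem for rectangles. -/
theorem pm {F : ℝ → ℝ → ℂ} (hF : Continuous fun p : ℝ × ℝ => F p.1 p.2) {a b c d : ℝ}
    (hl : ∀ t ∈ Icc c d, (F a t).re < 0)
    (hr : ∀ t ∈ Icc c d, 0 < (F b t).re) (hb : ∀ s ∈ Icc a b, (F s c).im < 0)
    (ht : ∀ s ∈ Icc a b, 0 < (F s d).im) (hab : a ≤ b) (hcd : c ≤ d) :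
    ∃ s t, F s t = 0 := by
  by_contra h0
  push Not at h0
  have hs : ∀ s : I, a + (b - a) * (s : ℝ) ∈ Icc a b := fun s => by
    have h1 := s.2.1
    have h2 := s.2.2
    constructor <;> nlinarith
  have ht' : ∀ s : I, c + (d - c) * (s : ℝ) ∈ Icc c d := fun s => by
    have h1 := s.2.1
    have h2 := s.2.2
    constructor <;> nlinarith
  refine pm_unit ⟨fun p => F (a + (b - a) * (p.1 : ℝ)) (c + (d - c) * (p.2 : ℝ)), ?_⟩
    (fun p => h0 _ _) (fun t => ?_) (fun t => ?_) (fun s => ?_) (fun s => ?_)
  · exact hF.comp (by fun_prop : Continuous fun p : I × I =>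
      ((a + (b - a) * (p.1 : ℝ), c + (d - c) * (p.2 : ℝ)) : ℝ × ℝ))
  · have := hl _ (ht' t)
    simpa using this
  · have := hr _ (ht' t)
    simpa using this
  · have := hb _ (hs s)
    simpa using this
  · have := ht _ (hs s)
    simpa using this

end Pool.Agent.Helper2.Fuch
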