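import Mathlib
import Pool.Agent.Helper2.Fuch.PM
import Pool.Agent.Helper2.Fuch.Lin

/-!
# Lines in the upper half plane with linked ends intersect
-/

set_option autoImplicit false

open Topology Set Filter
open scoped MatrixGroups UpperHalfPlane

namespace Pool.Agent.Helper2.Fuch

/-- The linear form which vanishes in the direction `u`. -/
noncomputable def DD (u : ℝ × ℝ) (z : ℍ) : ℂ := u.2 * (z : ℂ) - u.1

lemma DD_ne_zero {u : ℝ × ℝ} (hu : u ≠ 0) (z : ℍ) : DD u z ≠ 0 := by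
  intro h
  have h2 : u.2 * z.im = 0 := by
    have := congrArg Complex.im h
    simpa [DD] using this
  have h3 : u.2 = 0 := (mul_eq_zero.mp h2).resolve_right z.im_ne_zero
  have h4 : u.1 = 0 := by
    have := congrArg Complex.re h
    simpa [DD, h3] using this
  exact hu (Prod.ext h4 h3)

lemma DD_add (u v : ℝ × ℝ) (z : ℍ) : DD (u + v) z = DD u z + DD v z := by
  simp [DD]; ring

lemma DD_smul (c : ℝ) (u : ℝ × ℝ) (z : ℍ) : DD (c • u) z = c * DD u z := by
  simp [DD]; ring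

lemma DD_continuous (u : ℝ × ℝ) : Continuous (DD u) := by
  unfold DD
  have := UpperHalfPlane.continuous_coe
  fun_prop

lemma DD_ac (g : SL(2, ℝ)) (u : ℝ × ℝ) (z : ℍ) :
    DD (ac g u) (g • z) = DD u z / (((g 1 0 : ℝ) : ℂ) * z + ((g 1 1 : ℝ) : ℂ)) := by
  have hden : (((g 1 0 : ℝ) : ℂ) * z + ((g 1 1 : ℝ) : ℂ)) ≠ 0 :=
    UpperHalfPlane.denom_ne_zero (Matrix.SpecialLinearGroup.mapGL ℝ g) z
  have hdet : (((g 0 0 : ℝ) : ℂ) * ((g 1 1 : ℝ) : ℂ) - ((g 0 1 : ℝ) : ℂ) * ((g 1 0 : ℝ) : ℂ)) = 1 := by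
    exact_mod_cast det_eq g
  have h : ((g • z : ℍ) : ℂ) = (((g 0 0 : ℝ) : ℂ) * z + ((g 0 1 : ℝ) : ℂ)) /
      (((g 1 0 : ℝ) : ℂ) * z + ((g 1 1 : ℝ) : ℂ)) :=
    UpperHalfPlane.coe_specialLinearGroup_apply g z
  unfold DD
  rw [h, eq_div_iff hden, sub_mul, mul_assoc, div_mul_cancel₀ _ hden]
  simp only [ac]
  push_cast
  linear_combination ((u.2 : ℂ) * z - u.1) * hdet

/-- The quotient of two linear forms. -/
noncomputable def RR (u v : ℝ × ℝ) (z : ℍ) : ℂ := DD u z / DD v z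

lemma RR_ac (g : SL(2, ℝ)) (u v : ℝ × ℝ) (z : ℍ) :
    RR (ac g u) (ac g v) (g • z) = RR u v z := by
  have hden : (((g 1 0 : ℝ) : ℂ) * z + ((g 1 1 : ℝ) : ℂ)) ≠ 0 :=
    UpperHalfPlane.denom_ne_zero (Matrix.SpecialLinearGroup.mapGL ℝ g) z
  unfold RR
  rw [DD_ac, DD_ac, div_div_div_cancel_right₀ hden]

lemma RR_im (u v : ℝ × ℝ) (z : ℍ) :
    (RR u v z).im = dt u v * z.im / Complex.normSq (DD v z) := by
  unfold RR
  rw [Complex.div_im]
  simp only [DD, dt, Complex.sub_im, Complex.mul_im, Complex.ofReal_re, Complex.ofReal_im,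
    Complex.sub_re, Complex.mul_re, zero_mul, add_zero, sub_zero]
  have h1 : (z : ℂ).im = z.im := rfl
  rw [h1]
  ring

lemma RR_im_pos {u v : ℝ × ℝ} (h : 0 < dt u v) (z : ℍ) : 0 < (RR u v z).im := by
  rw [RR_im]
  have hv : v ≠ 0 := by
    rintro rfl
    simp [dt] at h
  have := Complex.normSq_pos.mpr (DD_ne_zero hv z)
  have h2 := z.im_pos
  positivity

lemma RR_inj {u v : ℝ × ℝ} (h : dt u v ≠ 0) {z w : ℍ} (hzw : RR u v z = RR u v w) : z = w := by
  have hv : v ≠ 0 := by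
    rintro rfl
    simp [dt] at h
  unfold RR at hzw
  rw [div_eq_div_iff (DD_ne_zero hv z) (DD_ne_zero hv w)] at hzw
  unfold DD at hzw
  have h1 : ((z : ℂ) - w) * ((dt u v : ℝ) : ℂ) = 0 := by
    unfold dt
    push_cast
    linear_combination hzw
  have h2 : ((dt u v : ℝ) : ℂ) ≠ 0 := by exact_mod_cast h
  have h3 := (mul_eq_zero.mp h1).resolve_right h2
  exact UpperHalfPlane.ext (sub_eq_zero.mp h3)

lemma RR_continuous (u : ℝ × ℝ) {v : ℝ × ℝ} (hv : v ≠ 0) : Continuous (RR u v) :=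
  (DD_continuous u).div (DD_continuous v) (fun z => DD_ne_zero hv z)

/-- The curve `c` converges to the direction `u`. -/
def Conv (c : ℝ → ℍ) (l : Filter ℝ) (u : ℝ × ℝ) : Prop :=
  ∀ v, dt u v ≠ 0 → Tendsto (fun t => RR u v (c t)) l (𝓝 0)

lemma Conv.lim {c : ℝ → ℍ} {l : Filter ℝ} {u : ℝ × ℝ} (h : Conv c l u) (p : ℝ × ℝ) {q : ℝ × ℝ}
    (hq : dt u q ≠ 0) : Tendsto (fun t => RR p q (c t)) l (𝓝 ((dt u p / dt u q : ℝ) : ℂ)) := by
  have h1 := h q hq
  have hq0 : q ≠ 0 := by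
    rintro rfl
    simp [dt] at hq
  have h2 : ∀ t, RR p q (c t) = ((dt p q / dt u q : ℝ) : ℂ) * RR u q (c t) +
      ((dt u p / dt u q : ℝ) : ℂ) := by
    intro t
    have h3 : DD p (c t) = ((dt p q / dt u q : ℝ) : ℂ) * DD u (c t) +
        ((dt u p / dt u q : ℝ) : ℂ) * DD q (c t) := by
      conv_lhs => rw [expand hq p]
      rw [DD_add, DD_smul, DD_smul]
    unfold RR
    rw [h3]
    have := DD_ne_zero hq0 (c t)
    field_simp
  simp only [h2]
  have h4 := (h1.const_mul ((dt p q / dt u q : ℝ) : ℂ)).add_const ((dt u p / dt u q : ℝ) : ℂ)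
  rwa [mul_zero, zero_add] at h4

lemma Conv.of_one {c : ℝ → ℍ} {l : Filter ℝ} {u v : ℝ × ℝ} (huv : dt u v ≠ 0)
    (h : Tendsto (fun t => RR u v (c t)) l (𝓝 0)) : Conv c l u := by
  intro w hw
  have hv0 : v ≠ 0 := by
    rintro rfl
    simp [dt] at huv
  have hw0 : w ≠ 0 := by
    rintro rfl
    simp [dt] at hw
  have h2 : ∀ t, RR u w (c t) = RR u v (c t) /
      (((dt w v / dt u v : ℝ) : ℂ) * RR u v (c t) + ((dt u w / dt u v : ℝ) : ℂ)) := by
    intro t
    have h3 : DD w (c t) = ((dt w v / dt u v : ℝ) : ℂ) * DD u (c t) +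
        ((dt u w / dt u v : ℝ) : ℂ) * DD v (c t) := by
      conv_lhs => rw [expand huv w]
      rw [DD_add, DD_smul, DD_smul]
    unfold RR
    have h5 := DD_ne_zero hv0 (c t)
    have h6 := DD_ne_zero hw0 (c t)
    rw [h3] at h6 ⊢
    have h7 : ((dt w v / dt u v : ℝ) : ℂ) * (DD u (c t) / DD v (c t)) +
        ((dt u w / dt u v : ℝ) : ℂ) = (((dt w v / dt u v : ℝ) : ℂ) * DD u (c t) +
        ((dt u w / dt u v : ℝ) : ℂ) * DD v (c t)) / DD v (c t) := by
      field_simp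
    rw [h7]
    field_simp
  simp only [h2]
  have h4 := (h.const_mul ((dt w v / dt u v : ℝ) : ℂ)).add_const ((dt u w / dt u v : ℝ) : ℂ)
  rw [mul_zero, zero_add] at h4
  have h8 : ((dt u w / dt u v : ℝ) : ℂ) ≠ 0 := by
    exact_mod_cast div_ne_zero hw huv
  have h9 := h.div h4 h8
  rwa [zero_div] at h9

lemma Conv.unique {c : ℝ → ℍ} {l : Filter ℝ} [l.NeBot] {u v : ℝ × ℝ} (hu : Conv c l u)
    (hv : Conv c l v) : dt u v = 0 := by
  by_contra h
  have hu0 : u ≠ 0 := by rintro rfl; simp [dt] at h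
  have hv0 : v ≠ 0 := by rintro rfl; simp [dt] at h
  have h1 := hu v h
  have h2 := hv u (by rw [dt_comm, neg_ne_zero]; exact h)
  have h3 := h1.mul h2
  have h4 : ∀ t, RR u v (c t) * RR v u (c t) = 1 := by
    intro t
    unfold RR
    have h5 := DD_ne_zero hu0 (c t)
    have h6 := DD_ne_zero hv0 (c t)
    field_simp
  simp only [h4, mul_zero] at h3
  exact one_ne_zero (tendsto_nhds_unique tendsto_const_nhds h3)

lemma Conv.smul {c : ℝ → ℍ} {l : Filter ℝ} {u : ℝ × ℝ} (h : Conv c l u) (a : ℝ) :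
    Conv c l (a • u) := by
  intro v hv
  rw [dt_smul_left] at hv
  have h1 := h v (right_ne_zero_of_mul hv)
  have h2 : ∀ t, RR (a • u) v (c t) = a * RR u v (c t) := by
    intro t
    unfold RR
    rw [DD_smul, mul_div_assoc]
  simp only [h2]
  have := h1.const_mul (a : ℂ)
  rwa [mul_zero] at this

lemma Conv.neg_param_bot {c : ℝ → ℍ} {u : ℝ × ℝ} (h : Conv c atTop u) :
    Conv (fun t => c (-t)) atBot u := fun v hv => (h v hv).comp tendsto_neg_atBot_atTop

lemma Conv.neg_param_top {c : ℝ → ℍ} {u : ℝ × ℝ} (h : Conv c atBot u) :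
    Conv (fun t => c (-t)) atTop u := fun v hv => (h v hv).comp tendsto_neg_atTop_atBot

/-- The case with signs. -/
theorem crossing_aux {c₁ c₂ : ℝ → ℍ} (hc₁ : Continuous c₁) (hc₂ : Continuous c₂)
    {u₁ v₁ u₂ v₂ : ℝ × ℝ} (h1 : Conv c₁ atBot u₁) (h1' : Conv c₁ atTop v₁)
    (h2 : Conv c₂ atBot u₂) (h2' : Conv c₂ atTop v₂) (hpos : 0 < dt u₁ v₁)
    (hu2 : dt u₂ v₁ ≠ 0) (hv2 : dt v₂ v₁ ≠ 0) (hneg : dt u₂ u₁ / dt u₂ v₁ < 0)
    (hpos' : 0 < dt v₂ u₁ / dt v₂ v₁) : ∃ s t, c₁ s = c₂ t := by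
  have hv0 : v₁ ≠ 0 := by rintro rfl; simp [dt] at hpos
  have hu0 : u₁ ≠ 0 := by rintro rfl; simp [dt] at hpos
  let W : ℍ → ℂ := RR u₁ v₁
  have hWc : Continuous W := RR_continuous u₁ hv0
  have hWim : ∀ z, 0 < (W z).im := fun z => RR_im_pos hpos z
  have hW0 : ∀ z, W z ≠ 0 := fun z h => by
    have := hWim z
    rw [h] at this
    simp at this
  have hWs : ∀ z, W z ∈ Complex.slitPlane := fun z => Or.inr (hWim z).ne'
  have hL : Continuous fun z => Complex.log (W z) := by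
    rw [continuous_iff_continuousAt]
    intro z
    exact ContinuousAt.comp (f := W) (g := Complex.log) (continuousAt_clog (hWs z))
      hWc.continuousAt
  have hre : ∀ z, (Complex.log (W z)).re = Real.log ‖W z‖ := fun z => Complex.log_re _
  have him : ∀ z, (Complex.log (W z)).im = (W z).arg := fun z => Complex.log_im _
  have harg : ∀ z, 0 < (W z).arg ∧ (W z).arg < Real.pi := by
    intro z
    constructor
    · rcases lt_or_eq_of_le (Complex.arg_nonneg_iff.mpr (hWim z).le) with h | h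
      · exact h
      · exfalso
        have := (Complex.arg_eq_zero_iff.mp h.symm).2
        exact (hWim z).ne' this
    · rcases lt_or_eq_of_le (Complex.arg_le_pi (W z)) with h | h
      · exact h
      · exfalso
        have := (Complex.arg_eq_pi_iff.mp h).2
        exact (hWim z).ne' this
  -- the second curve
  set r := dt u₂ u₁ / dt u₂ v₁ with hr
  set r' := dt v₂ u₁ / dt v₂ v₁ with hr'
  have l2 : Tendsto (fun t => W (c₂ t)) atBot (𝓝 (r : ℂ)) := h2.lim u₁ hu2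
  have l2' : Tendsto (fun t => W (c₂ t)) atTop (𝓝 (r' : ℂ)) := h2'.lim u₁ hv2
  have lx : Tendsto (fun t => Real.log ‖W (c₂ t)‖) atBot (𝓝 (Real.log ‖(r : ℂ)‖)) :=
    (Real.continuousAt_log (by simpa using hneg.ne)).tendsto.comp l2.norm
  have lx' : Tendsto (fun t => Real.log ‖W (c₂ t)‖) atTop (𝓝 (Real.log ‖(r' : ℂ)‖)) :=
    (Real.continuousAt_log (by simpa using hpos'.ne')).tendsto.comp l2'.norm
  have ly : Tendsto (fun t => (W (c₂ t)).arg) atBot (𝓝 Real.pi) := by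
    have h3 := Complex.tendsto_arg_nhdsWithin_im_nonneg_of_re_neg_of_im_zero (z := (r : ℂ))
      (by simpa using hneg) (by simp)
    refine h3.comp (tendsto_nhdsWithin_iff.mpr ⟨l2, ?_⟩)
    exact Eventually.of_forall fun t => (hWim _).le
  have ly' : Tendsto (fun t => (W (c₂ t)).arg) atTop (𝓝 0) := by
    have h3 : ContinuousAt Complex.arg (r' : ℂ) :=
      Complex.continuousAt_arg (Or.inl (by simpa using hpos'))
    have h4 : Complex.arg (r' : ℂ) = 0 := Complex.arg_ofReal_of_nonneg hpos'.le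
    rw [ContinuousAt, h4] at h3
    exact h3.comp l2'
  -- bound
  obtain ⟨B, hB⟩ : ∃ B : ℝ, ∀ t, |Real.log ‖W (c₂ t)‖| ≤ B := by
    have hcont : Continuous fun t => Real.log ‖W (c₂ t)‖ := by
      refine Continuous.log ((hWc.comp hc₂).norm) fun t => ?_
      exact norm_ne_zero_iff.mpr (hW0 _)
    have e1 := (lx.abs).eventually (gt_mem_nhds (lt_add_one _))
    have e2 := (lx'.abs).eventually (gt_mem_nhds (lt_add_one _))
    obtain ⟨T1, hT1⟩ := eventually_atBot.mp e1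
    obtain ⟨T2, hT2⟩ := eventually_atTop.mp e2
    obtain ⟨B0, hB0⟩ := (isCompact_Icc (a := T1) (b := T2)).exists_bound_of_continuousOn
      hcont.continuousOn
    refine ⟨max B0 (max (|Real.log ‖(r : ℂ)‖| + 1) (|Real.log ‖(r' : ℂ)‖| + 1)), fun t => ?_⟩
    by_cases ht1 : t ≤ T1
    · exact (hT1 t ht1).le.trans ((le_max_left _ _).trans (le_max_right _ _))
    · by_cases ht2 : T2 ≤ t
      · exact (hT2 t ht2).le.trans ((le_max_right _ _).trans (le_max_right _ _))
      · exact (hB0 t ⟨by linarith, by linarith⟩).trans (le_max_left _ _)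
  -- the first curve
  have k1 : Tendsto (fun s => Real.log ‖W (c₁ s)‖) atBot atBot := by
    have h3 : Tendsto (fun s => ‖W (c₁ s)‖) atBot (𝓝[≠] 0) := by
      refine tendsto_nhdsWithin_iff.mpr ⟨?_, Eventually.of_forall fun s =>
        norm_ne_zero_iff.mpr (hW0 _)⟩
      have := (h1 v₁ hpos.ne').norm
      rwa [norm_zero] at this
    exact Real.tendsto_log_nhdsNE_zero.comp h3
  have k1' : Tendsto (fun s => Real.log ‖W (c₁ s)‖) atTop atTop := by
    have h3 : Tendsto (fun s => ‖RR v₁ u₁ (c₁ s)‖) atTop (𝓝[≠] 0) := by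
      refine tendsto_nhdsWithin_iff.mpr ⟨?_, Eventually.of_forall fun s => ?_⟩
      · have := (h1' u₁ (by rw [dt_comm, neg_ne_zero]; exact hpos.ne')).norm
        rwa [norm_zero] at this
      · exact norm_ne_zero_iff.mpr (div_ne_zero (DD_ne_zero hv0 _) (DD_ne_zero hu0 _))
    have h4 := Real.tendsto_log_nhdsNE_zero.comp h3
    have h5 : ∀ s, Real.log ‖W (c₁ s)‖ = -(Real.log ‖RR v₁ u₁ (c₁ s)‖) := by
      intro s
      rw [← Real.log_inv, ← norm_inv]
      congr 2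
      change DD u₁ _ / DD v₁ _ = (DD v₁ _ / DD u₁ _)⁻¹
      rw [inv_div]
    simp only [h5]
    exact tendsto_neg_atBot_atTop.comp h4
  obtain ⟨S1, hS1⟩ := eventually_atBot.mp (k1.eventually_lt_atBot (-B))
  obtain ⟨S2, hS2⟩ := eventually_atTop.mp (k1'.eventually_gt_atTop B)
  set a := min S1 S2 with ha
  set b := max S1 S2 with hb
  have hab : a ≤ b := (min_le_left _ _).trans (le_max_left _ _)
  -- the compact part
  have hy1 : ContinuousOn (fun s => (Complex.log (W (c₁ s))).im) (Icc a b) :=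
    (Complex.continuous_im.comp (hL.comp hc₁)).continuousOn
  obtain ⟨s0, hs0, hmin⟩ := isCompact_Icc.exists_isMinOn (nonempty_Icc.mpr hab) hy1
  obtain ⟨s1, hs1, hmax⟩ := isCompact_Icc.exists_isMaxOn (nonempty_Icc.mpr hab) hy1
  have e3 := ly.eventually (lt_mem_nhds (harg (c₁ s1)).2)
  have e4 := ly'.eventually (gt_mem_nhds (harg (c₁ s0)).1)
  obtain ⟨T1, hT1⟩ := eventually_atBot.mp e3
  obtain ⟨T2, hT2⟩ := eventually_atTop.mp e4
  set c := min T1 T2 with hc
  set d := max T1 T2 with hd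
  have hcd : c ≤ d := (min_le_left _ _).trans (le_max_left _ _)
  obtain ⟨s, t, hst⟩ := pm (F := fun s t => Complex.log (W (c₁ s)) - Complex.log (W (c₂ t)))
    (a := a) (b := b) (c := c) (d := d)
    (((hL.comp hc₁).comp continuous_fst).sub ((hL.comp hc₂).comp continuous_snd))
    (fun t _ => by
      rw [Complex.sub_re, hre, hre]
      have h3 := hS1 a (min_le_left _ _)
      have h4 := (abs_le.mp (hB t)).1
      linarith)
    (fun t _ => by
      rw [Complex.sub_re, hre, hre]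
      have h3 := hS2 b (le_max_right _ _)
      have h4 := (abs_le.mp (hB t)).2
      linarith)
    (fun s hs => by
      rw [Complex.sub_im, him (c₂ c)]
      have h3 := hmax hs
      have h4 := hT1 c (min_le_left _ _)
      simp only [mem_ofPred_eq] at h3
      rw [him, him] at h3
      rw [him]
      linarith)
    (fun s hs => by
      rw [Complex.sub_im, him (c₂ d)]
      have h3 := hmin hs
      have h4 := hT2 d (le_max_right _ _)
      simp only [mem_ofPred_eq] at h3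
      rw [him, him] at h3
      rw [him]
      linarith) hab hcd
  refine ⟨s, t, RR_inj hpos.ne' ?_⟩
  have h3 := congrArg Complex.exp (sub_eq_zero.mp hst)
  rwa [Complex.exp_log (hW0 _), Complex.exp_log (hW0 _)] at h3

/-- **Lines with linked ends intersect.** -/
theorem crossing {c₁ c₂ : ℝ → ℍ} (hc₁ : Continuous c₁) (hc₂ : Continuous c₂)
    {u₁ v₁ u₂ v₂ : ℝ × ℝ} (h1 : Conv c₁ atBot u₁) (h1' : Conv c₁ atTop v₁)
    (h2 : Conv c₂ atBot u₂) (h2' : Conv c₂ atTop v₂) (hlk : Lk u₁ v₁ u₂ v₂) :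
    ∃ s t, c₁ s = c₂ t := by
  -- normalise the sign
  wlog hpos : 0 < dt u₁ v₁ generalizing u₁
  · have hne : dt u₁ v₁ ≠ 0 := hlk.ne'
    have h3 : dt u₁ v₁ < 0 := lt_of_le_of_ne (not_lt.mp hpos) hne
    refine this (u₁ := (-1 : ℝ) • u₁) (h1.smul _) ?_ ?_
    · have := (Lk_smul (a := -1) (b := 1) (c := 1) (d := 1) (by norm_num) one_ne_zero one_ne_zero
        one_ne_zero u₁ v₁ u₂ v₂).mpr hlk
      simpa only [one_smul] using this
    · rw [dt_smul_left]
      linarith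
  have hne := hlk.ne
  have hu2 : dt u₂ v₁ ≠ 0 := by rw [dt_comm, neg_ne_zero]; exact hne.2.2.1
  have hv2 : dt v₂ v₁ ≠ 0 := by rw [dt_comm, neg_ne_zero]; exact hne.2.2.2
  have hprod : dt u₂ u₁ / dt u₂ v₁ * (dt v₂ u₁ / dt v₂ v₁) < 0 := by
    rw [div_mul_div_comm]
    have h3 : dt u₂ u₁ * dt v₂ u₁ / (dt u₂ v₁ * dt v₂ v₁) =
        lkp u₁ v₁ u₂ v₂ / (dt u₂ v₁ * dt v₂ v₁) ^ 2 := by
      simp only [lkp]
      rw [dt_comm u₂ u₁, dt_comm v₂ u₁, dt_comm u₂ v₁, dt_comm v₂ v₁]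
      have h4 := hne.2.2.1
      have h5 := hne.2.2.2
      field_simp
    rw [h3]
    exact div_neg_of_neg_of_pos hlk (by positivity)
  rcases lt_or_ge (dt u₂ u₁ / dt u₂ v₁) 0 with h | h
  · have h' : 0 < dt v₂ u₁ / dt v₂ v₁ := by
      by_contra h3
      rw [not_lt] at h3
      have := mul_nonneg_of_nonpos_of_nonpos h.le h3
      linarith
    exact crossing_aux hc₁ hc₂ h1 h1' h2 h2' hpos hu2 hv2 h h'
  · have h0 : 0 < dt u₂ u₁ / dt u₂ v₁ := by
      rcases lt_or_eq_of_le h with h3 | h3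
      · exact h3
      · rw [← h3, zero_mul] at hprod
        exact absurd hprod (lt_irrefl _)
    have h' : dt v₂ u₁ / dt v₂ v₁ < 0 := by
      by_contra h3
      rw [not_lt] at h3
      have := mul_nonneg h0.le h3
      linarith
    obtain ⟨s, t, hst⟩ := crossing_aux hc₁ (hc₂.comp continuous_neg) h1 h1'
      h2'.neg_param_bot h2.neg_param_top hpos hv2 hu2 h' h0
    exact ⟨s, -t, hst⟩

end Pool.Agent.Helper2.Fuch
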