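import Mathlib
import Pool.Agent.Helper2.Fuch.Lin

/-!
# Discrete groups: finiteness of linking
-/

set_option autoImplicit false

open Topology Set Filter Matrix
open scoped MatrixGroups

namespace Pool.Agent.Helper2.Fuch

/-- The entries. -/
def fn (g : SL(2, ℝ)) : Fin 2 → Fin 2 → ℝ := fun i j => g i j

lemma finite_ball (Γ : Subgroup SL(2, ℝ)) [DiscreteTopology Γ] (R : ℝ) :
    {g : Γ | ‖fn g‖ ≤ R}.Finite := by
  have h1 : IsCompact (Metric.closedBall (0 : Fin 2 → Fin 2 → ℝ) R) := isCompact_closedBall _ _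
  have h2 : IsClosedEmbedding fn := Matrix.SpecialLinearGroup.isClosedEmbedding_val
  have h3 : IsClosed (Γ : Set SL(2, ℝ)) := Subgroup.isClosed_of_discrete
  have h4 : IsClosedEmbedding (Subtype.val : Γ → SL(2, ℝ)) := h3.isClosedEmbedding_subtypeVal
  have h5 : IsCompact ((fn ∘ Subtype.val : Γ → Fin 2 → Fin 2 → ℝ) ⁻¹'
      (Metric.closedBall (0 : Fin 2 → Fin 2 → ℝ) R)) := (h2.comp h4).isCompact_preimage h1
  have h6 := isCompact_iff_finite.mp h5
  refine h6.subset ?_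
  intro g hg
  rw [mem_preimage, Metric.mem_closedBall, dist_zero_right]
  exact hg

/-- The action of a matrix given by its entries. -/
def am (m : Fin 2 → Fin 2 → ℝ) (u : ℝ × ℝ) : ℝ × ℝ :=
  (m 0 0 * u.1 + m 0 1 * u.2, m 1 0 * u.1 + m 1 1 * u.2)

lemma am_fn (g : SL(2, ℝ)) (u : ℝ × ℝ) : am (fn g) u = ac g u := rfl

lemma am_smul (c : ℝ) (m : Fin 2 → Fin 2 → ℝ) (u : ℝ × ℝ) : am (c • m) u = c • am m u := by
  simp only [am, Pi.smul_apply, smul_eq_mul]
  ext <;> simp <;> ring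

lemma dt_am (m : Fin 2 → Fin 2 → ℝ) (u v : ℝ × ℝ) :
    dt (am m u) (am m v) = (m 0 0 * m 1 1 - m 0 1 * m 1 0) * dt u v := by
  simp only [dt, am]
  ring

lemma am_continuous (u : ℝ × ℝ) : Continuous (fun m => am m u) := by
  unfold am
  fun_prop

lemma dt_continuous (p : ℝ × ℝ) : Continuous (fun u => dt p u) := by
  unfold dt
  fun_prop

lemma am_eq_zero {m : Fin 2 → Fin 2 → ℝ} {u v : ℝ × ℝ} (huv : dt u v ≠ 0) (hu : am m u = 0)
    (hv : am m v = 0) : m = 0 := by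
  have h : u.1 * v.2 - u.2 * v.1 ≠ 0 := huv
  have e1 : m 0 0 * u.1 + m 0 1 * u.2 = 0 := congrArg Prod.fst hu
  have e2 : m 1 0 * u.1 + m 1 1 * u.2 = 0 := congrArg Prod.snd hu
  have e3 : m 0 0 * v.1 + m 0 1 * v.2 = 0 := congrArg Prod.fst hv
  have e4 : m 1 0 * v.1 + m 1 1 * v.2 = 0 := congrArg Prod.snd hv
  have h00 : m 0 0 = 0 := by
    apply (mul_eq_zero.mp (?_ : m 0 0 * (u.1 * v.2 - u.2 * v.1) = 0)).resolve_right h
    linear_combination v.2 * e1 - u.2 * e3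
  have h01 : m 0 1 = 0 := by
    apply (mul_eq_zero.mp (?_ : m 0 1 * (u.1 * v.2 - u.2 * v.1) = 0)).resolve_right h
    linear_combination u.1 * e3 - v.1 * e1
  have h10 : m 1 0 = 0 := by
    apply (mul_eq_zero.mp (?_ : m 1 0 * (u.1 * v.2 - u.2 * v.1) = 0)).resolve_right h
    linear_combination v.2 * e2 - u.2 * e4
  have h11 : m 1 1 = 0 := by
    apply (mul_eq_zero.mp (?_ : m 1 1 * (u.1 * v.2 - u.2 * v.1) = 0)).resolve_right h
    linear_combination u.1 * e4 - v.1 * e2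
  funext i j
  fin_cases i <;> fin_cases j <;> simp [h00, h01, h10, h11]

/-- The finiteness of the number of complete crossings. -/
theorem finite_cross (Γ : Subgroup SL(2, ℝ)) [DiscreteTopology Γ] {p q p' q' u u' w w' : ℝ × ℝ}
    (hpp : dt p p' ≠ 0) (hpq : dt p q' ≠ 0) (hqp : dt q p' ≠ 0) (hqq : dt q q' ≠ 0)
    (hu : dt u u' ≠ 0) (hw : dt w w' ≠ 0) :
    {g : Γ | ∀ x ∈ ({u, u'} : Set (ℝ × ℝ)), ∀ y ∈ ({w, w'} : Set (ℝ × ℝ)),
      Lk p q (ac g x) (ac g y) ∧ Lk p' q' (ac g x) (ac g y)}.Finite := by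
  by_contra hinf
  set S := {g : Γ | ∀ x ∈ ({u, u'} : Set (ℝ × ℝ)), ∀ y ∈ ({w, w'} : Set (ℝ × ℝ)),
      Lk p q (ac g x) (ac g y) ∧ Lk p' q' (ac g x) (ac g y)} with hS
  have hex : ∀ n : ℕ, ∃ g : Γ, g ∈ S ∧ (n : ℝ) + 1 < ‖fn g‖ := by
    intro n
    by_contra h
    push Not at h
    exact hinf ((finite_ball Γ ((n : ℝ) + 1)).subset fun g hg => h g hg)
  choose g hgS hgn using hex
  let E : ℕ → Fin 2 → Fin 2 → ℝ := fun n => ‖fn (g n)‖⁻¹ • fn (g n)
  have hpos : ∀ n, 0 < ‖fn (g n)‖ := fun n => by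
    have h1 := hgn n
    have h2 : (0 : ℝ) ≤ n := Nat.cast_nonneg n
    linarith
  have hE : ∀ n, E n ∈ Metric.sphere (0 : Fin 2 → Fin 2 → ℝ) 1 := by
    intro n
    rw [mem_sphere_zero_iff_norm, norm_smul, norm_inv, norm_norm, inv_mul_cancel₀ (hpos n).ne']
  obtain ⟨F, hF, φ, hφ, hlim⟩ := (isCompact_sphere (0 : Fin 2 → Fin 2 → ℝ) 1).tendsto_subseq hE
  have hF0 : F ≠ 0 := by
    rintro rfl
    rw [mem_sphere_zero_iff_norm, norm_zero] at hF
    exact zero_ne_one hF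
  have hto : Tendsto (fun n => ‖fn (g (φ n))‖) atTop atTop := by
    refine tendsto_atTop_mono (fun n => ?_) (tendsto_natCast_atTop_atTop (R := ℝ))
    have h1 := hgn (φ n)
    have h2 : ((n : ℕ) : ℝ) ≤ (φ n : ℝ) := by exact_mod_cast hφ.id_le n
    linarith
  have hdet : F 0 0 * F 1 1 - F 0 1 * F 1 0 = 0 := by
    have h1 : Tendsto (fun n => E (φ n) 0 0 * E (φ n) 1 1 - E (φ n) 0 1 * E (φ n) 1 0) atTop
        (𝓝 (F 0 0 * F 1 1 - F 0 1 * F 1 0)) := by
      have hc : Continuous (fun m : Fin 2 → Fin 2 → ℝ => m 0 0 * m 1 1 - m 0 1 * m 1 0) := by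
        fun_prop
      exact (hc.tendsto F).comp hlim
    have h2 : ∀ n, E (φ n) 0 0 * E (φ n) 1 1 - E (φ n) 0 1 * E (φ n) 1 0 =
        ‖fn (g (φ n))‖⁻¹ * ‖fn (g (φ n))‖⁻¹ := by
      intro n
      have h3 := det_eq (g (φ n))
      simp only [E, Pi.smul_apply, smul_eq_mul, fn]
      linear_combination (‖fn (g (φ n))‖⁻¹ * ‖fn (g (φ n))‖⁻¹) * h3
    have h3 : Tendsto (fun n => ‖fn (g (φ n))‖⁻¹ * ‖fn (g (φ n))‖⁻¹) atTop (𝓝 (0 * 0)) :=
      (tendsto_inv_atTop_zero.comp hto).mul (tendsto_inv_atTop_zero.comp hto)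
    rw [mul_zero] at h3
    exact tendsto_nhds_unique (h1.congr h2) h3
  obtain ⟨x, hx, hx0⟩ : ∃ x ∈ ({u, u'} : Set (ℝ × ℝ)), am F x ≠ 0 := by
    by_contra h
    push Not at h
    exact hF0 (am_eq_zero hu (h u (by simp)) (h u' (by simp)))
  obtain ⟨y, hy, hy0⟩ : ∃ y ∈ ({w, w'} : Set (ℝ × ℝ)), am F y ≠ 0 := by
    by_contra h
    push Not at h
    exact hF0 (am_eq_zero hw (h w (by simp)) (h w' (by simp)))
  have hpar : dt (am F x) (am F y) = 0 := by
    rw [dt_am, hdet, zero_mul]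
  obtain ⟨c, hc, hcy⟩ := exists_smul_of_dt' hx0 hy0 hpar
  have key : ∀ a b : ℝ × ℝ, (∀ n, Lk a b (ac (g n) x) (ac (g n) y)) →
      dt a (am F x) = 0 ∨ dt b (am F x) = 0 := by
    intro a b hab
    have h1 : ∀ n, lkp a b (am (E (φ n)) x) (am (E (φ n)) y) ≤ 0 := by
      intro n
      have h2 : lkp a b (ac (g (φ n)) x) (ac (g (φ n)) y) < 0 := hab (φ n)
      have h3 := lkp_smul 1 1 ‖fn (g (φ n))‖⁻¹ ‖fn (g (φ n))‖⁻¹ a b (ac (g (φ n)) x)
        (ac (g (φ n)) y)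
      rw [one_smul, one_smul] at h3
      have h4 : am (E (φ n)) x = ‖fn (g (φ n))‖⁻¹ • ac (g (φ n)) x := by
        simp only [E, am_smul, am_fn]
      have h5 : am (E (φ n)) y = ‖fn (g (φ n))‖⁻¹ • ac (g (φ n)) y := by
        simp only [E, am_smul, am_fn]
      rw [h4, h5, h3]
      exact mul_nonpos_of_nonneg_of_nonpos (sq_nonneg _) h2.le
    have h2 : Tendsto (fun n => lkp a b (am (E (φ n)) x) (am (E (φ n)) y)) atTop
        (𝓝 (lkp a b (am F x) (am F y))) := by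
      have hcont : Continuous (fun m : Fin 2 → Fin 2 → ℝ => lkp a b (am m x) (am m y)) := by
        unfold lkp dt am
        fun_prop
      exact (hcont.tendsto F).comp hlim
    have h3 : lkp a b (am F x) (am F y) ≤ 0 := le_of_tendsto' h2 h1
    rw [hcy] at h3
    simp only [lkp, dt_smul_right] at h3
    have h4 : c * c * ((dt a (am F x) * dt b (am F x)) * (dt a (am F x) * dt b (am F x))) ≤ 0 := by
      linarith
    have h5 : 0 < c * c := mul_self_pos.mpr hc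
    have h6 : (dt a (am F x) * dt b (am F x)) * (dt a (am F x) * dt b (am F x)) ≤ 0 := by
      by_contra h
      rw [not_le] at h
      have := mul_pos h5 h
      linarith
    have h7 : dt a (am F x) * dt b (am F x) = 0 := by
      have := mul_self_nonneg (dt a (am F x) * dt b (am F x))
      exact mul_self_eq_zero.mp (le_antisymm h6 this)
    exact mul_eq_zero.mp h7
  have k1 := key p q (fun n => (hgS n x hx y hy).1)
  have k2 := key p' q' (fun n => (hgS n x hx y hy).2)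
  have hcross : ∀ a b : ℝ × ℝ, dt a b ≠ 0 → dt a (am F x) = 0 → dt b (am F x) = 0 → False := by
    intro a b hab h1 h2
    apply hx0
    have h3 := expand hab (am F x)
    rw [h3, h1, dt_comm (am F x) b, h2]
    simp
  rcases k1 with k1 | k1 <;> rcases k2 with k2 | k2
  · exact hcross p p' hpp k1 k2
  · exact hcross p q' hpq k1 k2
  · exact hcross q p' hqp k1 k2
  · exact hcross q q' hqq k1 k2

end Pool.Agent.Helper2.Fuch
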