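import Mathlib
import Pool.Agent.Helper2.Fuch.Lin

/-!
# Hyperbolic elements and their attracting directions
-/

set_option autoImplicit false

open Topology Set Filter Matrix
open scoped MatrixGroups

namespace Pool.Agent.Helper2.Fuch

/-- `u` is an attracting direction of `g`. -/
def IsAtt (g : SL(2, ℝ)) (u : ℝ × ℝ) : Prop := u ≠ 0 ∧ ∃ μ : ℝ, 1 < |μ| ∧ ac g u = μ • u

lemma exists_isAtt {g : SL(2, ℝ)} (hg : 2 < |(g : Matrix (Fin 2) (Fin 2) ℝ).trace|) :
    ∃ u, IsAtt g u := by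
  rw [Matrix.trace_fin_two] at hg
  set a := (g : Matrix (Fin 2) (Fin 2) ℝ) 0 0 with ha
  set b := (g : Matrix (Fin 2) (Fin 2) ℝ) 0 1 with hb
  set c := (g : Matrix (Fin 2) (Fin 2) ℝ) 1 0 with hc
  set d := (g : Matrix (Fin 2) (Fin 2) ℝ) 1 1 with hd
  have hdet : a * d - b * c = 1 := det_eq g
  set t := a + d with ht
  have hdisc : 0 < t ^ 2 - 4 := by
    have := sq_lt_sq' (by linarith [abs_nonneg t] : -|t| < 2) hg
    rw [sq_abs] at this
    linarith
  obtain ⟨μ, hμ, hroot⟩ : ∃ μ : ℝ, 1 < |μ| ∧ μ ^ 2 - t * μ + 1 = 0 := by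
    set r := √(t ^ 2 - 4) with hr
    have hr2 : r ^ 2 = t ^ 2 - 4 := Real.sq_sqrt hdisc.le
    have hrpos : 0 < r := Real.sqrt_pos.mpr hdisc
    rcases le_or_gt 0 t with h | h
    · rw [abs_of_nonneg h] at hg
      refine ⟨(t + r) / 2, ?_, by nlinarith⟩
      rw [abs_of_pos (by linarith)]
      linarith
    · rw [abs_of_neg h] at hg
      refine ⟨(t - r) / 2, ?_, by nlinarith⟩
      rw [abs_of_neg (by linarith)]
      linarith
  have hchar : (a - μ) * (d - μ) - b * c = 0 := by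
    have : t = a + d := ht
    rw [this] at hroot
    linarith
  by_cases h : b = 0 ∧ a = μ
  · obtain ⟨hb0, haμ⟩ := h
    refine ⟨(μ - d, c), ?_, μ, hμ, ?_⟩
    · intro h0
      have h1 : μ - d = 0 := congrArg Prod.fst h0
      have h3 : d = μ := by linarith
      rw [hb0, haμ, h3] at hdet
      have h4 : |μ| * |μ| = 1 := by
        rw [← abs_mul]
        have : μ * μ = 1 := by linarith
        rw [this, abs_one]
      nlinarith
    · ext
      · change a * (μ - d) + b * c = μ * (μ - d)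
        rw [haμ, hb0]
        ring
      · change c * (μ - d) + d * c = μ * c
        ring
  · refine ⟨(b, μ - a), ?_, μ, hμ, ?_⟩
    · intro h0
      apply h
      have h1 : b = 0 := congrArg Prod.fst h0
      have h2 : μ - a = 0 := congrArg Prod.snd h0
      exact ⟨h1, by linarith⟩
    · ext
      · change a * b + b * (μ - a) = μ * b
        ring
      · change c * b + d * (μ - a) = μ * (μ - a)
        linear_combination -hchar

lemma IsAtt.par {g : SL(2, ℝ)} {u v : ℝ × ℝ} (hu : IsAtt g u) (hv : IsAtt g v) : dt u v = 0 := by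
  obtain ⟨hu0, μ, hμ, hgu⟩ := hu
  obtain ⟨hv0, ν, hν, hgv⟩ := hv
  have h := dt_ac g u v
  rw [hgu, hgv, dt_smul_left, dt_smul_right] at h
  have h2 : (μ * ν - 1) * dt u v = 0 := by linarith
  rcases mul_eq_zero.mp h2 with h3 | h3
  · exfalso
    have h4 : |μ| * |ν| = 1 := by
      rw [← abs_mul]
      have : μ * ν = 1 := by linarith
      rw [this, abs_one]
    nlinarith
  · exact h3

lemma IsAtt.smul {g : SL(2, ℝ)} {u : ℝ × ℝ} (hu : IsAtt g u) {c : ℝ} (hc : c ≠ 0) :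
    IsAtt g (c • u) := by
  obtain ⟨hu0, μ, hμ, hgu⟩ := hu
  refine ⟨smul_ne_zero hc hu0, μ, hμ, ?_⟩
  rw [ac_smul, hgu, smul_comm]

lemma IsAtt.of_par {g : SL(2, ℝ)} {u v : ℝ × ℝ} (hu : IsAtt g u) (hv : v ≠ 0)
    (h : dt u v = 0) : IsAtt g v := by
  obtain ⟨c, hc, rfl⟩ := exists_smul_of_dt' hu.1 hv h
  exact hu.smul hc

lemma IsAtt.conj {g : SL(2, ℝ)} {u : ℝ × ℝ} (hu : IsAtt g u) (h : SL(2, ℝ)) :
    IsAtt (h * g * h⁻¹) (ac h u) := by
  obtain ⟨hu0, μ, hμ, hgu⟩ := hu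
  refine ⟨ac_ne_zero hu0, μ, hμ, ?_⟩
  rw [ac_mul, ac_mul, ac_inv_ac, hgu, ac_smul]

/-- The eigenvalues of the attracting and repelling directions. -/
lemma IsAtt.pair {g : SL(2, ℝ)} {u v : ℝ × ℝ} (hu : IsAtt g u) (hv : IsAtt g⁻¹ v) :
    dt u v ≠ 0 ∧ ∃ μ : ℝ, 1 < |μ| ∧ ac g u = μ • u ∧ ac g v = μ⁻¹ • v := by
  obtain ⟨hu0, μ, hμ, hgu⟩ := hu
  obtain ⟨hv0, ν, hν, hgv⟩ := hv
  have hν0 : ν ≠ 0 := by rintro rfl; simp at hν; linarith
  have hμ0 : μ ≠ 0 := by rintro rfl; simp at hμ; linarith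
  have hgv' : ac g v = ν⁻¹ • v := by
    have h1 := ac_ac_inv g v
    rw [hgv, ac_smul] at h1
    rw [← h1, smul_smul, inv_mul_cancel₀ hν0, one_smul, h1]
  have hne : dt u v ≠ 0 := by
    intro h0
    obtain ⟨c, hc, rfl⟩ := exists_smul_of_dt' hu0 hv0 h0
    rw [ac_smul, hgu, smul_smul, smul_smul] at hgv'
    have h1 : (c * μ - ν⁻¹ * c) • u = 0 := by rw [sub_smul, hgv', sub_self]
    rcases smul_eq_zero.mp h1 with h2 | h2
    · have h3 : μ * ν = 1 := by
        have : c * (μ * ν) = c * 1 := by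
          have h5 : c * μ = ν⁻¹ * c := by linarith
          calc c * (μ * ν) = (c * μ) * ν := by ring
            _ = ν⁻¹ * c * ν := by rw [h5]
            _ = c * 1 := by field_simp
        exact mul_left_cancel₀ hc this
      have h4 : |μ| * |ν| = 1 := by rw [← abs_mul, h3, abs_one]
      nlinarith
    · exact hu0 h2
  refine ⟨hne, μ, hμ, hgu, ?_⟩
  have h := dt_ac g u v
  rw [hgu, hgv', dt_smul_left, dt_smul_right] at h
  have h2 : (μ * ν⁻¹ - 1) * dt u v = 0 := by linarith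
  have h3 := (mul_eq_zero.mp h2).resolve_right hne
  have h4 : μ = ν := by
    field_simp at h3
    linarith
  rw [hgv', h4]

/-- A purely hyperbolic group. -/
def Hyp (Γ : Subgroup SL(2, ℝ)) : Prop :=
  ∀ g ∈ Γ, g ≠ 1 → 2 < |(g : Matrix (Fin 2) (Fin 2) ℝ).trace|

lemma trace_of_fixed {k : SL(2, ℝ)} {u : ℝ × ℝ} (hu : u ≠ 0) (h : ac k u = u) :
    (k : Matrix (Fin 2) (Fin 2) ℝ).trace = 2 := by
  rw [Matrix.trace_fin_two]
  have hdet := det_eq k
  have e1 : k 0 0 * u.1 + k 0 1 * u.2 = u.1 := congrArg Prod.fst h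
  have e2 : k 1 0 * u.1 + k 1 1 * u.2 = u.2 := congrArg Prod.snd h
  have h1 : (2 - (k 0 0 + k 1 1)) * u.1 = 0 := by
    linear_combination (k 1 1 - 1) * e1 - (k 0 1) * e2 - u.1 * hdet
  have h2 : (2 - (k 0 0 + k 1 1)) * u.2 = 0 := by
    linear_combination (k 0 0 - 1) * e2 - (k 1 0) * e1 - u.2 * hdet
  by_contra hne
  have h3 : 2 - (k 0 0 + k 1 1) ≠ 0 := fun h => hne (by linarith)
  exact hu (Prod.ext ((mul_eq_zero.mp h1).resolve_left h3) ((mul_eq_zero.mp h2).resolve_left h3))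

lemma Hyp.commute {Γ : Subgroup SL(2, ℝ)} (hΓ : Hyp Γ) {g h : SL(2, ℝ)} (hg : g ∈ Γ)
    (hh : h ∈ Γ) {u : ℝ × ℝ} (hu : u ≠ 0) {μ ν : ℝ} (h1 : ac g u = μ • u)
    (h2 : ac h u = ν • u) : g * h = h * g := by
  have hμ0 : μ ≠ 0 := by
    rintro rfl
    rw [zero_smul] at h1
    exact ac_ne_zero hu h1
  have hν0 : ν ≠ 0 := by
    rintro rfl
    rw [zero_smul] at h2
    exact ac_ne_zero hu h2
  have h1' : ac g⁻¹ u = μ⁻¹ • u := by
    have := ac_inv_ac g u
    rw [h1, ac_smul] at this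
    rw [← this, smul_smul, inv_mul_cancel₀ hμ0, one_smul, this]
  have h2' : ac h⁻¹ u = ν⁻¹ • u := by
    have := ac_inv_ac h u
    rw [h2, ac_smul] at this
    rw [← this, smul_smul, inv_mul_cancel₀ hν0, one_smul, this]
  have h3 : ac (g * h * g⁻¹ * h⁻¹) u = u := by
    simp only [ac_mul, h2', ac_smul, h1', h2, h1, smul_smul]
    have : ν⁻¹ * (μ⁻¹ * (ν * μ)) = 1 := by field_simp
    rw [this, one_smul]
  have h4 := trace_of_fixed hu h3
  by_contra hne
  have h5 := hΓ (g * h * g⁻¹ * h⁻¹) (Γ.mul_mem (Γ.mul_mem (Γ.mul_mem hg hh) (Γ.inv_mem hg))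
    (Γ.inv_mem hh)) (by
      intro h6
      apply hne
      rw [mul_inv_eq_one] at h6
      exact mul_inv_eq_iff_eq_mul.mp h6)
  rw [h4] at h5
  norm_num at h5

/-- A choice of an attracting direction. -/
noncomputable def att (g : SL(2, ℝ)) : ℝ × ℝ := by
  classical
  exact if h : ∃ u, IsAtt g u then h.choose else (1, 0)

lemma att_ne_zero (g : SL(2, ℝ)) : att g ≠ 0 := by
  classical
  unfold att
  split_ifs with h
  · exact h.choose_spec.1
  · intro h
    have := congrArg Prod.fst h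
    simp at this

lemma Hyp.att {Γ : Subgroup SL(2, ℝ)} (hΓ : Hyp Γ) {g : SL(2, ℝ)} (hg : g ∈ Γ) (h1 : g ≠ 1) :
    IsAtt g (att g) := by
  classical
  have h := exists_isAtt (hΓ g hg h1)
  unfold Fuch.att
  rw [dif_pos h]
  exact h.choose_spec

end Pool.Agent.Helper2.Fuch
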