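import Mathlib
import Pool.Agent.Helper2.Fuch.Hyp

/-!
# Positions along an axis
-/

set_option autoImplicit false

open Topology Set Filter
open scoped MatrixGroups

namespace Pool.Agent.Helper2.Fuch

/-- A hyperbolic element `γ` and an element `δ` which moves the axis of `γ` to a linked axis. -/
structure Ax (Γ : Subgroup SL(2, ℝ)) where
  γ : Γ
  δ : Γ
  p : ℝ × ℝ
  q : ℝ × ℝ
  μ : ℝ
  hμ : 1 < |μ|
  hp : ac γ p = μ • p
  hq : ac γ q = μ⁻¹ • q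
  lk : Lk p q (ac δ p) (ac δ q)

variable {Γ : Subgroup SL(2, ℝ)} (A : Ax Γ)

namespace Ax

lemma hpq : dt A.p A.q ≠ 0 := A.lk.ne'

lemma μ0 : A.μ ≠ 0 := by
  intro h
  have := A.hμ
  rw [h, abs_zero] at this
  linarith

/-- The position of the direction `u` is more than `n`. -/
def Pos (n : ℤ) (u : ℝ × ℝ) : Prop := |A.μ| ^ (2 * n) * |dt u A.p| < |dt u A.q|

lemma mu_pos : 0 < |A.μ| := abs_pos.mpr A.μ0

lemma pos_smul {n : ℤ} {c : ℝ} (hc : c ≠ 0) (u : ℝ × ℝ) : A.Pos n (c • u) ↔ A.Pos n u := by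
  unfold Pos
  rw [dt_smul_left, dt_smul_left, abs_mul, abs_mul]
  have : 0 < |c| := abs_pos.mpr hc
  have h : |A.μ| ^ (2 * n) * (|c| * |dt u A.p|) = |c| * (|A.μ| ^ (2 * n) * |dt u A.p|) := by ring
  rw [h]
  exact mul_lt_mul_iff_right₀ this

lemma pos_par {n : ℤ} {u v : ℝ × ℝ} (hu : u ≠ 0) (hv : v ≠ 0) (h : dt u v = 0) :
    A.Pos n u ↔ A.Pos n v := by
  obtain ⟨c, hc, rfl⟩ := exists_smul_of_dt' hu hv h
  exact (A.pos_smul hc u).symm

lemma pos_mono {m n : ℤ} (hmn : m ≤ n) {u : ℝ × ℝ} (h : A.Pos n u) : A.Pos m u := by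
  unfold Pos at h ⊢
  refine lt_of_le_of_lt ?_ h
  refine mul_le_mul_of_nonneg_right ?_ (abs_nonneg _)
  exact zpow_le_zpow_right₀ A.hμ.le (by omega)

lemma dt_γ_p (u : ℝ × ℝ) : dt (ac A.γ u) A.p = A.μ⁻¹ * dt u A.p := by
  have h := dt_ac A.γ u A.p
  rw [A.hp, dt_smul_right] at h
  rw [← h, ← mul_assoc, inv_mul_cancel₀ A.μ0, one_mul]

lemma dt_γ_q (u : ℝ × ℝ) : dt (ac A.γ u) A.q = A.μ * dt u A.q := by
  have h := dt_ac A.γ u A.q
  rw [A.hq, dt_smul_right] at h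
  rw [← h, ← mul_assoc, mul_inv_cancel₀ A.μ0, one_mul]

lemma pos_γ {n : ℤ} (u : ℝ × ℝ) : A.Pos n (ac A.γ u) ↔ A.Pos (n - 1) u := by
  unfold Pos
  rw [A.dt_γ_p, A.dt_γ_q, abs_mul, abs_mul, abs_inv]
  have hm := A.mu_pos
  have h : |A.μ| ^ (2 * n) * (|A.μ|⁻¹ * |dt u A.p|) =
      |A.μ| * (|A.μ| ^ (2 * (n - 1)) * |dt u A.p|) := by
    have : |A.μ| ^ (2 * n) = |A.μ| ^ (2 * (n - 1)) * (|A.μ| * |A.μ|) := by
      rw [← pow_two, ← zpow_natCast, ← zpow_add₀ hm.ne']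
      congr 1
      push_cast
      ring
    rw [this]
    field_simp
  rw [h]
  exact mul_lt_mul_iff_right₀ hm

lemma pos_zpow {n : ℤ} (m : ℤ) (u : ℝ × ℝ) :
    A.Pos n (ac ((A.γ ^ m : Γ) : SL(2, ℝ)) u) ↔ A.Pos (n - m) u := by
  induction m using Int.induction_on generalizing n with
  | zero => simp [ac_one]
  | succ m ih =>
    rw [add_comm, zpow_add, zpow_one, Subgroup.coe_mul, ac_mul, pos_γ, ih]
    rw [show n - 1 - (m : ℤ) = n - (1 + m) by ring]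
  | pred m ih =>
    rw [show A.Pos (n - (-(m : ℤ) - 1)) u ↔ A.Pos ((n + 1) - (-(m : ℤ))) u by
      rw [show n - (-(m : ℤ) - 1) = (n + 1) - (-(m : ℤ)) by ring], ← ih]
    have h1 : ac ((A.γ ^ (-(m : ℤ)) : Γ) : SL(2, ℝ)) u =
        ac A.γ (ac ((A.γ ^ (-(m : ℤ) - 1) : Γ) : SL(2, ℝ)) u) := by
      rw [← ac_mul, ← Subgroup.coe_mul]
      congr 2
      rw [← zpow_one_add]
      congr 1
      ring
    rw [h1, pos_γ, add_sub_cancel_right]

lemma exists_pos {u : ℝ × ℝ} (h : dt u A.q ≠ 0) : ∃ n, A.Pos n u := by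
  have h1 : Tendsto (fun n : ℕ => |A.μ| ^ n * |dt u A.q|) atTop atTop :=
    (tendsto_pow_atTop_atTop_of_one_lt A.hμ).atTop_mul_const (abs_pos.mpr h)
  obtain ⟨n, hn⟩ := (h1.eventually_gt_atTop (|dt u A.p|)).exists
  refine ⟨-n, ?_⟩
  unfold Pos
  have h2 : |A.μ| ^ n ≤ |A.μ| ^ (2 * n) := pow_le_pow_right₀ A.hμ.le (by omega)
  have h3 : |A.μ| ^ (2 * (-(n : ℤ))) = (|A.μ| ^ (2 * n))⁻¹ := by
    rw [show 2 * (-(n : ℤ)) = -((2 * n : ℕ) : ℤ) by push_cast; ring, zpow_neg, zpow_natCast]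
  have hm := A.mu_pos
  rw [h3, inv_mul_lt_iff₀ (by positivity)]
  refine lt_of_lt_of_le hn ?_
  exact mul_le_mul_of_nonneg_right h2 (abs_nonneg _)

lemma exists_not_pos {u : ℝ × ℝ} (h : dt u A.p ≠ 0) : ∃ n, ¬ A.Pos n u := by
  have h1 : Tendsto (fun n : ℕ => |A.μ| ^ n * |dt u A.p|) atTop atTop :=
    (tendsto_pow_atTop_atTop_of_one_lt A.hμ).atTop_mul_const (abs_pos.mpr h)
  obtain ⟨n, hn⟩ := (h1.eventually_gt_atTop (|dt u A.q|)).exists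
  refine ⟨n, ?_⟩
  unfold Pos
  have h2 : |A.μ| ^ n ≤ |A.μ| ^ (2 * n) := pow_le_pow_right₀ A.hμ.le (by omega)
  have h3 : |A.μ| ^ (2 * (n : ℤ)) = |A.μ| ^ (2 * n) := by
    rw [show 2 * (n : ℤ) = ((2 * n : ℕ) : ℤ) by push_cast; ring, zpow_natCast]
  rw [h3, not_lt]
  refine hn.le.trans ?_
  exact mul_le_mul_of_nonneg_right h2 (abs_nonneg _)

/-- Directions close to the two ends of the axis are linked with the `δ`-images of such. -/
theorem exists_K : ∃ K : ℕ, ∀ u u' v v' : ℝ × ℝ, u ≠ 0 → u' ≠ 0 → v ≠ 0 → v' ≠ 0 →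
    ¬ A.Pos (-K) u → ¬ A.Pos (-K) u' → A.Pos K v → A.Pos K v' →
    Lk u v (ac A.δ u') (ac A.δ v') := by
  let F : ℝ × ℝ × ℝ × ℝ → ℝ := fun s => lkp (A.q + s.1 • A.p) (A.p + s.2.1 • A.q)
    (ac A.δ (A.q + s.2.2.1 • A.p)) (ac A.δ (A.p + s.2.2.2 • A.q))
  have hF : Continuous F := by
    simp only [F]
    unfold lkp dt ac
    fun_prop
  have hF0 : F 0 < 0 := by
    have h := A.lk
    unfold Lk at h
    simp only [F, Prod.fst_zero, Prod.snd_zero, zero_smul, add_zero]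
    rw [lkp_swap_left, lkp_swap_right]
    exact h
  obtain ⟨ε, hε, hball⟩ := Metric.isOpen_iff.mp (isOpen_Iio.preimage hF) 0 hF0
  have h1 : Tendsto (fun n : ℕ => (|A.μ|⁻¹) ^ n) atTop (𝓝 0) :=
    tendsto_pow_atTop_nhds_zero_of_lt_one (by positivity) (inv_lt_one_of_one_lt₀ A.hμ)
  obtain ⟨K, hK⟩ := (h1.eventually_lt_const hε).exists
  have hm := A.mu_pos
  have hKε : (|A.μ| ^ (2 * K))⁻¹ < ε := by
    refine lt_of_le_of_lt ?_ hK
    rw [inv_pow]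
    exact inv_anti₀ (by positivity) (pow_le_pow_right₀ A.hμ.le (by omega))
  have hKneg : |A.μ| ^ (2 * (-(K : ℤ))) = (|A.μ| ^ (2 * K))⁻¹ := by
    rw [show 2 * (-(K : ℤ)) = -((2 * K : ℕ) : ℤ) by push_cast; ring, zpow_neg, zpow_natCast]
  have hKpos : |A.μ| ^ (2 * (K : ℤ)) = |A.μ| ^ (2 * K) := by
    rw [show 2 * (K : ℤ) = ((2 * K : ℕ) : ℤ) by push_cast; ring, zpow_natCast]
  have hlow : ∀ u : ℝ × ℝ, u ≠ 0 → ¬ A.Pos (-K) u →
      ∃ σ : ℝ, |σ| < ε ∧ dt (A.q + σ • A.p) u = 0 := by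
    intro u hu h
    unfold Pos at h
    rw [not_lt, hKneg] at h
    have hne : dt u A.p ≠ 0 := by
      intro h0
      rw [h0, abs_zero, mul_zero] at h
      have h2 : dt u A.q = 0 := abs_eq_zero.mp (le_antisymm h (abs_nonneg _))
      apply hu
      rw [expand A.hpq u, h2, dt_comm A.p u, h0]
      simp
    refine ⟨-(dt u A.q / dt u A.p), ?_, ?_⟩
    · rw [abs_neg, abs_div, div_lt_iff₀ (abs_pos.mpr hne)]
      refine lt_of_le_of_lt h ?_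
      exact mul_lt_mul_of_pos_right hKε (abs_pos.mpr hne)
    · rw [dt_add_left, dt_smul_left, dt_comm A.q u, dt_comm A.p u]
      field_simp
      ring
  have hhigh : ∀ v : ℝ × ℝ, v ≠ 0 → A.Pos K v →
      ∃ σ : ℝ, |σ| < ε ∧ dt (A.p + σ • A.q) v = 0 := by
    intro v hv h
    unfold Pos at h
    rw [hKpos] at h
    have hne : dt v A.q ≠ 0 := by
      intro h0
      rw [h0, abs_zero] at h
      exact absurd h (not_lt.mpr (by positivity))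
    refine ⟨-(dt v A.p / dt v A.q), ?_, ?_⟩
    · rw [abs_neg, abs_div, div_lt_iff₀ (abs_pos.mpr hne)]
      have h2 : |dt v A.p| < (|A.μ| ^ (2 * K))⁻¹ * |dt v A.q| := by
        rw [lt_inv_mul_iff₀ (by positivity)]
        exact h
      refine h2.trans ?_
      exact mul_lt_mul_of_pos_right hKε (abs_pos.mpr hne)
    · rw [dt_add_left, dt_smul_left, dt_comm A.q v, dt_comm A.p v]
      field_simp
      ring
  refine ⟨K, fun u u' v v' hu hu' hv hv' h1 h2 h3 h4 => ?_⟩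
  obtain ⟨s1, hs1, e1⟩ := hlow u hu h1
  obtain ⟨s2, hs2, e2⟩ := hlow u' hu' h2
  obtain ⟨s3, hs3, e3⟩ := hhigh v hv h3
  obtain ⟨s4, hs4, e4⟩ := hhigh v' hv' h4
  have hmem : ((s1, s3, s2, s4) : ℝ × ℝ × ℝ × ℝ) ∈ Metric.ball (0 : ℝ × ℝ × ℝ × ℝ) ε := by
    rw [mem_ball_zero_iff, Prod.norm_def, Prod.norm_def, Prod.norm_def]
    simp only [Real.norm_eq_abs]
    exact max_lt hs1 (max_lt hs3 (max_lt hs2 hs4))
  have hF1 : F (s1, s3, s2, s4) < 0 := hball hmem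
  exact Lk_of_par hu hv (ac_ne_zero hu') (ac_ne_zero hv') e1 e3 (by rw [dt_ac]; exact e2)
    (by rw [dt_ac]; exact e4) hF1

end Ax

end Pool.Agent.Helper2.Fuch
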