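import Mathlib
import Pool.Agent.Helper2.Fuch.Hyp

/-!
# Existence of elements with self-linked axes
-/

set_option autoImplicit false

open Topology Set Filter
open scoped MatrixGroups

namespace Pool.Agent.Helper2.Fuch

lemma mul_ent (g h : SL(2, ℝ)) (i j : Fin 2) :
    (g * h) i j = g i 0 * h 0 j + g i 1 * h 1 j := by
  rw [Matrix.SpecialLinearGroup.coe_mul, Matrix.mul_apply, Fin.sum_univ_two]

lemma inv_ent (g : SL(2, ℝ)) :
    g⁻¹ 0 0 = g 1 1 ∧ g⁻¹ 0 1 = -g 0 1 ∧ g⁻¹ 1 0 = -g 1 0 ∧ g⁻¹ 1 1 = g 0 0 := by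
  rw [Matrix.SpecialLinearGroup.SL2_inv_expl]
  exact ⟨rfl, rfl, rfl, rfl⟩

/-- The diagonal matrix. -/
noncomputable def dg (a : ℝ) (ha : a ≠ 0) : SL(2, ℝ) :=
  ⟨!![a, 0; 0, a⁻¹], by rw [Matrix.det_fin_two_of]; field_simp; ring⟩

lemma dg_ent (a : ℝ) (ha : a ≠ 0) :
    dg a ha 0 0 = a ∧ dg a ha 0 1 = 0 ∧ dg a ha 1 0 = 0 ∧ dg a ha 1 1 = a⁻¹ :=
  ⟨rfl, rfl, rfl, rfl⟩

lemma sl_ext {g h : SL(2, ℝ)} (h00 : g 0 0 = h 0 0) (h01 : g 0 1 = h 0 1) (h10 : g 1 0 = h 1 0)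
    (h11 : g 1 1 = h 1 1) : g = h := by
  ext i j
  fin_cases i <;> fin_cases j
  · exact h00
  · exact h01
  · exact h10
  · exact h11

lemma ac_dg (a : ℝ) (ha : a ≠ 0) (u : ℝ × ℝ) : ac (dg a ha) u = (a * u.1, a⁻¹ * u.2) := by
  simp [ac, dg]

lemma lk_of_entries {M : SL(2, ℝ)} {u v : ℝ × ℝ} (hu : IsAtt M u) (hv : IsAtt M⁻¹ v) {a : ℝ}
    (ha : a ≠ 0) (ha1 : a - a⁻¹ ≠ 0) (h1 : M 0 1 * M 1 0 < 0)
    (h2 : (a + a⁻¹) ^ 2 * (-(M 0 1 * M 1 0)) < (M 0 0 - M 1 1) ^ 2) :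
    Lk u v (ac (dg a ha) u) (ac (dg a ha) v) := by
  obtain ⟨hne, μ, hμ, hgu, hgv⟩ := hu.pair hv
  have hμ0 : μ ≠ 0 := by rintro rfl; simp at hμ; linarith
  set A := (M : Matrix (Fin 2) (Fin 2) ℝ) 0 0 with hA
  set B := (M : Matrix (Fin 2) (Fin 2) ℝ) 0 1 with hB
  set C := (M : Matrix (Fin 2) (Fin 2) ℝ) 1 0 with hC
  set D := (M : Matrix (Fin 2) (Fin 2) ℝ) 1 1 with hD
  have e1 : A * u.1 + B * u.2 = μ * u.1 := congrArg Prod.fst hgu
  have e2 : C * u.1 + D * u.2 = μ * u.2 := congrArg Prod.snd hgu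
  have e3 : A * v.1 + B * v.2 = μ⁻¹ * v.1 := congrArg Prod.fst hgv
  have e4 : C * v.1 + D * v.2 = μ⁻¹ * v.2 := congrArg Prod.snd hgv
  have hΔ : u.1 * v.2 - u.2 * v.1 ≠ 0 := hne
  set Δ := u.1 * v.2 - u.2 * v.1 with hΔdef
  set X := u.1 * v.2 with hX
  set Y := v.1 * u.2 with hY
  set κ := (μ - μ⁻¹) ^ 2 with hκ
  have f1 : A * Δ = μ * X - μ⁻¹ * Y := by
    rw [hΔdef, hX, hY]
    linear_combination v.2 * e1 - u.2 * e3
  have f2 : D * Δ = -(μ * Y) + μ⁻¹ * X := by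
    rw [hΔdef, hX, hY]
    linear_combination u.1 * e4 - v.1 * e2
  have f3 : B * Δ = -((μ - μ⁻¹) * (u.1 * v.1)) := by
    rw [hΔdef]
    linear_combination u.1 * e3 - v.1 * e1
  have f4 : C * Δ = (μ - μ⁻¹) * (u.2 * v.2) := by
    rw [hΔdef]
    linear_combination v.2 * e2 - u.2 * e4
  have f5 : B * C * Δ ^ 2 = -(κ * (X * Y)) := by
    have : B * C * Δ ^ 2 = (B * Δ) * (C * Δ) := by ring
    rw [this, f3, f4, hκ, hX, hY]
    ring
  have f6 : (A - D) ^ 2 * Δ ^ 2 = κ * (X + Y) ^ 2 := by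
    have : (A - D) ^ 2 * Δ ^ 2 = (A * Δ - D * Δ) ^ 2 := by ring
    rw [this, f1, f2, hκ]
    ring
  have hΔ2 : 0 < Δ ^ 2 := by positivity
  have hκpos : 0 < κ := by
    have h3 : μ - μ⁻¹ ≠ 0 := by
      intro h3
      have h4 : μ * μ = 1 := by
        have : μ = μ⁻¹ := by linarith
        calc μ * μ = μ * μ⁻¹ := by rw [← this]
          _ = 1 := mul_inv_cancel₀ hμ0
      have h5 : |μ| * |μ| = 1 := by rw [← abs_mul, h4, abs_one]
      nlinarith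
    rw [hκ]
    positivity
  have g1 : 0 < X * Y := by
    have h3 : B * C * Δ ^ 2 < 0 := mul_neg_of_neg_of_pos h1 hΔ2
    rw [f5] at h3
    have h4 : 0 < κ * (X * Y) := by linarith
    exact (pos_iff_pos_of_mul_pos h4).mp hκpos
  have g2 : (a + a⁻¹) ^ 2 * (X * Y) < (X + Y) ^ 2 := by
    have h3 : (a + a⁻¹) ^ 2 * (-(B * C)) * Δ ^ 2 < (A - D) ^ 2 * Δ ^ 2 :=
      mul_lt_mul_of_pos_right h2 hΔ2
    have h4 : (a + a⁻¹) ^ 2 * (-(B * C)) * Δ ^ 2 = κ * ((a + a⁻¹) ^ 2 * (X * Y)) := by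
      linear_combination -((a + a⁻¹) ^ 2) * f5
    rw [h4, f6] at h3
    exact lt_of_mul_lt_mul_left h3 hκpos.le
  have haa : a * a⁻¹ = 1 := mul_inv_cancel₀ ha
  unfold Lk
  have h5 : lkp u v (ac (dg a ha) u) (ac (dg a ha) v) =
      (a - a⁻¹) ^ 2 * (X * Y) * ((a + a⁻¹) ^ 2 * (X * Y) - (X + Y) ^ 2) := by
    simp only [lkp, ac_dg, dt]
    rw [hX, hY]
    linear_combination (-(a - a⁻¹) ^ 2 * (u.1 * v.2 * (v.1 * u.2)) *
      (u.1 * v.2 + v.1 * u.2) ^ 2) * haa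
  rw [h5]
  have h6 : 0 < (a - a⁻¹) ^ 2 := by positivity
  exact mul_neg_of_pos_of_neg (mul_pos h6 g1) (by linarith)

lemma dg_mul_entries (a : ℝ) (ha : a ≠ 0) (M : SL(2, ℝ)) :
    (dg a ha * M) 0 0 = a * M 0 0 ∧ (dg a ha * M) 0 1 = a * M 0 1 ∧
    (dg a ha * M) 1 0 = a⁻¹ * M 1 0 ∧ (dg a ha * M) 1 1 = a⁻¹ * M 1 1 := by
  obtain ⟨e1, e2, e3, e4⟩ := dg_ent a ha
  simp only [mul_ent, e1, e2, e3, e4, zero_mul, add_zero, zero_add, and_self]

lemma dg_mul (a b : ℝ) (ha : a ≠ 0) (hb : b ≠ 0) :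
    dg a ha * dg b hb = dg (a * b) (mul_ne_zero ha hb) := by
  obtain ⟨e1, e2, e3, e4⟩ := dg_ent a ha
  obtain ⟨f1, f2, f3, f4⟩ := dg_ent b hb
  obtain ⟨g1, g2, g3, g4⟩ := dg_ent (a * b) (mul_ne_zero ha hb)
  apply sl_ext <;> simp only [mul_ent, e1, e2, e3, e4, f1, f2, f3, f4, g1, g2, g3, g4, mul_inv] <;>
    ring

lemma dg_congr {a b : ℝ} (ha : a ≠ 0) (hb : b ≠ 0) (h : a = b) : dg a ha = dg b hb := by
  subst h
  rfl

lemma dg_one (h : (1 : ℝ) ≠ 0) : dg 1 h = 1 := by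
  obtain ⟨f1, f2, f3, f4⟩ := dg_ent 1 h
  apply sl_ext
  · rw [f1]; simp
  · rw [f2]; simp
  · rw [f3]; simp
  · rw [f4]; simp

lemma dg_inv (a : ℝ) (ha : a ≠ 0) : (dg a ha)⁻¹ = dg a⁻¹ (inv_ne_zero ha) := by
  rw [inv_eq_iff_mul_eq_one, dg_mul, ← dg_one one_ne_zero]
  exact dg_congr _ _ (mul_inv_cancel₀ ha)

lemma dg_zpow (a : ℝ) (ha : a ≠ 0) (n : ℤ) : (dg a ha) ^ n = dg (a ^ n) (zpow_ne_zero n ha) := by
  induction n using Int.induction_on with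
  | zero =>
    rw [zpow_zero, ← dg_one one_ne_zero]
    exact dg_congr _ _ (zpow_zero a).symm
  | succ n ih =>
    rw [zpow_add_one, ih, dg_mul]
    exact dg_congr _ _ (zpow_add_one₀ ha _).symm
  | pred n ih =>
    rw [zpow_sub_one, ih, dg_inv, dg_mul]
    exact dg_congr _ _ (zpow_sub_one₀ ha _).symm

/-- Choice of a power. -/
lemma exists_power {a p s : ℝ} (ha : 1 < |a|) (hps : p ≠ 0 ∨ s ≠ 0) (T : ℝ) :
    ∃ n : ℤ, T < (a ^ n * p - (a ^ n)⁻¹ * s) ^ 2 := by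
  have ha0 : a ≠ 0 := by rintro rfl; simp at ha; linarith
  have key : ∀ x y : ℝ, x ≠ 0 → ∃ n : ℕ, T < (a ^ n * x - (a ^ n)⁻¹ * y) ^ 2 := by
    intro x y hx
    have h1 : Tendsto (fun n : ℕ => |a| ^ n * |x|) atTop atTop :=
      (tendsto_pow_atTop_atTop_of_one_lt ha).atTop_mul_const (abs_pos.mpr hx)
    obtain ⟨n, hn⟩ := (h1.eventually_gt_atTop (|T| + 1 + |y|)).exists
    refine ⟨n, ?_⟩
    have h2 : |(a ^ n)⁻¹ * y| ≤ |y| := by
      rw [abs_mul, abs_inv, abs_pow]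
      have : (|a| ^ n)⁻¹ ≤ 1 := inv_le_one_of_one_le₀ (one_le_pow₀ ha.le)
      exact mul_le_of_le_one_left (abs_nonneg y) this
    have h3 : |T| + 1 < |a ^ n * x - (a ^ n)⁻¹ * y| := by
      have h4 := abs_sub_abs_le_abs_sub (a ^ n * x) ((a ^ n)⁻¹ * y)
      rw [abs_mul, abs_pow] at h4
      linarith
    rw [← sq_abs (a ^ n * x - (a ^ n)⁻¹ * y)]
    have h5 := le_abs_self T
    have h6 := abs_nonneg T
    nlinarith
  rcases hps with h | h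
  · obtain ⟨n, hn⟩ := key p s h
    exact ⟨n, by rw [zpow_natCast]; exact hn⟩
  · obtain ⟨n, hn⟩ := key s p h
    refine ⟨-n, ?_⟩
    rw [zpow_neg, zpow_natCast, inv_inv]
    have : ((a ^ n)⁻¹ * p - a ^ n * s) ^ 2 = (a ^ n * s - (a ^ n)⁻¹ * p) ^ 2 := by ring
    rw [this]
    exact hn

/-- In a nonabelian purely hyperbolic group there is an element with self-linked axis. -/
theorem exists_selfLinked {Γ : Subgroup SL(2, ℝ)} (hΓ : Hyp Γ) {α β : SL(2, ℝ)} (hα : α ∈ Γ)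
    (hβ : β ∈ Γ) (hne : α * β ≠ β * α) :
    ∃ γ ∈ Γ, γ ≠ 1 ∧ ∃ δ ∈ Γ, Lk (att γ) (att γ⁻¹) (ac δ (att γ)) (ac δ (att γ⁻¹)) := by
  have hα1 : α ≠ 1 := by rintro rfl; exact hne (by simp)
  have hu := hΓ.att hα hα1
  have hv := hΓ.att (Γ.inv_mem hα) (inv_ne_one.mpr hα1)
  obtain ⟨hD, a, ha, hau, hav⟩ := hu.pair hv
  set u := att α with hudef
  set v := att α⁻¹ with hvdef
  have ha0 : a ≠ 0 := by rintro rfl; simp at ha; linarith
  have haa : a - a⁻¹ ≠ 0 := by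
    intro h3
    have h4 : a * a = 1 := by
      have : a = a⁻¹ := by linarith
      calc a * a = a * a⁻¹ := by rw [← this]
        _ = 1 := mul_inv_cancel₀ ha0
    have h5 : |a| * |a| = 1 := by rw [← abs_mul, h4, abs_one]
    nlinarith
  -- the change of basis
  let P : SL(2, ℝ) := ⟨!![u.1, v.1 / dt u v; u.2, v.2 / dt u v], by
    rw [Matrix.det_fin_two_of]
    have : u.1 * (v.2 / dt u v) - v.1 / dt u v * u.2 = dt u v / dt u v := by
      simp only [dt]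
      ring
    rw [this, div_self hD]⟩
  have hP1 : ac P (1, 0) = u := by simp [ac, P]
  have hP2 : ac P (0, 1) = (dt u v)⁻¹ • v := by
    simp only [ac, P]
    ext <;> simp [div_eq_inv_mul]
  have hconj : P⁻¹ * α * P = dg a ha0 := by
    have h1 : ac (P⁻¹ * α * P) (1, 0) = a • ((1, 0) : ℝ × ℝ) := by
      rw [ac_mul, ac_mul, hP1, hau, ac_smul, ← hP1, ac_inv_ac]
    have h2 : ac (P⁻¹ * α * P) (0, 1) = a⁻¹ • ((0, 1) : ℝ × ℝ) := by
      rw [ac_mul, ac_mul, hP2, ac_smul, hav, smul_comm, ← hP2, ac_smul, ac_inv_ac]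
    have e1 := congrArg Prod.fst h1
    have e2 := congrArg Prod.snd h1
    have e3 := congrArg Prod.fst h2
    have e4 := congrArg Prod.snd h2
    simp only [ac, mul_one, mul_zero, add_zero, zero_add, Prod.smul_mk, smul_eq_mul] at e1 e2 e3 e4
    ext i j
    fin_cases i <;> fin_cases j
    · exact e1
    · exact e3
    · exact e2
    · exact e4
  -- reduction to a matrix with negative off-diagonal product
  have key : ∀ b ∈ Γ, (P⁻¹ * b * P) 0 1 * (P⁻¹ * b * P) 1 0 < 0 →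
      ∃ γ ∈ Γ, γ ≠ 1 ∧ ∃ δ ∈ Γ, Lk (att γ) (att γ⁻¹) (ac δ (att γ)) (ac δ (att γ⁻¹)) := by
    intro b hb hneg
    set B := P⁻¹ * b * P with hB
    have hb1 : b ≠ 1 := by
      rintro rfl
      rw [hB, mul_one, inv_mul_cancel] at hneg
      simp at hneg
    have hps : B 0 0 ≠ 0 ∨ B 1 1 ≠ 0 := by
      by_contra h
      push Not at h
      have h1 := hΓ b hb hb1
      have h2 : (b : Matrix (Fin 2) (Fin 2) ℝ).trace = (B : Matrix (Fin 2) (Fin 2) ℝ).trace := by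
        rw [hB, Matrix.SpecialLinearGroup.coe_mul, Matrix.trace_mul_comm,
          ← Matrix.SpecialLinearGroup.coe_mul, mul_inv_cancel_left]
      rw [h2, Matrix.trace_fin_two, h.1, h.2] at h1
      norm_num at h1
    obtain ⟨n, hn⟩ := exists_power ha hps
      ((a + a⁻¹) ^ 2 * (-(B 0 1 * B 1 0)))
    have han : a ^ n ≠ 0 := zpow_ne_zero n ha0
    set γ := α ^ n * b with hγ
    have hγΓ : γ ∈ Γ := Γ.mul_mem (Γ.zpow_mem hα n) hb
    have hPγ : P⁻¹ * γ * P = dg (a ^ n) han * B := by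
      rw [← dg_zpow a ha0 n, ← hconj, hB, hγ]
      have : (P⁻¹ * α * P) ^ n = P⁻¹ * α ^ n * P := by
        have h1 := conj_zpow (a := P⁻¹) (b := α) (i := n)
        rwa [inv_inv] at h1
      rw [this]
      group
    obtain ⟨m1, m2, m3, m4⟩ := dg_mul_entries (a ^ n) han B
    rw [← hPγ] at m1 m2 m3 m4
    have hγ1 : γ ≠ 1 := by
      intro h
      rw [h, mul_one, inv_mul_cancel] at m2
      have h1 : a ^ n * B 0 1 = 0 := by rw [← m2]; simp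
      have h2 : B 0 1 = 0 := (mul_eq_zero.mp h1).resolve_left han
      rw [h2, zero_mul] at hneg
      exact lt_irrefl _ hneg
    refine ⟨γ, hγΓ, hγ1, α, hα, ?_⟩
    have hg := (hΓ.att hγΓ hγ1).conj P⁻¹
    have hg' := (hΓ.att (Γ.inv_mem hγΓ) (inv_ne_one.mpr hγ1)).conj P⁻¹
    rw [inv_inv] at hg hg'
    have hinv : P⁻¹ * γ⁻¹ * P = (P⁻¹ * γ * P)⁻¹ := by group
    rw [hinv] at hg'
    have hoff : (P⁻¹ * γ * P) 0 1 * (P⁻¹ * γ * P) 1 0 = B 0 1 * B 1 0 := by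
      rw [m2, m3]
      field_simp
    have h1 := lk_of_entries hg hg' ha0 haa (by rw [hoff]; exact hneg)
      (by rw [hoff, m1, m4]; exact hn)
    rw [← hconj] at h1
    have h2 : ∀ w, ac (P⁻¹ * α * P) (ac P⁻¹ w) = ac P⁻¹ (ac α w) := by
      intro w
      rw [← ac_mul, ← ac_mul]
      congr 1
      group
    rw [h2, h2, Lk_ac] at h1
    exact h1
  -- entries of b
  set B := P⁻¹ * β * P with hB
  have hB01 : B 0 1 ≠ 0 := by
    intro h
    apply hne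
    have h1 : ac B (0, 1) = B 1 1 • ((0, 1) : ℝ × ℝ) := by
      simp only [ac, mul_one, mul_zero, zero_add, Prod.smul_mk, smul_eq_mul]
      rw [h]
    have h2 : ac β v = B 1 1 • v := by
      have h3 : ac P (ac B (0, 1)) = ac β (ac P (0, 1)) := by
        rw [← ac_mul, ← ac_mul, hB]
        congr 1
        group
      rw [h1, ac_smul, hP2, ac_smul, smul_comm] at h3
      exact (smul_right_injective (ℝ × ℝ) (inv_ne_zero hD) h3).symm
    exact hΓ.commute hα hβ (att_ne_zero _) hav h2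
  have hB10 : B 1 0 ≠ 0 := by
    intro h
    apply hne
    have h1 : ac B (1, 0) = B 0 0 • ((1, 0) : ℝ × ℝ) := by
      simp only [ac, mul_one, mul_zero, add_zero, Prod.smul_mk, smul_eq_mul]
      rw [h]
    have h2 : ac β u = B 0 0 • u := by
      have h3 : ac P (ac B (1, 0)) = ac β (ac P (1, 0)) := by
        rw [← ac_mul, ← ac_mul, hB]
        congr 1
        group
      rw [h1, ac_smul, hP1] at h3
      exact h3.symm
    exact hΓ.commute hα hβ (att_ne_zero _) hau h2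
  rcases lt_or_gt_of_ne (mul_ne_zero hB01 hB10) with h | h
  · exact key β hβ h
  · apply key (β * α * β⁻¹) (Γ.mul_mem (Γ.mul_mem hβ hα) (Γ.inv_mem hβ))
    have h1 : P⁻¹ * (β * α * β⁻¹) * P = B * dg a ha0 * B⁻¹ := by
      rw [← hconj, hB]
      group
    rw [h1]
    have hdet := det_eq B
    obtain ⟨d1, d2, d3, d4⟩ := dg_ent a ha0
    obtain ⟨i1, i2, i3, i4⟩ := inv_ent B
    have e1 : (B * dg a ha0 * B⁻¹) 0 1 = B 0 0 * B 0 1 * (a⁻¹ - a) := by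
      simp only [mul_ent, d1, d2, d3, d4, i2, i4]
      ring
    have e2 : (B * dg a ha0 * B⁻¹) 1 0 = B 1 0 * B 1 1 * (a - a⁻¹) := by
      simp only [mul_ent, d1, d2, d3, d4, i1, i3]
      ring
    rw [e1, e2]
    have h3 : 0 < B 0 0 * B 1 1 := by
      have : B 0 0 * B 1 1 = 1 + B 0 1 * B 1 0 := by linarith
      rw [this]
      linarith
    have h4 : 0 < (a - a⁻¹) ^ 2 := by positivity
    have h5 : B 0 0 * B 0 1 * (a⁻¹ - a) * (B 1 0 * B 1 1 * (a - a⁻¹)) =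
        -((B 0 0 * B 1 1) * (B 0 1 * B 1 0) * (a - a⁻¹) ^ 2) := by ring
    rw [h5]
    have := mul_pos (mul_pos h3 h) h4
    linarith

end Pool.Agent.Helper2.Fuch
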