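import Mathlib
import Pool.Agent.Helper2.Fuch.Pos
import Pool.Agent.Helper2.Fuch.Disc
import Pool.Agent.Helper2.Fuch.SelfLink
import Pool.Agent.Helper2.Planar.Induce

/-!
# The length function on the group of order preserving automorphisms
-/

set_option autoImplicit false

open Topology Set Filter
open scoped MatrixGroups

namespace Pool.Agent.Helper2.Fuch

open Pool.Agent.Helper2.Planar

section OP

variable (Γ : Subgroup SL(2, ℝ))

/-- The automorphisms which preserve linking of attracting directions. -/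
structure OP (θ : MulAut Γ) : Prop where
  par : ∀ x y : Γ, x ≠ 1 → y ≠ 1 → (dt (att x) (att y) = 0 ↔ dt (att (θ x)) (att (θ y)) = 0)
  lk : ∀ x y x' y' : Γ, x ≠ 1 → y ≠ 1 → x' ≠ 1 → y' ≠ 1 →
    (Lk (att x) (att y) (att x') (att y') ↔
      Lk (att (θ x)) (att (θ y)) (att (θ x')) (att (θ y')))

/-- The group of these automorphisms. -/
def opg : Subgroup (MulAut Γ) where
  carrier := {θ | OP Γ θ}
  one_mem' := ⟨fun _ _ _ _ => Iff.rfl, fun _ _ _ _ _ _ _ _ => Iff.rfl⟩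
  mul_mem' := by
    intro θ η hθ hη
    have hne : ∀ x : Γ, x ≠ 1 → η x ≠ 1 := fun x hx h => hx (by
      rw [← map_one η] at h
      exact η.injective h)
    refine ⟨fun x y hx hy => ?_, fun x y x' y' hx hy hx' hy' => ?_⟩
    · rw [hη.par x y hx hy, hθ.par _ _ (hne x hx) (hne y hy)]
      rfl
    · rw [hη.lk x y x' y' hx hy hx' hy', hθ.lk _ _ _ _ (hne x hx) (hne y hy) (hne x' hx')
        (hne y' hy')]
      rfl
  inv_mem' := by
    intro θ hθ
    have hne : ∀ x : Γ, x ≠ 1 → θ⁻¹ x ≠ 1 := fun x hx h => hx (by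
      rw [← map_one θ⁻¹] at h
      exact θ⁻¹.injective h)
    have hap : ∀ x : Γ, θ (θ⁻¹ x) = x := fun x => by
      rw [← MulAut.mul_apply, mul_inv_cancel, MulAut.one_apply]
    refine ⟨fun x y hx hy => ?_, fun x y x' y' hx hy hx' hy' => ?_⟩
    · rw [hθ.par _ _ (hne x hx) (hne y hy), hap, hap]
    · rw [hθ.lk _ _ _ _ (hne x hx) (hne y hy) (hne x' hx') (hne y' hy'), hap, hap, hap, hap]

variable {Γ}

lemma mem_opg {θ : MulAut Γ} : θ ∈ opg Γ ↔ OP Γ θ := Iff.rfl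

lemma map_ne_one (θ : MulAut Γ) {x : Γ} (hx : x ≠ 1) : θ x ≠ 1 := fun h => hx (by
  rw [← map_one θ] at h
  exact θ.injective h)

lemma conj_ne_one {x : Γ} (g : Γ) (hx : x ≠ 1) : g * x * g⁻¹ ≠ 1 := by
  intro h
  rw [mul_inv_eq_one] at h
  exact hx (mul_eq_left.mp h)

lemma Hyp.att' (hΓ : Hyp Γ) {x : Γ} (hx : x ≠ 1) : IsAtt x (Fuch.att x) :=
  hΓ.att x.2 (fun h => hx (Subtype.ext h))

lemma Hyp.conj_par (hΓ : Hyp Γ) (g : Γ) {x : Γ} (hx : x ≠ 1) :
    dt (Fuch.att ((g * x * g⁻¹ : Γ) : SL(2, ℝ))) (ac g (Fuch.att x)) = 0 := by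
  have h1 := hΓ.att' (conj_ne_one g hx)
  have h2 := (hΓ.att' hx).conj (g : SL(2, ℝ))
  rw [Subgroup.coe_mul, Subgroup.coe_mul, Subgroup.coe_inv] at h1 ⊢
  exact h1.par h2

lemma Hyp.lk_conj (hΓ : Hyp Γ) (g g' : Γ) {x y : Γ} (hx : x ≠ 1) (hy : y ≠ 1) {u v : ℝ × ℝ} :
    Lk u v (Fuch.att ((g * x * g⁻¹ : Γ) : SL(2, ℝ)))
      (Fuch.att ((g' * y * g'⁻¹ : Γ) : SL(2, ℝ))) ↔
    Lk u v (ac g (Fuch.att x)) (ac g' (Fuch.att y)) := by
  have h1 := hΓ.conj_par g hx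
  have h2 := hΓ.conj_par g' hy
  have h1' := h1
  have h2' := h2
  rw [dt_comm, neg_eq_zero] at h1' h2'
  constructor
  · intro h
    have hne : dt u (Fuch.att ((g * x * g⁻¹ : Γ) : SL(2, ℝ))) ≠ 0 := h.ne.1
    have hne2 : dt v (Fuch.att ((g * x * g⁻¹ : Γ) : SL(2, ℝ))) ≠ 0 := h.ne.2.2.1
    have hu : u ≠ 0 := by rintro rfl; exact hne (by simp [dt])
    have hv : v ≠ 0 := by rintro rfl; exact hne2 (by simp [dt])
    exact Lk_of_par hu hv (ac_ne_zero (att_ne_zero _)) (ac_ne_zero (att_ne_zero _)) (dt_self _)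
      (dt_self _) h1 h2 h
  · intro h
    have hne : dt u (ac g (Fuch.att x)) ≠ 0 := h.ne.1
    have hne2 : dt v (ac g (Fuch.att x)) ≠ 0 := h.ne.2.2.1
    have hu : u ≠ 0 := by rintro rfl; exact hne (by simp [dt])
    have hv : v ≠ 0 := by rintro rfl; exact hne2 (by simp [dt])
    exact Lk_of_par hu hv (att_ne_zero _) (att_ne_zero _) (dt_self _)
      (dt_self _) h1' h2' h

/-- Inner automorphisms preserve linking. -/
lemma Hyp.conj_mem (hΓ : Hyp Γ) (g : Γ) : MulAut.conj g ∈ opg Γ := by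
  have key : ∀ {x : Γ}, x ≠ 1 → ∃ c : ℝ, c ≠ 0 ∧
      ac g (Fuch.att x) = c • Fuch.att ((MulAut.conj g x : Γ) : SL(2, ℝ)) := by
    intro x hx
    rw [MulAut.conj_apply]
    exact exists_smul_of_dt' (att_ne_zero _) (ac_ne_zero (att_ne_zero _)) (hΓ.conj_par g hx)
  refine ⟨fun x y hx hy => ?_, fun x y x' y' hx hy hx' hy' => ?_⟩
  · obtain ⟨c, hc, h1⟩ := key hx
    obtain ⟨d, hd, h2⟩ := key hy
    rw [← dt_ac g, h1, h2, dt_smul_left, dt_smul_right]
    simp [hc, hd]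
  · obtain ⟨a, ha, h1⟩ := key hx
    obtain ⟨b, hb, h2⟩ := key hy
    obtain ⟨c, hc, h3⟩ := key hx'
    obtain ⟨d, hd, h4⟩ := key hy'
    rw [← Lk_ac g, h1, h2, h3, h4, Lk_smul ha hb hc hd]

end OP

section Q

variable {Γ : Subgroup SL(2, ℝ)} (A : Ax Γ)

/-- At least two of the three directions have position more than `n`. -/
def Two (z : Fin 3 → ℝ × ℝ) (n : ℤ) : Prop := ∃ i j, i ≠ j ∧ A.Pos n (z i) ∧ A.Pos n (z j)

/-- Pairwise independent. -/
def Indep (z : Fin 3 → ℝ × ℝ) : Prop := ∀ i j, i ≠ j → dt (z i) (z j) ≠ 0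

lemma Indep.ne_zero {z : Fin 3 → ℝ × ℝ} (hz : Indep z) (i : Fin 3) : z i ≠ 0 := by
  intro h
  have h1 : i ≠ i + 1 := by fin_cases i <;> decide
  apply hz i (i + 1) h1
  rw [h]
  simp [dt]

lemma Two.mono {z : Fin 3 → ℝ × ℝ} {m n : ℤ} (hmn : m ≤ n) (h : Two A z n) : Two A z m := by
  obtain ⟨i, j, hij, h1, h2⟩ := h
  exact ⟨i, j, hij, A.pos_mono hmn h1, A.pos_mono hmn h2⟩

lemma Indep.exists_not_par {z : Fin 3 → ℝ × ℝ} (hz : Indep z) {r : ℝ × ℝ} (hr : r ≠ 0) :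
    ∃ i j, i ≠ j ∧ dt (z i) r ≠ 0 ∧ dt (z j) r ≠ 0 := by
  have key : ∀ i j : Fin 3, i ≠ j → dt (z i) r = 0 → dt (z j) r ≠ 0 := by
    intro i j hij h1 h2
    obtain ⟨c, hc⟩ := exists_smul_of_dt (hz.ne_zero i) h1
    obtain ⟨d, hd⟩ := exists_smul_of_dt (hz.ne_zero j) h2
    have hc0 : c ≠ 0 := by
      rintro rfl
      exact hr (by rw [hc, zero_smul])
    apply hz i j hij
    have h3 : c * dt (z i) (z j) = 0 := by
      rw [← dt_smul_left, ← hc, hd, dt_smul_left, dt_self, mul_zero]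
    exact (mul_eq_zero.mp h3).resolve_left hc0
  by_cases h0 : dt (z 0) r = 0
  · exact ⟨1, 2, by decide, key 0 1 (by decide) h0, key 0 2 (by decide) h0⟩
  · by_cases h1 : dt (z 1) r = 0
    · exact ⟨0, 2, by decide, h0, key 1 2 (by decide) h1⟩
    · exact ⟨0, 1, by decide, h0, h1⟩

lemma not_two_iff {z : Fin 3 → ℝ × ℝ} {n : ℤ} (h : ¬ Two A z n) :
    ∃ i j, i ≠ j ∧ ¬ A.Pos n (z i) ∧ ¬ A.Pos n (z j) := by
  by_cases h0 : A.Pos n (z 0)
  · refine ⟨1, 2, by decide, fun h1 => h ⟨0, 1, by decide, h0, h1⟩,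
      fun h2 => h ⟨0, 2, by decide, h0, h2⟩⟩
  · by_cases h1 : A.Pos n (z 1)
    · exact ⟨0, 2, by decide, h0, fun h2 => h ⟨1, 2, by decide, h1, h2⟩⟩
    · exact ⟨0, 1, by decide, h0, h1⟩

lemma not_two_of {z : Fin 3 → ℝ × ℝ} {n : ℤ} {i j : Fin 3} (hij : i ≠ j) (hi : ¬ A.Pos n (z i))
    (hj : ¬ A.Pos n (z j)) : ¬ Two A z n := by
  rintro ⟨a, b, hab, ha, hb⟩
  have hai : a ≠ i := by rintro rfl; exact hi ha
  have haj : a ≠ j := by rintro rfl; exact hj ha
  have hbi : b ≠ i := by rintro rfl; exact hi hb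
  have hbj : b ≠ j := by rintro rfl; exact hj hb
  omega

lemma p_ne_zero : A.p ≠ 0 := by
  intro h
  apply A.hpq
  rw [h]
  simp [dt]

lemma q_ne_zero : A.q ≠ 0 := by
  intro h
  apply A.hpq
  rw [h]
  simp [dt]

lemma exists_Q {z : Fin 3 → ℝ × ℝ} (hz : Indep z) : ∃ m : ℤ, ∀ n, Two A z n ↔ n ≤ m := by
  obtain ⟨i, j, hij, hi, hj⟩ := hz.exists_not_par (q_ne_zero A)
  obtain ⟨n1, h1⟩ := A.exists_pos hi
  obtain ⟨n2, h2⟩ := A.exists_pos hj
  have hne : Two A z (min n1 n2) := ⟨i, j, hij, A.pos_mono (min_le_left _ _) h1,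
    A.pos_mono (min_le_right _ _) h2⟩
  obtain ⟨i', j', hij', hi', hj'⟩ := hz.exists_not_par (p_ne_zero A)
  obtain ⟨n3, h3⟩ := A.exists_not_pos hi'
  obtain ⟨n4, h4⟩ := A.exists_not_pos hj'
  obtain ⟨m, hm1, hm2⟩ := Int.exists_greatest_of_bdd (P := Two A z) ⟨max n3 n4, fun n hn => by
    by_contra hlt
    rw [not_le] at hlt
    refine not_two_of A hij' (fun h => h3 (A.pos_mono ?_ h)) (fun h => h4 (A.pos_mono ?_ h)) hn
    · exact (le_max_left n3 n4).trans hlt.le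
    · exact (le_max_right n3 n4).trans hlt.le⟩ ⟨_, hne⟩
  exact ⟨m, fun n => ⟨fun h => hm2 n h, fun h => hm1.mono A h⟩⟩

/-- The median position. -/
noncomputable def Q (z : Fin 3 → ℝ × ℝ) : ℤ := by
  classical
  exact if h : ∃ m : ℤ, ∀ n, Two A z n ↔ n ≤ m then h.choose else 0

lemma Q_spec {z : Fin 3 → ℝ × ℝ} (hz : Indep z) (n : ℤ) : Two A z n ↔ n ≤ Q A z := by
  classical
  have h := exists_Q A hz
  unfold Q
  rw [dif_pos h]
  exact h.choose_spec n

lemma Q_eq {z z' : Fin 3 → ℝ × ℝ} (hz : Indep z) (hz' : Indep z') (m : ℤ)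
    (h : ∀ n, Two A z' n ↔ Two A z (n - m)) : Q A z' = Q A z + m := by
  apply le_antisymm
  · have h1 := (Q_spec A hz' (Q A z')).mpr le_rfl
    rw [h, Q_spec A hz] at h1
    omega
  · rw [← Q_spec A hz', h, Q_spec A hz]
    omega

end Q

section Len

variable {Γ : Subgroup SL(2, ℝ)} (A : Ax Γ) (x : Fin 3 → Γ)

/-- The images of the three directions. -/
noncomputable def pts (θ : MulAut Γ) : Fin 3 → ℝ × ℝ := fun i => att (θ (x i))

/-- The median position of the images. -/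
noncomputable def Qh (θ : MulAut Γ) : ℤ := Q A (pts x θ)

/-- The hypotheses on the triple. -/
structure Triple : Prop where
  ne : ∀ i, x i ≠ 1
  ind : Indep (pts x 1)

variable {x} (hx : Triple x)

include hx in
lemma Triple.indep {θ : MulAut Γ} (hθ : θ ∈ opg Γ) : Indep (pts x θ) := by
  intro i j hij h
  exact hx.ind i j hij ((hθ.par (x i) (x j) (hx.ne i) (hx.ne j)).mpr h)

variable (hΓ : Hyp Γ) [DiscreteTopology Γ]

/-- The sets of complete crossings. -/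
def Ncr (a b c d : ℝ × ℝ) : Set Γ :=
  {g : Γ | ∀ y ∈ ({a, b} : Set (ℝ × ℝ)), ∀ z ∈ ({c, d} : Set (ℝ × ℝ)),
      Lk a c (ac g y) (ac g z) ∧ Lk b d (ac g y) (ac g z)}

include hx hΓ in
/-- The fundamental estimate. -/
theorem exists_lip {f : MulAut Γ} (hf : f ∈ opg Γ) :
    ∃ C : ℕ, ∀ g ∈ opg Γ, Qh A x (g * f) ≤ Qh A x g + C := by
  classical
  obtain ⟨K, hK⟩ := A.exists_K
  let N : Fin 3 → Fin 3 → Fin 3 → Fin 3 → Set Γ := fun i j k l =>
    Ncr (pts x 1 i) (pts x 1 j) (pts x f k) (pts x f l)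
  let c : ℕ := ∑ i, ∑ j, ∑ k, ∑ l, (N i j k l).ncard
  have hc : ∀ i j k l, (N i j k l).ncard ≤ c := by
    intro i j k l
    calc (N i j k l).ncard ≤ ∑ l, (N i j k l).ncard :=
          Finset.single_le_sum (f := fun l => (N i j k l).ncard) (fun _ _ => Nat.zero_le _)
            (Finset.mem_univ l)
      _ ≤ ∑ k, ∑ l, (N i j k l).ncard :=
          Finset.single_le_sum (f := fun k => ∑ l, (N i j k l).ncard) (fun _ _ => Nat.zero_le _)
            (Finset.mem_univ k)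
      _ ≤ ∑ j, ∑ k, ∑ l, (N i j k l).ncard :=
          Finset.single_le_sum (f := fun j => ∑ k, ∑ l, (N i j k l).ncard)
            (fun _ _ => Nat.zero_le _) (Finset.mem_univ j)
      _ ≤ c := Finset.single_le_sum (f := fun i => ∑ j, ∑ k, ∑ l, (N i j k l).ncard)
            (fun _ _ => Nat.zero_le _) (Finset.mem_univ i)
  refine ⟨2 * K + c + 1, fun g hg => ?_⟩
  by_contra hlt
  rw [not_le] at hlt
  have hgf : g * f ∈ opg Γ := (opg Γ).mul_mem hg hf
  have hI1 := hx.indep hg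
  have hI2 := hx.indep hgf
  have hI3 := hx.indep hf
  set q := Qh A x g with hq
  set q' := Qh A x (g * f) with hq'
  have hT1 : ¬ Two A (pts x g) (q + 1) := by
    rw [Q_spec A hI1]
    change ¬ (q + 1 ≤ q)
    omega
  have hT2 : Two A (pts x (g * f)) q' := (Q_spec A hI2 q').mpr le_rfl
  obtain ⟨i, j, hij, hi, hj⟩ := not_two_iff A hT1
  obtain ⟨k, l, hkl, hk, hl⟩ := hT2
  have hfne : ∀ k, f (x k) ≠ 1 := fun k => map_ne_one f (hx.ne k)
  -- positions
  have hlow : ∀ a ∈ ({i, j} : Set (Fin 3)), ¬ A.Pos (q + 1) (att (g (x a))) := by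
    rintro a (rfl | rfl)
    · exact hi
    · exact hj
  have hhigh : ∀ b ∈ ({k, l} : Set (Fin 3)), A.Pos q' (att (g (f (x b)))) := by
    rintro b (rfl | rfl)
    · exact hk
    · exact hl
  -- nonparallel
  have hcross : ∀ a ∈ ({i, j} : Set (Fin 3)), ∀ b ∈ ({k, l} : Set (Fin 3)),
      dt (pts x 1 a) (pts x f b) ≠ 0 := by
    intro a ha b hb h
    have h1 := (hg.par (x a) (f (x b)) (hx.ne a) (hfne b)).mp h
    have h2 := hhigh b hb
    rw [← A.pos_par (att_ne_zero _) (att_ne_zero _) h1] at h2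
    exact hlow a ha (A.pos_mono (by push_cast at hlt; omega) h2)
  have hfin : (N i j k l).Finite := by
    refine finite_cross Γ (hx.ind i j hij) (hcross i (by simp) l (by simp)) ?_
      (hI3 k l hkl) (hx.ind i j hij) (hI3 k l hkl)
    rw [dt_comm, neg_ne_zero]
    exact hcross j (by simp) k (by simp)
  -- the elements
  let e : ℤ → Γ := fun n => g⁻¹ (A.γ ^ n * A.δ * (A.γ ^ n)⁻¹)
  have hap : ∀ y : Γ, g (g⁻¹ y) = y := fun y => by
    rw [← MulAut.mul_apply, mul_inv_cancel, MulAut.one_apply]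
  have hinj : Function.Injective e := by
    intro m n hmn
    by_contra hne
    have h1 : A.γ ^ m * A.δ * (A.γ ^ m)⁻¹ = A.γ ^ n * A.δ * (A.γ ^ n)⁻¹ := by
      have := congrArg g hmn
      rwa [hap, hap] at this
    have h2 : A.γ ^ (m - n) * A.δ = A.δ * A.γ ^ (m - n) := by
      rw [zpow_sub]
      have h3 : (A.γ ^ n)⁻¹ * (A.γ ^ m * A.δ * (A.γ ^ m)⁻¹) * A.γ ^ m =
          (A.γ ^ n)⁻¹ * (A.γ ^ n * A.δ * (A.γ ^ n)⁻¹) * A.γ ^ m := by rw [h1]
      have h4 : A.γ ^ m * (A.γ ^ n)⁻¹ = (A.γ ^ n)⁻¹ * A.γ ^ m := by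
        rw [← zpow_neg, ← zpow_add, ← zpow_add, add_comm]
      rw [h4]
      calc (A.γ ^ n)⁻¹ * A.γ ^ m * A.δ =
            (A.γ ^ n)⁻¹ * (A.γ ^ m * A.δ * (A.γ ^ m)⁻¹) * A.γ ^ m := by group
        _ = (A.γ ^ n)⁻¹ * (A.γ ^ n * A.δ * (A.γ ^ n)⁻¹) * A.γ ^ m := h3
        _ = A.δ * ((A.γ ^ n)⁻¹ * A.γ ^ m) := by group
    -- `δ p` is fixed by a power of `γ`
    have hd : m - n ≠ 0 := sub_ne_zero.mpr hne
    have h5 : ∀ r : ℤ, ac ((A.γ ^ r : Γ) : SL(2, ℝ)) A.p = A.μ ^ r • A.p := by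
      intro r
      induction r using Int.induction_on with
      | zero => simp [ac_one]
      | succ r ih =>
        rw [zpow_add_one, Subgroup.coe_mul, ac_mul, A.hp, ac_smul, ih, smul_smul,
          zpow_add_one₀ A.μ0, mul_comm]
      | pred r ih =>
        have h6 : ac ((A.γ⁻¹ : Γ) : SL(2, ℝ)) A.p = A.μ⁻¹ • A.p := by
          have := ac_inv_ac (A.γ : SL(2, ℝ)) A.p
          rw [A.hp, ac_smul] at this
          rw [Subgroup.coe_inv, ← this, smul_smul, inv_mul_cancel₀ A.μ0, one_smul, this]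
        rw [zpow_sub_one, Subgroup.coe_mul, ac_mul, h6, ac_smul, ih, smul_smul,
          zpow_sub_one₀ A.μ0, mul_comm]
    have h6 : ac ((A.γ ^ (m - n) : Γ) : SL(2, ℝ)) (ac A.δ A.p) =
        A.μ ^ (m - n) • ac A.δ A.p := by
      rw [← ac_mul, ← Subgroup.coe_mul, h2, Subgroup.coe_mul, ac_mul, h5, ac_smul]
    have h7 := dt_ac ((A.γ ^ (m - n) : Γ) : SL(2, ℝ)) A.p (ac A.δ A.p)
    rw [h5, h6, dt_smul_left, dt_smul_right, ← mul_assoc] at h7
    have h8 : (A.μ ^ (m - n) * A.μ ^ (m - n) - 1) * dt A.p (ac A.δ A.p) = 0 := by linarith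
    have h9 := (mul_eq_zero.mp h8).resolve_right A.lk.ne.1
    have h10 : |A.μ| ^ (2 * (m - n)) = 1 := by
      rw [← abs_zpow, two_mul, zpow_add₀ A.μ0]
      have : A.μ ^ (m - n) * A.μ ^ (m - n) = 1 := by linarith
      rw [this, abs_one]
    have h11 : 2 * (m - n) = 0 := (zpow_eq_one_iff_right₀ A.mu_pos.le A.hμ.ne').mp h10
    omega
  have hmem : ∀ n ∈ Finset.Icc (q + 1 + K) (q' - K), e n ∈ N i j k l := by
    intro n hn
    rw [Finset.mem_Icc] at hn
    have hkey : ∀ a ∈ ({i, j} : Set (Fin 3)), ∀ a' ∈ ({i, j} : Set (Fin 3)),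
        ∀ b ∈ ({k, l} : Set (Fin 3)), ∀ b' ∈ ({k, l} : Set (Fin 3)),
        Lk (pts x 1 a) (pts x f b) (ac (e n) (pts x 1 a')) (ac (e n) (pts x f b')) := by
      intro a ha a' ha' b hb b' hb'
      have g1 : Lk (att (x a)) (att (f (x b)))
          (att ((e n * x a' * (e n)⁻¹ : Γ) : SL(2, ℝ)))
          (att ((e n * f (x b') * (e n)⁻¹ : Γ) : SL(2, ℝ))) := by
        rw [hg.lk _ _ _ _ (hx.ne a) (hfne b) (conj_ne_one _ (hx.ne a'))
          (conj_ne_one _ (hfne b'))]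
        have h1 : g (e n * x a' * (e n)⁻¹) = (A.γ ^ n * A.δ * (A.γ ^ n)⁻¹) * g (x a') *
            (A.γ ^ n * A.δ * (A.γ ^ n)⁻¹)⁻¹ := by
          rw [map_mul, map_mul, map_inv, hap]
        have h2 : g (e n * f (x b') * (e n)⁻¹) = (A.γ ^ n * A.δ * (A.γ ^ n)⁻¹) * g (f (x b')) *
            (A.γ ^ n * A.δ * (A.γ ^ n)⁻¹)⁻¹ := by
          rw [map_mul, map_mul, map_inv, hap]
        rw [h1, h2, hΓ.lk_conj _ _ (map_ne_one g (hx.ne a')) (map_ne_one g (hfne b'))]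
        have h3 : ∀ w, ac ((A.γ ^ n * A.δ * (A.γ ^ n)⁻¹ : Γ) : SL(2, ℝ)) w =
            ac ((A.γ ^ n : Γ) : SL(2, ℝ)) (ac A.δ (ac ((A.γ ^ (-n) : Γ) : SL(2, ℝ)) w)) := by
          intro w
          rw [← ac_mul, ← ac_mul, zpow_neg]
          push_cast
          rw [mul_assoc]
        have h4 : ∀ w, w = ac ((A.γ ^ n : Γ) : SL(2, ℝ)) (ac ((A.γ ^ (-n) : Γ) : SL(2, ℝ)) w) := by
          intro w
          rw [← ac_mul, ← Subgroup.coe_mul, ← zpow_add, add_neg_cancel, zpow_zero,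
            Subgroup.coe_one, ac_one]
        rw [h3, h3, h4 (att (g (x a))), h4 (att (g (f (x b)))), Lk_ac]
        apply hK
        · exact ac_ne_zero (att_ne_zero _)
        · exact ac_ne_zero (att_ne_zero _)
        · exact ac_ne_zero (att_ne_zero _)
        · exact ac_ne_zero (att_ne_zero _)
        · rw [A.pos_zpow]
          exact fun h => hlow a ha (A.pos_mono (by omega) h)
        · rw [A.pos_zpow]
          exact fun h => hlow a' ha' (A.pos_mono (by omega) h)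
        · rw [A.pos_zpow]
          exact A.pos_mono (by omega) (hhigh b hb)
        · rw [A.pos_zpow]
          exact A.pos_mono (by omega) (hhigh b' hb')
      exact (hΓ.lk_conj (e n) (e n) (hx.ne a') (hfne b')).mp g1
    rintro y (rfl | rfl) z (rfl | rfl)
    · exact ⟨hkey i (by simp) i (by simp) k (by simp) k (by simp),
        hkey j (by simp) i (by simp) l (by simp) k (by simp)⟩
    · exact ⟨hkey i (by simp) i (by simp) k (by simp) l (by simp),
        hkey j (by simp) i (by simp) l (by simp) l (by simp)⟩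
    · exact ⟨hkey i (by simp) j (by simp) k (by simp) k (by simp),
        hkey j (by simp) j (by simp) l (by simp) k (by simp)⟩
    · exact ⟨hkey i (by simp) j (by simp) k (by simp) l (by simp),
        hkey j (by simp) j (by simp) l (by simp) l (by simp)⟩
  have hcard : (Finset.Icc (q + 1 + K) (q' - K)).card ≤ (N i j k l).ncard := by
    rw [← Finset.card_image_of_injective _ hinj, ← Set.ncard_coe_finset]
    apply Set.ncard_le_ncard _ hfin
    intro y hy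
    rw [Finset.coe_image] at hy
    obtain ⟨n, hn, rfl⟩ := hy
    exact hmem n hn
  rw [Int.card_Icc] at hcard
  have := hc i j k l
  push_cast at hlt
  omega

end Len

end Pool.Agent.Helper2.Fuch
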