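import Mathlib
import Pool.Agent.Helper2.Fuch.Len

/-!
# The length function: properties and lower bounds
-/

set_option autoImplicit false

open Topology Set Filter
open scoped MatrixGroups

namespace Pool.Agent.Helper2.Fuch

open Pool.Agent.Helper2.Planar

variable {Γ : Subgroup SL(2, ℝ)} (A : Ax Γ) (x : Fin 3 → Γ)

/-- The length function. -/
noncomputable def len (θ : MulAut Γ) : ℝ :=
  ⨆ g : opg Γ, |(Qh A x ((g : MulAut Γ) * θ) : ℝ) - Qh A x g|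

variable {x} (hx : Triple x) (hΓ : Hyp Γ) [DiscreteTopology Γ]

include hx hΓ in
lemma len_bdd {θ : MulAut Γ} (hθ : θ ∈ opg Γ) :
    BddAbove (range fun g : opg Γ => |(Qh A x ((g : MulAut Γ) * θ) : ℝ) - Qh A x g|) := by
  obtain ⟨C, hC⟩ := exists_lip A hx hΓ hθ
  obtain ⟨C', hC'⟩ := exists_lip A hx hΓ ((opg Γ).inv_mem hθ)
  refine ⟨max C C', ?_⟩
  rintro _ ⟨g, rfl⟩
  have h1 := hC g g.2
  have h2 := hC' ((g : MulAut Γ) * θ) ((opg Γ).mul_mem g.2 hθ)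
  rw [mul_inv_cancel_right] at h2
  have h1' : (Qh A x ((g : MulAut Γ) * θ) : ℝ) ≤ Qh A x g + C := by exact_mod_cast h1
  have h2' : (Qh A x g : ℝ) ≤ Qh A x ((g : MulAut Γ) * θ) + C' := by exact_mod_cast h2
  have h3 := le_max_left (C : ℝ) C'
  have h4 := le_max_right (C : ℝ) C'
  simp only
  rw [abs_le]
  constructor <;> linarith

include hx hΓ in
lemma le_len {θ : MulAut Γ} (hθ : θ ∈ opg Γ) {g : MulAut Γ} (hg : g ∈ opg Γ) :
    |(Qh A x (g * θ) : ℝ) - Qh A x g| ≤ len A x θ :=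
  le_ciSup (len_bdd A hx hΓ hθ) ⟨g, hg⟩

include hx hΓ in
lemma le_len' {θ η : MulAut Γ} (hθ : θ ∈ opg Γ) (hη : η ∈ opg Γ) {g : MulAut Γ}
    (hg : g ∈ opg Γ) : |(Qh A x (g * η) : ℝ) - Qh A x (g * θ)| ≤ len A x (θ⁻¹ * η) := by
  have h := le_len A hx hΓ ((opg Γ).mul_mem ((opg Γ).inv_mem hθ) hη) ((opg Γ).mul_mem hg hθ)
  have e : g * θ * (θ⁻¹ * η) = g * η := by group
  rwa [e] at h

omit [DiscreteTopology Γ] in
lemma len_of_fixed {θ : MulAut Γ} (h : ∀ i, θ (x i) = x i) : len A x θ = 0 := by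
  have h1 : ∀ g : opg Γ, |(Qh A x ((g : MulAut Γ) * θ) : ℝ) - Qh A x g| = 0 := by
    intro g
    have h2 : pts x ((g : MulAut Γ) * θ) = pts x (g : MulAut Γ) := by
      funext i
      unfold pts
      rw [MulAut.mul_apply, h i]
    unfold Qh
    rw [h2, sub_self, abs_zero]
  unfold len
  simp only [h1]
  exact ciSup_const

include hx hΓ in
theorem len_isLen : IsLen (len A x) (opg Γ) where
  one := len_of_fixed A fun i => rfl
  inv := by
    have key : ∀ θ ∈ opg Γ, len A x θ⁻¹ ≤ len A x θ := by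
      intro θ hθ
      refine ciSup_le fun g => ?_
      have h := le_len A hx hΓ hθ ((opg Γ).mul_mem g.2 ((opg Γ).inv_mem hθ))
      rw [inv_mul_cancel_right, abs_sub_comm] at h
      exact h
    intro θ hθ
    apply le_antisymm (key θ hθ)
    have := key θ⁻¹ ((opg Γ).inv_mem hθ)
    rwa [inv_inv] at this
  mul := by
    intro θ hθ η hη
    refine ciSup_le fun g => ?_
    have h1 := le_len A hx hΓ hθ g.2
    have h2 := le_len A hx hΓ hη ((opg Γ).mul_mem g.2 hθ)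
    rw [← mul_assoc]
    have h3 := abs_add_le ((Qh A x ((g : MulAut Γ) * θ * η) : ℝ) - Qh A x ((g : MulAut Γ) * θ))
      ((Qh A x ((g : MulAut Γ) * θ) : ℝ) - Qh A x g)
    rw [sub_add_sub_cancel] at h3
    linarith

omit [DiscreteTopology Γ] in
include hx hΓ in
/-- The effect of conjugation with a power of `γ`. -/
lemma Qh_conj {θ : MulAut Γ} (hθ : θ ∈ opg Γ) (n : ℤ) :
    Qh A x (MulAut.conj (A.γ ^ n) * θ) = Qh A x θ + n := by
  have h1 := hx.indep hθ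
  have h2 := hx.indep ((opg Γ).mul_mem (hΓ.conj_mem (A.γ ^ n)) hθ)
  refine Q_eq A h1 h2 n fun m => ?_
  have key : ∀ i, A.Pos m (pts x (MulAut.conj (A.γ ^ n) * θ) i) ↔ A.Pos (m - n) (pts x θ i) := by
    intro i
    unfold pts
    rw [MulAut.mul_apply, MulAut.conj_apply,
      A.pos_par (att_ne_zero _) (ac_ne_zero (att_ne_zero _))
      (hΓ.conj_par (A.γ ^ n) (map_ne_one θ (hx.ne i))), A.pos_zpow]
  unfold Two
  simp only [key]

omit [DiscreteTopology Γ] in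
lemma Ax.pos_p (n : ℤ) : A.Pos n A.p := by
  unfold Ax.Pos
  rw [dt_self, abs_zero, mul_zero]
  exact abs_pos.mpr A.hpq

omit [DiscreteTopology Γ] in
lemma Ax.not_pos_q (n : ℤ) : ¬ A.Pos n A.q := by
  unfold Ax.Pos
  rw [dt_self, abs_zero, not_lt]
  have := A.mu_pos
  positivity

omit [DiscreteTopology Γ] in
lemma Ax.exists_mid : ∃ K : ℕ, ∀ u : ℝ × ℝ, u ≠ 0 → (¬ A.Pos (-K) u ∨ A.Pos K u) →
    A.Pos (-K) (ac A.δ u) ∧ ¬ A.Pos K (ac A.δ u) := by
  obtain ⟨K, hK⟩ := A.exists_K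
  refine ⟨K, fun u hu h => ?_⟩
  have hp := p_ne_zero A
  have hq := q_ne_zero A
  have hdu : ac A.δ u ≠ 0 := ac_ne_zero hu
  rcases h with h | h
  · constructor
    · by_contra h1
      exact (hK _ u A.p A.p hdu hu hp hp h1 h (A.pos_p _) (A.pos_p _)).ne.1 (dt_self _)
    · intro h1
      exact (hK A.q u _ A.p hq hu hdu hp (A.not_pos_q _) h h1 (A.pos_p _)).ne.2.2.1 (dt_self _)
  · constructor
    · by_contra h1
      exact (hK _ A.q A.p u hdu hq hp hu h1 (A.not_pos_q _) (A.pos_p _) h).ne.2.1 (dt_self _)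
    · intro h1
      exact (hK A.q A.q _ u hq hq hdu hu (A.not_pos_q _) (A.not_pos_q _) h1 h).ne.2.2.2 (dt_self _)

omit [DiscreteTopology Γ] in
include hx hΓ in
lemma exists_bound : ∃ C : ℕ, ∀ n : ℤ, |Qh A x (MulAut.conj (A.δ * A.γ ^ n))| ≤ C := by
  obtain ⟨K, hK⟩ := A.exists_mid
  have hI := hx.ind
  -- far positive
  have hmid : ∀ n : ℤ, ∀ i j : Fin 3, i ≠ j →
      (¬ A.Pos (-K) (ac ((A.γ ^ n : Γ) : SL(2, ℝ)) (pts x 1 i)) ∨
        A.Pos K (ac ((A.γ ^ n : Γ) : SL(2, ℝ)) (pts x 1 i))) →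
      (¬ A.Pos (-K) (ac ((A.γ ^ n : Γ) : SL(2, ℝ)) (pts x 1 j)) ∨
        A.Pos K (ac ((A.γ ^ n : Γ) : SL(2, ℝ)) (pts x 1 j))) →
      |Qh A x (MulAut.conj (A.δ * A.γ ^ n))| ≤ K := by
    intro n i j hij hi hj
    have hz := hx.indep (hΓ.conj_mem (A.δ * A.γ ^ n))
    have hpos : ∀ m : ℤ, ∀ i, A.Pos m (pts x (MulAut.conj (A.δ * A.γ ^ n)) i) ↔
        A.Pos m (ac A.δ (ac ((A.γ ^ n : Γ) : SL(2, ℝ)) (pts x 1 i))) := by
      intro m i
      rw [← ac_mul, ← Subgroup.coe_mul]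
      exact A.pos_par (att_ne_zero _) (ac_ne_zero (att_ne_zero _))
        (hΓ.conj_par (A.δ * A.γ ^ n) (hx.ne i))
    have h1 := hK (ac ((A.γ ^ n : Γ) : SL(2, ℝ)) (pts x 1 i)) (ac_ne_zero (att_ne_zero _)) hi
    have h2 := hK (ac ((A.γ ^ n : Γ) : SL(2, ℝ)) (pts x 1 j)) (ac_ne_zero (att_ne_zero _)) hj
    rw [← hpos, ← hpos] at h1 h2
    have h3 : Two A (pts x (MulAut.conj (A.δ * A.γ ^ n))) (-K) := ⟨i, j, hij, h1.1, h2.1⟩
    have h4 := not_two_of A hij h1.2 h2.2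
    rw [Q_spec A hz] at h3 h4
    rw [abs_le]
    unfold Qh
    constructor <;> omega
  obtain ⟨i, j, hij, hi, hj⟩ := hI.exists_not_par (q_ne_zero A)
  obtain ⟨n1, h1⟩ := A.exists_pos hi
  obtain ⟨n2, h2⟩ := A.exists_pos hj
  obtain ⟨i', j', hij', hi', hj'⟩ := hI.exists_not_par (p_ne_zero A)
  obtain ⟨n3, h3⟩ := A.exists_not_pos hi'
  obtain ⟨n4, h4⟩ := A.exists_not_pos hj'
  let hi := K - min n1 n2
  let lo := -K - max n3 n4
  refine ⟨K + ∑ n ∈ Finset.Icc lo hi, (Qh A x (MulAut.conj (A.δ * A.γ ^ n))).natAbs, fun n => ?_⟩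
  by_cases hn1 : hi ≤ n
  · refine (hmid n i j hij (Or.inr ?_) (Or.inr ?_)).trans ?_
    · rw [A.pos_zpow]
      exact A.pos_mono (by have := min_le_left n1 n2; omega) h1
    · rw [A.pos_zpow]
      exact A.pos_mono (by have := min_le_right n1 n2; omega) h2
    · push_cast
      have : (0 : ℤ) ≤ ∑ n ∈ Finset.Icc lo hi, |Qh A x (MulAut.conj (A.δ * A.γ ^ n))| :=
        Finset.sum_nonneg fun _ _ => abs_nonneg _
      linarith
  · by_cases hn2 : n ≤ lo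
    · refine (hmid n i' j' hij' (Or.inl ?_) (Or.inl ?_)).trans ?_
      · rw [A.pos_zpow]
        exact fun h => h3 (A.pos_mono (by have := le_max_left n3 n4; omega) h)
      · rw [A.pos_zpow]
        exact fun h => h4 (A.pos_mono (by have := le_max_right n3 n4; omega) h)
      · push_cast
        have : (0 : ℤ) ≤ ∑ n ∈ Finset.Icc lo hi, |Qh A x (MulAut.conj (A.δ * A.γ ^ n))| :=
          Finset.sum_nonneg fun _ _ => abs_nonneg _
        linarith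
    · have hmem : n ∈ Finset.Icc lo hi := Finset.mem_Icc.mpr ⟨by omega, by omega⟩
      have h5 : |Qh A x (MulAut.conj (A.δ * A.γ ^ n))| ≤
          ∑ n ∈ Finset.Icc lo hi, |Qh A x (MulAut.conj (A.δ * A.γ ^ n))| :=
        Finset.single_le_sum (f := fun n => |Qh A x (MulAut.conj (A.δ * A.γ ^ n))|)
          (fun _ _ => abs_nonneg _) hmem
      push_cast
      linarith [(Nat.cast_nonneg K : (0 : ℤ) ≤ K)]

omit [DiscreteTopology Γ] in
lemma Hyp.comm_of_par (hΓ : Hyp Γ) {a b : SL(2, ℝ)} (ha : a ∈ Γ) (hb : b ∈ Γ) (ha1 : a ≠ 1)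
    (hb1 : b ≠ 1) (h : dt (Fuch.att a) (Fuch.att b) = 0) : a * b = b * a := by
  obtain ⟨hu, μ, -, hμ⟩ := hΓ.att ha ha1
  obtain ⟨-, ν, -, hν⟩ := (hΓ.att hb hb1).of_par hu (by rw [dt_comm, h, neg_zero])
  exact hΓ.commute ha hb hu hμ hν

/-- **The length function on the group of order preserving automorphisms.** -/
theorem exists_len (hΓ : Hyp Γ) (hnc : ∃ a ∈ Γ, ∃ b ∈ Γ, a * b ≠ b * a) :
    ∃ (ℓ : MulAut Γ → ℝ) (x : Fin 3 → Γ) (γ δ : Γ) (C : ℝ), IsLen ℓ (opg Γ) ∧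
      (∀ θ, (∀ i, θ (x i) = x i) → ℓ θ = 0) ∧
      (∀ n : ℤ, |(n : ℝ)| ≤ ℓ (MulAut.conj (γ ^ n))) ∧
      (∀ n k : ℤ, |(k : ℝ)| - C ≤
        ℓ ((MulAut.conj (γ ^ n))⁻¹ * MulAut.conj (δ⁻¹ * γ ^ k * δ))) := by
  obtain ⟨a, ha, b, hb, hab⟩ := hnc
  have ha1 : a ≠ 1 := by rintro rfl; exact hab (by simp)
  have hb1 : b ≠ 1 := by rintro rfl; exact hab (by simp)
  obtain ⟨γ, hγ, hγ1, δ, hδ, hlk⟩ := exists_selfLinked hΓ ha hb hab
  obtain ⟨-, μ, hμ, hp, hq⟩ := (hΓ.att hγ hγ1).pair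
    (hΓ.att (Γ.inv_mem hγ) (inv_ne_one.mpr hγ1))
  let A : Ax Γ := ⟨⟨γ, hγ⟩, ⟨δ, hδ⟩, Fuch.att γ, Fuch.att γ⁻¹, μ, hμ, hp, hq, hlk⟩
  have h01 : dt (Fuch.att a) (Fuch.att a⁻¹) ≠ 0 := ((hΓ.att ha ha1).pair
    (hΓ.att (Γ.inv_mem ha) (inv_ne_one.mpr ha1))).1
  have h02 : dt (Fuch.att a) (Fuch.att b) ≠ 0 := fun h => hab (hΓ.comm_of_par ha hb ha1 hb1 h)
  have h12 : dt (Fuch.att a⁻¹) (Fuch.att b) ≠ 0 := by
    intro h
    have h1 := hΓ.comm_of_par (Γ.inv_mem ha) hb (inv_ne_one.mpr ha1) hb1 h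
    apply hab
    calc a * b = a * (b * a⁻¹) * a := by group
      _ = a * (a⁻¹ * b) * a := by rw [h1]
      _ = b * a := by group
  let x : Fin 3 → Γ := ![⟨a, ha⟩, ⟨a, ha⟩⁻¹, ⟨b, hb⟩]
  have hx : Triple x := by
    constructor
    · intro i h
      fin_cases i
      · exact ha1 (congrArg Subtype.val h)
      · exact inv_ne_one.mpr ha1 (congrArg Subtype.val h)
      · exact hb1 (congrArg Subtype.val h)
    · intro i j hij
      have h10 : dt (Fuch.att a⁻¹) (Fuch.att a) ≠ 0 := by rw [dt_comm, neg_ne_zero]; exact h01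
      have h20 : dt (Fuch.att b) (Fuch.att a) ≠ 0 := by rw [dt_comm, neg_ne_zero]; exact h02
      have h21 : dt (Fuch.att b) (Fuch.att a⁻¹) ≠ 0 := by rw [dt_comm, neg_ne_zero]; exact h12
      fin_cases i <;> fin_cases j
      · exact absurd rfl hij
      · exact h01
      · exact h02
      · exact h10
      · exact absurd rfl hij
      · exact h12
      · exact h20
      · exact h21
      · exact absurd rfl hij
  obtain ⟨C, hC⟩ := exists_bound A hx hΓ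
  have hone : (1 : MulAut Γ) ∈ opg Γ := (opg Γ).one_mem
  refine ⟨len A x, x, A.γ, A.δ, |(Qh A x (MulAut.conj A.δ) : ℝ)| + C, len_isLen A hx hΓ,
    fun θ h => len_of_fixed A h, fun n => ?_, fun n k => ?_⟩
  · have h1 := le_len A hx hΓ (hΓ.conj_mem (A.γ ^ n)) hone
    rw [one_mul] at h1
    have h2 := Qh_conj A hx hΓ hone n
    rw [mul_one] at h2
    rw [h2] at h1
    push_cast at h1
    rwa [add_sub_cancel_left] at h1
  · have h1 := le_len' A hx hΓ (hΓ.conj_mem (A.γ ^ n)) (hΓ.conj_mem (A.δ⁻¹ * A.γ ^ k * A.δ))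
      (hΓ.conj_mem A.δ)
    have e1 : MulAut.conj A.δ * MulAut.conj (A.δ⁻¹ * A.γ ^ k * A.δ) =
        MulAut.conj (A.γ ^ k) * MulAut.conj A.δ := by
      rw [← map_mul, ← map_mul]
      congr 1
      group
    have e2 : MulAut.conj A.δ * MulAut.conj (A.γ ^ n) = MulAut.conj (A.δ * A.γ ^ n) := by
      rw [← map_mul]
    rw [e1, e2, Qh_conj A hx hΓ (hΓ.conj_mem A.δ)] at h1
    have h2 : |(Qh A x (MulAut.conj (A.δ * A.γ ^ n)) : ℝ)| ≤ C := by
      have := hC n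
      exact_mod_cast this
    push_cast at h1
    have h3 := abs_sub_abs_le_abs_sub (k : ℝ)
      ((Qh A x (MulAut.conj (A.δ * A.γ ^ n)) : ℝ) - Qh A x (MulAut.conj A.δ))
    have h4 := abs_sub (Qh A x (MulAut.conj (A.δ * A.γ ^ n)) : ℝ)
      (Qh A x (MulAut.conj A.δ) : ℝ)
    have h5 : (k : ℝ) - ((Qh A x (MulAut.conj (A.δ * A.γ ^ n)) : ℝ) -
        Qh A x (MulAut.conj A.δ)) = (Qh A x (MulAut.conj A.δ) : ℝ) + k -
        Qh A x (MulAut.conj (A.δ * A.γ ^ n)) := by ring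
    rw [h5] at h3
    linarith

end Pool.Agent.Helper2.Fuch
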