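import Mathlib
import Pool.Agent.Helper2.Fuch.Cross
import Pool.Agent.Helper2.Fuch.Len2

/-!
# Equivariant homeomorphisms of the upper half plane preserve linking
-/

set_option autoImplicit false

open Topology Set Filter
open scoped MatrixGroups UpperHalfPlane

namespace Pool.Agent.Helper2.Fuch

/-- Linked or with a common end, if they meet. -/
lemma lkp_nonpos {u v u' v' : ℝ × ℝ} (hv : v ≠ 0) (hv' : v' ≠ 0) {z : ℍ}
    (h : (RR u v z).re = 0) (h' : (RR u' v' z).re = 0) : lkp u v u' v' ≤ 0 := by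
  set α := (RR u v z).im with hα
  set β := (RR u' v' z).im with hβ
  have e1 : RR u v z = α * Complex.I := by
    apply Complex.ext
    · simp [h]
    · simp [hα]
  have e2 : RR u' v' z = β * Complex.I := by
    apply Complex.ext
    · simp [h']
    · simp [hβ]
  unfold RR at e1 e2
  rw [div_eq_iff (DD_ne_zero hv z)] at e1
  rw [div_eq_iff (DD_ne_zero hv' z)] at e2
  unfold DD at e1 e2
  have e3 : ((u.1 : ℂ) - α * Complex.I * v.1) * (u'.2 - β * Complex.I * v'.2) =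
      (u.2 - α * Complex.I * v.2) * (u'.1 - β * Complex.I * v'.1) := by
    have f1 : ((u.2 : ℂ) - α * Complex.I * v.2) * z = u.1 - α * Complex.I * v.1 := by
      linear_combination e1
    have f2 : ((u'.2 : ℂ) - β * Complex.I * v'.2) * z = u'.1 - β * Complex.I * v'.1 := by
      linear_combination e2
    rw [← f1, ← f2]
    ring
  have e4 := congrArg Complex.re e3
  have e5 := congrArg Complex.im e3
  simp only [Complex.mul_re, Complex.mul_im, Complex.sub_re, Complex.sub_im, Complex.ofReal_re,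
    Complex.ofReal_im, Complex.I_re, Complex.I_im] at e4 e5
  have g1 : dt u u' = α * β * dt v v' := by
    simp only [dt]
    linarith
  have g2 : β * dt u v' = -(α * dt v u') := by
    simp only [dt]
    linarith
  have g3 : lkp u v u' v' = -(α * dt v v' * dt v u') ^ 2 := by
    simp only [lkp]
    rw [g1]
    linear_combination (α * dt v v' ^ 2 * dt v u') * g2
  rw [g3]
  have := sq_nonneg (α * dt v v' * dt v u')
  linarith

section Con

variable {Γ : Subgroup SL(2, ℝ)}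

/-- The curve `c` stays close to the orbit of `x`. -/
def Con (x : Γ) (c : ℝ → ℍ) (l : Filter ℝ) : Prop :=
  ∃ C : Set ℍ, IsCompact C ∧ ∀ N : ℕ, ∀ᶠ t in l, ∃ n, N ≤ n ∧ ∃ k ∈ C, c t = x ^ n • k

/-- The homeomorphism `φ` is equivariant with respect to `θ`. -/
def Eqv (φ : ℍ ≃ₜ ℍ) (θ : MulAut Γ) : Prop := ∀ (g : Γ) (z : ℍ), φ (g • z) = θ g • φ z

lemma Eqv.symm {φ : ℍ ≃ₜ ℍ} {θ : MulAut Γ} (h : Eqv φ θ) : Eqv φ.symm θ⁻¹ := by
  intro g z
  rw [Homeomorph.symm_apply_eq, h, Homeomorph.apply_symm_apply, ← MulAut.mul_apply,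
    mul_inv_cancel, MulAut.one_apply]

lemma Con.map {x : Γ} {c : ℝ → ℍ} {l : Filter ℝ} (hc : Con x c l) {φ : ℍ ≃ₜ ℍ} {θ : MulAut Γ}
    (h : Eqv φ θ) : Con (θ x) (φ ∘ c) l := by
  obtain ⟨C, hC, hN⟩ := hc
  refine ⟨φ '' C, hC.image φ.continuous, fun N => ?_⟩
  filter_upwards [hN N] with t ht
  obtain ⟨n, hn, k, hk, e⟩ := ht
  refine ⟨n, hn, φ k, mem_image_of_mem _ hk, ?_⟩
  rw [Function.comp_apply, e, h, map_pow]

lemma RR_smul_left (a : ℝ) (u v : ℝ × ℝ) (z : ℍ) : RR (a • u) v z = a * RR u v z := by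
  unfold RR
  rw [DD_smul, mul_div_assoc]

lemma RR_smul_right (a : ℝ) (u v : ℝ × ℝ) (z : ℍ) : RR u (a • v) z = (a : ℂ)⁻¹ * RR u v z := by
  unfold RR
  rw [DD_smul, div_mul_eq_div_div, div_right_comm, div_eq_inv_mul]

lemma RR_pow {x : SL(2, ℝ)} {u v : ℝ × ℝ} {μ : ℝ} (hμ : μ ≠ 0) (hu : ac x u = μ • u)
    (hv : ac x v = μ⁻¹ • v) (n : ℕ) (z : ℍ) :
    RR u v (x ^ n • z) = ((μ : ℂ) ^ (2 * n))⁻¹ * RR u v z := by
  have hμ' : (μ : ℂ) ≠ 0 := by exact_mod_cast hμ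
  induction n with
  | zero => simp
  | succ n ih =>
    have h1 := RR_ac x u v (x ^ n • z)
    rw [hu, hv, RR_smul_left, RR_smul_right, ih] at h1
    rw [pow_succ', mul_smul]
    have h2 : (μ : ℂ) * ((((μ⁻¹ : ℝ) : ℂ))⁻¹ * RR u v (x • x ^ n • z)) =
        (μ : ℂ) ^ 2 * RR u v (x • x ^ n • z) := by
      push_cast
      rw [inv_inv]
      ring
    rw [h2] at h1
    have h3 : (μ : ℂ) ^ 2 ≠ 0 := pow_ne_zero 2 hμ'
    apply mul_left_cancel₀ h3
    rw [h1, mul_add, pow_add, mul_inv]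
    field_simp

variable (hΓ : Hyp Γ)

include hΓ in
lemma Con.conv {x : Γ} (hx : x ≠ 1) {c : ℝ → ℍ} {l : Filter ℝ} (hc : Con x c l) :
    Conv c l (att x) := by
  have hx1 : (x : SL(2, ℝ)) ≠ 1 := fun h => hx (Subtype.ext h)
  obtain ⟨hne, μ, hμ, hu, hv⟩ := (hΓ.att x.2 hx1).pair
    (hΓ.att (Γ.inv_mem x.2) (inv_ne_one.mpr hx1))
  have hμ0 : μ ≠ 0 := by rintro rfl; simp at hμ; linarith
  have hμpos : 0 < |μ| := abs_pos.mpr hμ0
  set u := Fuch.att (x : SL(2, ℝ))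
  set v := Fuch.att ((x : SL(2, ℝ))⁻¹)
  have hv0 : v ≠ 0 := att_ne_zero _
  refine Conv.of_one hne ?_
  obtain ⟨C, hC, hN⟩ := hc
  obtain ⟨B, hB⟩ := hC.exists_bound_of_continuousOn (RR_continuous u hv0).continuousOn
  rw [Metric.tendsto_nhds]
  intro ε hε
  have h1 : Tendsto (fun n : ℕ => (|μ|⁻¹) ^ n * (|B| + 1)) atTop (𝓝 (0 * (|B| + 1))) :=
    (tendsto_pow_atTop_nhds_zero_of_lt_one (by positivity)
      (inv_lt_one_of_one_lt₀ hμ)).mul_const _
  rw [zero_mul] at h1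
  obtain ⟨N, hN'⟩ := (h1.eventually_lt_const hε).exists
  filter_upwards [hN N] with t ht
  obtain ⟨n, hn, k, hk, e⟩ := ht
  have e' : c t = (x : SL(2, ℝ)) ^ n • k := by
    rw [e]
    rfl
  rw [dist_zero_right, e', RR_pow hμ0 hu hv, norm_mul, norm_inv, norm_pow, Complex.norm_real,
    Real.norm_eq_abs]
  refine lt_of_le_of_lt ?_ hN'
  have h2 : (|μ| ^ (2 * n))⁻¹ ≤ (|μ|⁻¹) ^ N := by
    rw [inv_pow]
    exact inv_anti₀ (by positivity) (pow_le_pow_right₀ hμ.le (by omega))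
  refine mul_le_mul h2 ?_ (norm_nonneg _) (by positivity)
  exact (hB k hk).trans ((le_abs_self B).trans (by linarith))

/-- Compact sets in the upper half plane. -/
lemma isCompact_box (R : ℝ) {ε : ℝ} (hε : 0 < ε) : IsCompact {z : ℍ | ‖(z : ℂ)‖ ≤ R ∧ ε ≤ z.im} := by
  have h1 : IsCompact {z : ℂ | ‖z‖ ≤ R ∧ ε ≤ z.im} := by
    refine (isCompact_closedBall (0 : ℂ) R).of_isClosed_subset ?_ ?_
    · exact (isClosed_le continuous_norm continuous_const).inter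
        (isClosed_le continuous_const Complex.continuous_im)
    · intro z hz
      rw [Metric.mem_closedBall, dist_zero_right]
      exact hz.1
  exact (UpperHalfPlane.isOpenEmbedding_coe.isInducing.isCompact_preimage_iff (by
    intro z hz
    exact ⟨⟨z, lt_of_lt_of_le hε hz.2⟩, rfl⟩)).mpr h1

/-- The matrix with given columns. -/
noncomputable def col (u v : ℝ × ℝ) (h : dt u v ≠ 0) : SL(2, ℝ) :=
  ⟨!![v.1, u.1 / dt v u; v.2, u.2 / dt v u], by
    rw [Matrix.det_fin_two_of]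
    have h' : dt v u ≠ 0 := by rw [dt_comm, neg_ne_zero]; exact h
    have : v.1 * (u.2 / dt v u) - u.1 / dt v u * v.2 = dt v u / dt v u := by
      simp only [dt]
      ring
    rw [this, div_self h']⟩

lemma RR_col (u v : ℝ × ℝ) (h : dt u v ≠ 0) (z : ℍ) :
    RR u v (col u v h • z) = dt u v * z := by
  have h' : dt v u ≠ 0 := by rw [dt_comm, neg_ne_zero]; exact h
  have h1 : ac (col u v h) (1, 0) = v := by simp [ac, col]
  have h2 : (dt v u) • ac (col u v h) (0, 1) = u := by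
    simp only [ac, col]
    ext
    · simp
      field_simp
    · simp
      field_simp
  have h3 : RR u v (col u v h • z) = dt v u * RR (ac (col u v h) (0, 1)) (ac (col u v h) (1, 0))
      (col u v h • z) := by
    rw [← RR_smul_left, h1, h2]
  rw [h3, RR_ac]
  have h4 : RR (0, 1) (1, 0) z = -(z : ℂ) := by
    unfold RR DD
    simp [div_neg]
  rw [h4, dt_comm v u]
  push_cast
  ring

/-- A curve which approaches a fixed point of `x` in a cone is conical. -/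
lemma con_of_cone {x : SL(2, ℝ)} {u v : ℝ × ℝ} (huv : dt u v ≠ 0) {μ : ℝ} (hμ : 1 < |μ|)
    (hu : ac x u = μ • u) (hv : ac x v = μ⁻¹ • v) {c : ℝ → ℍ} {l : Filter ℝ}
    (h0 : Tendsto (fun t => RR u v (c t)) l (𝓝 0)) {η : ℝ} (hη : 0 < η)
    (hcone : ∀ᶠ t in l, η * ‖RR u v (c t)‖ ≤ |(RR u v (c t)).im|) :
    ∃ C : Set ℍ, IsCompact C ∧ ∀ N : ℕ, ∀ᶠ t in l, ∃ n, N ≤ n ∧ ∃ k ∈ C, c t = x ^ n • k := by
  have hμ0 : μ ≠ 0 := by rintro rfl; simp at hμ; linarith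
  have hμpos : 0 < |μ| := abs_pos.mpr hμ0
  have hu0 : u ≠ 0 := by rintro rfl; simp [dt] at huv
  have hv0 : v ≠ 0 := by rintro rfl; simp [dt] at huv
  set d := |dt u v| with hd
  have hdpos : 0 < d := abs_pos.mpr huv
  refine ⟨(fun z => col u v huv • z) '' {z : ℍ | ‖(z : ℂ)‖ ≤ |μ| ^ 2 / d ∧ η / d ≤ z.im},
    (isCompact_box _ (by positivity)).image (continuous_const_smul _), fun N => ?_⟩
  have h1 : ∀ᶠ t in l, ‖RR u v (c t)‖ < (|μ| ^ (2 * N))⁻¹ := by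
    have h2 := h0.norm
    rw [norm_zero] at h2
    exact h2.eventually (gt_mem_nhds (by positivity))
  have h1' : ∀ᶠ t in l, ‖RR u v (c t)‖ < 1 := by
    have h2 := h0.norm
    rw [norm_zero] at h2
    exact h2.eventually (gt_mem_nhds one_pos)
  filter_upwards [hcone, h1, h1'] with t ht ht1 ht2
  set ρ := RR u v (c t) with hρ
  have hρ0 : 0 < ‖ρ‖ := norm_pos_iff.mpr (div_ne_zero (DD_ne_zero hu0 _) (DD_ne_zero hv0 _))
  obtain ⟨m, hm1, hm2⟩ := exists_nat_pow_near (x := ‖ρ‖⁻¹) (y := |μ| ^ 2)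
    (by rw [one_le_inv₀ hρ0]; exact ht2.le) (by nlinarith)
  set n := m + 1 with hn
  have hlow : 1 < |μ| ^ (2 * n) * ‖ρ‖ := by
    rw [pow_mul]
    rwa [inv_lt_iff_one_lt_mul₀ hρ0] at hm2
  have hup : |μ| ^ (2 * n) * ‖ρ‖ ≤ |μ| ^ 2 := by
    rw [pow_mul, hn, pow_succ]
    have h3 : (|μ| ^ 2) ^ m * ‖ρ‖ ≤ 1 := by
      have := mul_le_mul_of_nonneg_right hm1 hρ0.le
      rwa [inv_mul_cancel₀ hρ0.ne'] at this
    calc (|μ| ^ 2) ^ m * |μ| ^ 2 * ‖ρ‖ = |μ| ^ 2 * ((|μ| ^ 2) ^ m * ‖ρ‖) := by ring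
      _ ≤ |μ| ^ 2 * 1 := mul_le_mul_of_nonneg_left h3 (by positivity)
      _ = |μ| ^ 2 := mul_one _
  have hNn : N ≤ n := by
    by_contra hlt
    rw [not_le] at hlt
    have h3 : |μ| ^ (2 * n) ≤ |μ| ^ (2 * N) := pow_le_pow_right₀ hμ.le (by omega)
    have h4 : |μ| ^ (2 * N) * ‖ρ‖ < 1 := by
      rwa [lt_inv_comm₀ hρ0 (by positivity), ← one_div, lt_div_iff₀ hρ0] at ht1
    nlinarith
  have hinv : x ^ n • ((x ^ n)⁻¹ • c t) = c t := smul_inv_smul _ _
  refine ⟨n, hNn, (x ^ n)⁻¹ • c t, ?_, hinv.symm⟩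
  refine ⟨(col u v huv)⁻¹ • (x ^ n)⁻¹ • c t, ?_, smul_inv_smul _ _⟩
  have h3 := RR_col u v huv ((col u v huv)⁻¹ • (x ^ n)⁻¹ • c t)
  rw [smul_inv_smul] at h3
  have h4 := RR_pow hμ0 hu hv n ((x ^ n)⁻¹ • c t)
  rw [hinv, ← hρ, h3] at h4
  have hμn : (μ : ℂ) ^ (2 * n) ≠ 0 := pow_ne_zero _ (by exact_mod_cast hμ0)
  set w := (col u v huv)⁻¹ • (x ^ n)⁻¹ • c t with hw
  have h5 : ((μ ^ (2 * n) : ℝ) : ℂ) * ρ = ((dt u v : ℝ) : ℂ) * (w : ℂ) := by
    rw [h4]
    push_cast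
    field_simp
  have h6 : |μ| ^ (2 * n) * ‖ρ‖ = d * ‖(w : ℂ)‖ := by
    have := congrArg norm h5
    rwa [norm_mul, norm_mul, Complex.norm_real, Complex.norm_real, Real.norm_eq_abs,
      Real.norm_eq_abs, abs_pow] at this
  have h7 : |μ| ^ (2 * n) * |ρ.im| = d * w.im := by
    have := congrArg (fun z : ℂ => |z.im|) h5
    simp only [Complex.im_ofReal_mul] at this
    rw [abs_mul, abs_mul, abs_pow] at this
    rw [this]
    congr 1
    exact abs_of_pos w.im_pos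
  constructor
  · rw [le_div_iff₀ hdpos, mul_comm, ← h6]
    exact hup
  · rw [div_le_iff₀ hdpos, mul_comm, ← h7]
    have h8 : η * 1 ≤ η * (|μ| ^ (2 * n) * ‖ρ‖) := by
      exact mul_le_mul_of_nonneg_left hlow.le hη.le
    have h9 : η * (|μ| ^ (2 * n) * ‖ρ‖) ≤ |μ| ^ (2 * n) * |ρ.im| := by
      have : η * (|μ| ^ (2 * n) * ‖ρ‖) = |μ| ^ (2 * n) * (η * ‖ρ‖) := by ring
      rw [this]
      exact mul_le_mul_of_nonneg_left ht (by positivity)
    linarith

/-- A curve on a geodesic is conical. -/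
lemma con_of_imag {x : SL(2, ℝ)} {u v : ℝ × ℝ} (huv : dt u v ≠ 0) {u₀ r : ℝ × ℝ}
    (hur : dt u₀ r ≠ 0) {μ : ℝ} (hμ : 1 < |μ|)
    (hu : ac x u₀ = μ • u₀) (hv : ac x r = μ⁻¹ • r) (hpar : dt u u₀ = 0) {c : ℝ → ℍ}
    {l : Filter ℝ} (h0 : Conv c l u) (him : ∀ t, (RR u v (c t)).re = 0) :
    ∃ C : Set ℍ, IsCompact C ∧ ∀ N : ℕ, ∀ᶠ t in l, ∃ n, N ≤ n ∧ ∃ k ∈ C, c t = x ^ n • k := by
  have hu0 : u ≠ 0 := by rintro rfl; simp [dt] at huv
  have hv0 : v ≠ 0 := by rintro rfl; simp [dt] at huv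
  have hu00 : u₀ ≠ 0 := by rintro rfl; simp [dt] at hur
  have hr0 : r ≠ 0 := by rintro rfl; simp [dt] at hur
  obtain ⟨κ, hκ, rfl⟩ := exists_smul_of_dt' hu0 hu00 hpar
  have hur' : dt u r ≠ 0 := by
    rw [dt_smul_left] at hur
    exact right_ne_zero_of_mul hur
  have h1 : Tendsto (fun t => RR (κ • u) r (c t)) l (𝓝 0) := by
    have h2 := (h0 r hur').const_mul (κ : ℂ)
    rw [mul_zero] at h2
    simpa only [RR_smul_left] using h2
  refine con_of_cone hur hμ hu hv h1 (η := 1 / 2) (by norm_num) ?_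
  have h2 : Tendsto (fun t => ‖RR r v (c t)‖) l (𝓝 ‖((dt u r / dt u v : ℝ) : ℂ)‖) :=
    (h0.lim r huv).norm
  have h3 : ‖((dt u r / dt u v : ℝ) : ℂ)‖ < 2 * (|dt u r| / |dt u v|) := by
    rw [Complex.norm_real, Real.norm_eq_abs, abs_div]
    have := div_pos (abs_pos.mpr hur') (abs_pos.mpr huv)
    linarith
  filter_upwards [h2.eventually (gt_mem_nhds h3)] with t ht
  have hDu := norm_pos_iff.mpr (DD_ne_zero hu0 (c t))
  have hDv := norm_pos_iff.mpr (DD_ne_zero hv0 (c t))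
  have hDr := norm_pos_iff.mpr (DD_ne_zero hr0 (c t))
  have hz := (c t).im_pos
  -- on the geodesic
  have e1 : ‖DD u (c t)‖ * ‖DD v (c t)‖ = |dt u v| * (c t).im := by
    have f1 : ‖RR u v (c t)‖ = |(RR u v (c t)).im| := by
      have : RR u v (c t) = ((RR u v (c t)).im : ℂ) * Complex.I := by
        apply Complex.ext
        · simp [him t]
        · simp
      conv_lhs => rw [this]
      rw [norm_mul, Complex.norm_I, mul_one, Complex.norm_real, Real.norm_eq_abs]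
    rw [RR_im] at f1
    unfold RR at f1
    rw [norm_div, abs_div, abs_mul, abs_of_pos hz, abs_of_nonneg (Complex.normSq_nonneg _),
      Complex.normSq_eq_norm_sq, div_eq_div_iff hDv.ne' (by positivity)] at f1
    have f2 : ‖DD v (c t)‖ * (‖DD u (c t)‖ * ‖DD v (c t)‖) =
        ‖DD v (c t)‖ * (|dt u v| * (c t).im) := by linarith
    exact mul_left_cancel₀ hDv.ne' f2
  have e2 : ‖DD r (c t)‖ ≤ 2 * (|dt u r| / |dt u v|) * ‖DD v (c t)‖ := by
    unfold RR at ht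
    rw [norm_div, div_lt_iff₀ hDv] at ht
    exact ht.le
  rw [RR_smul_left, norm_mul, Complex.im_ofReal_mul, abs_mul, RR_im]
  unfold RR
  rw [norm_div, abs_div, abs_mul, abs_of_pos hz, abs_of_nonneg (Complex.normSq_nonneg _),
    Complex.normSq_eq_norm_sq, Complex.norm_real, Real.norm_eq_abs]
  have e3 : ‖DD u (c t)‖ * ‖DD r (c t)‖ ≤ 2 * (|dt u r| * (c t).im) := by
    calc ‖DD u (c t)‖ * ‖DD r (c t)‖ ≤
          ‖DD u (c t)‖ * (2 * (|dt u r| / |dt u v|) * ‖DD v (c t)‖) :=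
          mul_le_mul_of_nonneg_left e2 hDu.le
      _ = 2 * (|dt u r| / |dt u v|) * (‖DD u (c t)‖ * ‖DD v (c t)‖) := by ring
      _ = 2 * (|dt u r| / |dt u v|) * (|dt u v| * (c t).im) := by rw [e1]
      _ = 2 * (|dt u r| * (c t).im) := by
          have := abs_pos.mpr huv
          field_simp
  have e4 : ‖DD u (c t)‖ / ‖DD r (c t)‖ ≤ 2 * (|dt u r| * (c t).im / ‖DD r (c t)‖ ^ 2) := by
    rw [← mul_div_assoc, div_le_div_iff₀ hDr (by positivity)]
    have := mul_le_mul_of_nonneg_right e3 hDr.le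
    nlinarith
  have e5 := mul_le_mul_of_nonneg_left e4 (abs_nonneg κ)
  linarith

end Con

end Pool.Agent.Helper2.Fuch
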