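import Mathlib
import Pool.Agent.Helper2.Fuch.Order

/-!
# Equivariant homeomorphisms of the upper half plane preserve linking, continued
-/

set_option autoImplicit false

open Topology Set Filter
open scoped MatrixGroups UpperHalfPlane

namespace Pool.Agent.Helper2.Fuch

/-- The geodesic from `u` to `v`. -/
lemma exists_geod {u v : ℝ × ℝ} (h : dt u v ≠ 0) : ∃ G : ℝ → ℍ, Continuous G ∧
    Conv G atBot u ∧ Conv G atTop v ∧ (∀ t, (RR u v (G t)).re = 0) ∧
    ∀ t, (RR v u (G t)).re = 0 := by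
  have hu0 : u ≠ 0 := by rintro rfl; simp [dt] at h
  have hv0 : v ≠ 0 := by rintro rfl; simp [dt] at h
  have hI : ∀ t : ℝ, 0 < (((Real.exp t : ℝ) : ℂ) * Complex.I).im := fun t => by
    rw [Complex.im_ofReal_mul, Complex.I_im, mul_one]
    exact Real.exp_pos t
  let w : ℝ → ℍ := fun t => ⟨((Real.exp t : ℝ) : ℂ) * Complex.I, hI t⟩
  have hw : Continuous w := by
    rw [UpperHalfPlane.isEmbedding_coe.continuous_iff]
    change Continuous fun t : ℝ => ((Real.exp t : ℝ) : ℂ) * Complex.I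
    fun_prop
  let G : ℝ → ℍ := fun t => col u v h • w t
  have hG : Continuous G := (continuous_const_smul _).comp hw
  have hR : ∀ t, RR u v (G t) = ((dt u v * Real.exp t : ℝ) : ℂ) * Complex.I := by
    intro t
    have h1 : RR u v (G t) = dt u v * (w t : ℂ) := RR_col u v h (w t)
    have h2 : (w t : ℂ) = ((Real.exp t : ℝ) : ℂ) * Complex.I := rfl
    rw [h1, h2]
    push_cast
    ring
  have hR' : ∀ t, RR v u (G t) = ((-(dt u v)⁻¹ * Real.exp (-t) : ℝ) : ℂ) * Complex.I := by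
    intro t
    have h1 : RR v u (G t) = (RR u v (G t))⁻¹ := by
      unfold RR
      rw [inv_div]
    rw [h1, hR, mul_inv, Complex.inv_I, Real.exp_neg]
    push_cast
    ring
  refine ⟨G, hG, ?_, ?_, ?_, ?_⟩
  · refine Conv.of_one h ?_
    simp only [hR]
    have h1 : Tendsto (fun t : ℝ => dt u v * Real.exp t) atBot (𝓝 (dt u v * 0)) :=
      Real.tendsto_exp_atBot.const_mul _
    rw [mul_zero] at h1
    have h2 := ((Complex.continuous_ofReal.tendsto 0).comp h1).mul_const Complex.I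
    rw [Complex.ofReal_zero, zero_mul] at h2
    exact h2
  · refine Conv.of_one (v := u) (by rw [dt_comm, neg_ne_zero]; exact h) ?_
    simp only [hR']
    have h1 : Tendsto (fun t : ℝ => -(dt u v)⁻¹ * Real.exp (-t)) atTop (𝓝 (-(dt u v)⁻¹ * 0)) :=
      (Real.tendsto_exp_atBot.comp tendsto_neg_atTop_atBot).const_mul _
    rw [mul_zero] at h1
    have h2 := ((Complex.continuous_ofReal.tendsto 0).comp h1).mul_const Complex.I
    rw [Complex.ofReal_zero, zero_mul] at h2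
    exact h2
  · intro t
    rw [hR, Complex.re_ofReal_mul, Complex.I_re, mul_zero]
  · intro t
    rw [hR', Complex.re_ofReal_mul, Complex.I_re, mul_zero]

variable {Γ : Subgroup SL(2, ℝ)} (hΓ : Hyp Γ)

include hΓ in
lemma con_geod {x : Γ} (hx : x ≠ 1) {u v : ℝ × ℝ} (huv : dt u v ≠ 0) (hpar : dt u (att x) = 0)
    {c : ℝ → ℍ} {l : Filter ℝ} (h0 : Conv c l u) (him : ∀ t, (RR u v (c t)).re = 0) :
    Con x c l := by
  have hx1 : (x : SL(2, ℝ)) ≠ 1 := fun h => hx (Subtype.ext h)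
  obtain ⟨hne, μ, hμ, hu, hv⟩ := (hΓ.att x.2 hx1).pair
    (hΓ.att (Γ.inv_mem x.2) (inv_ne_one.mpr hx1))
  exact con_of_imag huv hne hμ hu hv hpar h0 him

include hΓ in
/-- Common ends are preserved. -/
lemma par_imp {φ : ℍ ≃ₜ ℍ} {θ : MulAut Γ} (h : Eqv φ θ) {x y : Γ} (hx : x ≠ 1) (hy : y ≠ 1)
    (hxy : dt (att x) (att y) = 0) : dt (att (θ x)) (att (θ y)) = 0 := by
  have hx1 : (x : SL(2, ℝ)) ≠ 1 := fun h => hx (Subtype.ext h)
  obtain ⟨hne, -⟩ := (hΓ.att x.2 hx1).pair (hΓ.att (Γ.inv_mem x.2) (inv_ne_one.mpr hx1))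
  obtain ⟨G, hG, h1, h2, h3, h4⟩ := exists_geod hne
  have c1 : Con x G atBot := con_geod hΓ hx hne (dt_self _) h1 h3
  have c2 : Con y G atBot := con_geod hΓ hy hne hxy h1 h3
  exact ((c1.map h).conv hΓ (map_ne_one θ hx)).unique ((c2.map h).conv hΓ (map_ne_one θ hy))

include hΓ in
lemma par_iff {φ : ℍ ≃ₜ ℍ} {θ : MulAut Γ} (h : Eqv φ θ) {x y : Γ} (hx : x ≠ 1) (hy : y ≠ 1) :
    dt (att x) (att y) = 0 ↔ dt (att (θ x)) (att (θ y)) = 0 := by
  refine ⟨par_imp hΓ h hx hy, fun h1 => ?_⟩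
  have h2 := par_imp hΓ h.symm (map_ne_one θ hx) (map_ne_one θ hy) h1
  have hap : ∀ z : Γ, θ⁻¹ (θ z) = z := fun z => by
    rw [← MulAut.mul_apply, inv_mul_cancel, MulAut.one_apply]
  rwa [hap, hap] at h2

include hΓ in
lemma lk_imp {φ : ℍ ≃ₜ ℍ} {θ : MulAut Γ} (h : Eqv φ θ) {x y x' y' : Γ} (hx : x ≠ 1) (hy : y ≠ 1)
    (hx' : x' ≠ 1) (hy' : y' ≠ 1) (hlk : Lk (att x) (att y) (att x') (att y')) :
    Lk (att (θ x)) (att (θ y)) (att (θ x')) (att (θ y')) := by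
  have hap : ∀ z : Γ, θ⁻¹ (θ z) = z := fun z => by
    rw [← MulAut.mul_apply, inv_mul_cancel, MulAut.one_apply]
  have hlk' : Lk (att x') (att y') (att x) (att y) := by
    unfold Lk
    rw [lkp_comm]
    exact hlk
  have n1 : dt (att (θ x)) (att (θ y)) ≠ 0 := fun h0 => hlk.ne' ((par_iff hΓ h hx hy).mpr h0)
  have n2 : dt (att (θ x')) (att (θ y')) ≠ 0 :=
    fun h0 => hlk'.ne' ((par_iff hΓ h hx' hy').mpr h0)
  have m1 : dt (att (θ x)) (att (θ x')) ≠ 0 :=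
    fun h0 => hlk.ne.1 ((par_iff hΓ h hx hx').mpr h0)
  have m2 : dt (att (θ x)) (att (θ y')) ≠ 0 :=
    fun h0 => hlk.ne.2.1 ((par_iff hΓ h hx hy').mpr h0)
  have m3 : dt (att (θ y)) (att (θ x')) ≠ 0 :=
    fun h0 => hlk.ne.2.2.1 ((par_iff hΓ h hy hx').mpr h0)
  have m4 : dt (att (θ y)) (att (θ y')) ≠ 0 :=
    fun h0 => hlk.ne.2.2.2 ((par_iff hΓ h hy hy').mpr h0)
  obtain ⟨G, hG, g1, g2, g3, g4⟩ := exists_geod n1
  obtain ⟨G', hG', g1', g2', g3', g4'⟩ := exists_geod n2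
  have n1' : dt (att (θ y)) (att (θ x)) ≠ 0 := by rw [dt_comm, neg_ne_zero]; exact n1
  have n2' : dt (att (θ y')) (att (θ x')) ≠ 0 := by rw [dt_comm, neg_ne_zero]; exact n2
  have c1 : Con (θ x) G atBot := con_geod hΓ (map_ne_one θ hx) n1 (dt_self _) g1 g3
  have c2 : Con (θ y) G atTop := con_geod hΓ (map_ne_one θ hy) n1' (dt_self _) g2 g4
  have c1' : Con (θ x') G' atBot := con_geod hΓ (map_ne_one θ hx') n2 (dt_self _) g1' g3'
  have c2' : Con (θ y') G' atTop := con_geod hΓ (map_ne_one θ hy') n2' (dt_self _) g2' g4'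
  have d1 := c1.map h.symm
  have d2 := c2.map h.symm
  have d1' := c1'.map h.symm
  have d2' := c2'.map h.symm
  rw [hap] at d1 d2 d1' d2'
  obtain ⟨s, t, hst⟩ := crossing (φ.symm.continuous.comp hG) (φ.symm.continuous.comp hG')
    (d1.conv hΓ hx) (d2.conv hΓ hy) (d1'.conv hΓ hx') (d2'.conv hΓ hy') hlk
  have hst' : G s = G' t := φ.symm.injective hst
  have hle := lkp_nonpos (att_ne_zero _) (att_ne_zero _) (g3 s) (by rw [hst']; exact g3' t)
  refine lt_of_le_of_ne hle ?_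
  unfold lkp
  exact mul_ne_zero (mul_ne_zero (mul_ne_zero m1 m2) m3) m4

include hΓ in
/-- **Equivariant homeomorphisms preserve linking.** -/
theorem Eqv.op {φ : ℍ ≃ₜ ℍ} {θ : MulAut Γ} (h : Eqv φ θ) : θ ∈ opg Γ := by
  have hap : ∀ z : Γ, θ⁻¹ (θ z) = z := fun z => by
    rw [← MulAut.mul_apply, inv_mul_cancel, MulAut.one_apply]
  refine ⟨fun x y hx hy => par_iff hΓ h hx hy, fun x y x' y' hx hy hx' hy' =>
    ⟨lk_imp hΓ h hx hy hx' hy', fun h1 => ?_⟩⟩
  have h2 := lk_imp hΓ h.symm (map_ne_one θ hx) (map_ne_one θ hy) (map_ne_one θ hx')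
    (map_ne_one θ hy') h1
  rwa [hap, hap, hap, hap] at h2

end Pool.Agent.Helper2.Fuch
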