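import Mathlib
import Pool.Agent.Helper2.Fuch.Order2

/-!
# Lifting homeomorphisms of a hyperbolic surface to the upper half plane
-/

set_option autoImplicit false

open Topology Set Filter
open scoped MatrixGroups UpperHalfPlane

namespace Pool.Agent.Helper2.Fuch

/-- The quotient surface. -/
abbrev Surf (Γ : Subgroup SL(2, ℝ)) : Type := MulAction.orbitRel.Quotient Γ ℍ

/-- The projection. -/
noncomputable def pr (Γ : Subgroup SL(2, ℝ)) : ℍ → Surf Γ := Quotient.mk (MulAction.orbitRel Γ ℍ)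

variable {Γ : Subgroup SL(2, ℝ)}

lemma pr_eq {z w : ℍ} : pr Γ z = pr Γ w ↔ ∃ g : Γ, g • w = z := by
  unfold pr
  rw [Quotient.eq]
  exact Iff.rfl

lemma pr_smul (g : Γ) (z : ℍ) : pr Γ (g • z) = pr Γ z := pr_eq.mpr ⟨g, rfl⟩

lemma pr_surj : Function.Surjective (pr Γ) := Quotient.mk_surjective

lemma Hyp.free (hΓ : Hyp Γ) {g : Γ} {z : ℍ} (h : g • z = z) : g = 1 := by
  by_contra hg
  have hg1 : (g : SL(2, ℝ)) ≠ 1 := fun h => hg (Subtype.ext h)
  obtain ⟨hne, μ, hμ, hu, hv⟩ := (hΓ.att g.2 hg1).pair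
    (hΓ.att (Γ.inv_mem g.2) (inv_ne_one.mpr hg1))
  have hμ0 : μ ≠ 0 := by rintro rfl; simp at hμ; linarith
  have h1 := RR_pow hμ0 hu hv 1 z
  have h2 : ((g : SL(2, ℝ)) ^ 1) • z = z := by rw [pow_one]; exact h
  rw [h2] at h1
  have h3 : RR (Fuch.att (g : SL(2, ℝ))) (Fuch.att ((g : SL(2, ℝ))⁻¹)) z ≠ 0 :=
    div_ne_zero (DD_ne_zero (att_ne_zero _) z) (DD_ne_zero (att_ne_zero _) z)
  have h4 : ((μ : ℂ) ^ (2 * 1))⁻¹ = 1 := by
    have := congrArg (fun w => w / RR (Fuch.att (g : SL(2, ℝ))) (Fuch.att ((g : SL(2, ℝ))⁻¹)) z) h1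
    simp only [div_self h3, mul_div_assoc, mul_one] at this
    exact this.symm
  have h5 : μ ^ 2 = 1 := by
    have h6 : (μ : ℂ) ^ 2 = 1 := by
      rw [mul_one, inv_eq_one] at h4
      exact h4
    exact_mod_cast h6
  have h6 : |μ| ^ 2 = 1 := by rw [sq_abs, h5]
  nlinarith [abs_nonneg μ]

lemma Hyp.cancel (hΓ : Hyp Γ) : IsCancelSMul Γ ℍ where
  right_cancel' a b c h := by
    have h1 : (b⁻¹ * a) • c = c := by rw [mul_smul, h, inv_smul_smul]
    have h2 := hΓ.free h1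
    rw [inv_mul_eq_one] at h2
    exact h2.symm

variable [DiscreteTopology Γ]

lemma Hyp.cover (hΓ : Hyp Γ) : IsQuotientCoveringMap (pr Γ) Γ := by
  have := hΓ.cancel
  exact isQuotientCoveringMap_quotientMk_of_properlyDiscontinuousSMul

lemma Hyp.isCov (hΓ : Hyp Γ) : IsCoveringMap (pr Γ) := hΓ.cover.isCoveringMap

omit [DiscreteTopology Γ] in
lemma pr_continuous : Continuous (pr Γ) := continuous_quotient_mk'

omit [DiscreteTopology Γ] in
lemma pr_open : IsOpenMap (pr Γ) := isOpenMap_quotient_mk'_mul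

omit [DiscreteTopology Γ] in
lemma pr_nhds {z : ℍ} {U : Set (Surf Γ)} (hU : U ∈ 𝓝 (pr Γ z)) :
    ∃ V : Set ℍ, IsOpen V ∧ z ∈ V ∧ MapsTo (pr Γ) V U := by
  obtain ⟨V, hVU, hVo, hzV⟩ := mem_nhds_iff.mp (pr_continuous.continuousAt hU)
  exact ⟨V, hVo, hzV, hVU⟩

instance : T2Space (Surf Γ) := inferInstance

omit [DiscreteTopology Γ] in
instance locComp : LocallyCompactSpace (Surf Γ) where
  local_compact_nhds := by
    intro x n hn
    obtain ⟨z, rfl⟩ := pr_surj x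
    obtain ⟨K, hK, hKn, hKc⟩ := LocallyCompactSpace.local_compact_nhds z _
      (pr_continuous.continuousAt hn)
    refine ⟨pr Γ '' K, pr_open.image_mem_nhds hK, ?_, hKc.image pr_continuous⟩
    rintro _ ⟨w, hw, rfl⟩
    exact hKn hw

omit [DiscreteTopology Γ] in
instance locConn : LocallyConnectedSpace (Surf Γ) := inferInstance

/-- Lifts of continuous maps. -/
lemma Hyp.exists_lift (hΓ : Hyp Γ) {F : Surf Γ → Surf Γ} (hF : Continuous F) {a b : ℍ}
    (hab : pr Γ b = F (pr Γ a)) : ∃ φ : ℍ → ℍ, Continuous φ ∧ φ a = b ∧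
      ∀ z, pr Γ (φ z) = F (pr Γ z) := by
  obtain ⟨φ, ⟨h1, h2⟩, -⟩ := hΓ.isCov.existsUnique_continuousMap_lifts
    (⟨F ∘ pr Γ, hF.comp pr_continuous⟩ : C(ℍ, Surf Γ)) a b hab
  exact ⟨φ, φ.continuous, h1, fun z => congrFun h2 z⟩

lemma Hyp.lift_unique (hΓ : Hyp Γ) {A : Type*} [TopologicalSpace A] [PreconnectedSpace A]
    {φ ψ : A → ℍ} (hφ : Continuous φ)
    (hψ : Continuous ψ) (h : ∀ z, pr Γ (φ z) = pr Γ (ψ z)) {a : A} (ha : φ a = ψ a) : φ = ψ :=
  hΓ.isCov.eq_of_comp_eq hφ hψ (funext h) a ha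

instance : PathConnectedSpace ℍ := inferInstance

/-- Lifts of homeomorphisms. -/
theorem Hyp.exists_homeo (hΓ : Hyp Γ) (H : Surf Γ ≃ₜ Surf Γ) {a b : ℍ}
    (hab : pr Γ b = H (pr Γ a)) : ∃ φ : ℍ ≃ₜ ℍ, φ a = b ∧ ∀ z, pr Γ (φ z) = H (pr Γ z) := by
  obtain ⟨φ, hφc, hφa, hφ⟩ := hΓ.exists_lift H.continuous hab
  have hba : pr Γ a = H.symm (pr Γ b) := by rw [hab, Homeomorph.symm_apply_apply]
  obtain ⟨ψ, hψc, hψb, hψ⟩ := hΓ.exists_lift H.symm.continuous hba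
  have h1 : ψ ∘ φ = id := by
    refine hΓ.lift_unique (hψc.comp hφc) continuous_id (fun z => ?_) (a := a) ?_
    · rw [Function.comp_apply, hψ, hφ, Homeomorph.symm_apply_apply]
      rfl
    · rw [Function.comp_apply, hφa, hψb]
      rfl
  have h2 : φ ∘ ψ = id := by
    refine hΓ.lift_unique (hφc.comp hψc) continuous_id (fun z => ?_) (a := b) ?_
    · rw [Function.comp_apply, hφ, hψ, Homeomorph.apply_symm_apply]
      rfl
    · rw [Function.comp_apply, hψb, hφa]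
      rfl
  exact ⟨⟨⟨φ, ψ, fun z => congrFun h1 z, fun z => congrFun h2 z⟩, hφc, hψc⟩, hφa, hφ⟩

/-- A lift of a homeomorphism is equivariant with respect to an automorphism. -/
theorem Hyp.exists_eqv (hΓ : Hyp Γ) {H : Surf Γ ≃ₜ Surf Γ} {φ : ℍ ≃ₜ ℍ}
    (hφ : ∀ z, pr Γ (φ z) = H (pr Γ z)) : ∃ θ : MulAut Γ, Eqv φ θ := by
  have hc : ∀ g : Γ, ∃ g' : Γ, ∀ z, φ (g • z) = g' • φ z := by
    intro g
    have h1 : pr Γ (φ (g • UpperHalfPlane.I)) = pr Γ (φ UpperHalfPlane.I) := by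
      rw [hφ, hφ, pr_smul]
    obtain ⟨g', hg'⟩ := pr_eq.mp h1
    refine ⟨g', fun z => ?_⟩
    have hcs : Continuous (fun z : ℍ => g • z) := continuous_const_smul g
    have hcs' : Continuous (fun z : ℍ => g' • z) := continuous_const_smul g'
    have h2 : (fun z => φ (g • z)) = fun z => g' • φ z := by
      refine hΓ.lift_unique (φ.continuous.comp hcs) (hcs'.comp φ.continuous) (fun z => ?_)
        (a := UpperHalfPlane.I) hg'.symm
      rw [hφ, pr_smul, pr_smul, hφ]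
    exact congrFun h2 z
  choose θ hθ using hc
  have huniq : ∀ {g g' : Γ} {z : ℍ}, g • z = g' • z → g = g' := by
    intro g g' z h
    have h1 : (g'⁻¹ * g) • z = z := by rw [mul_smul, h, inv_smul_smul]
    have h2 := hΓ.free h1
    rw [inv_mul_eq_one] at h2
    exact h2.symm
  have hmul : ∀ g g', θ (g * g') = θ g * θ g' := by
    intro g g'
    refine huniq (z := φ UpperHalfPlane.I) ?_
    rw [← hθ, mul_smul, mul_smul, hθ, hθ]
  have hinj : Function.Injective θ := by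
    intro g g' h
    refine huniq (z := UpperHalfPlane.I) (φ.injective ?_)
    rw [hθ, hθ, h]
  have hsurj : Function.Surjective θ := by
    intro g'
    have h1 : pr Γ (φ.symm (g' • φ UpperHalfPlane.I)) = pr Γ UpperHalfPlane.I := by
      apply H.injective
      rw [← hφ, ← hφ, Homeomorph.apply_symm_apply, pr_smul]
    obtain ⟨g, hg⟩ := pr_eq.mp h1
    refine ⟨g, huniq (z := φ UpperHalfPlane.I) ?_⟩
    rw [← hθ, hg, Homeomorph.apply_symm_apply]
  exact ⟨MulEquiv.ofBijective (⟨⟨θ, by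
      refine huniq (z := φ UpperHalfPlane.I) ?_
      rw [← hθ, one_smul, one_smul]⟩, hmul⟩ : Γ →* Γ) ⟨hinj, hsurj⟩, hθ⟩

omit [DiscreteTopology Γ] in
lemma Hyp.eqv_unique (hΓ : Hyp Γ) {φ : ℍ ≃ₜ ℍ} {θ θ' : MulAut Γ} (h : Eqv φ θ) (h' : Eqv φ θ') :
    θ = θ' := by
  ext1 g
  have h1 := h g UpperHalfPlane.I
  rw [h' g] at h1
  have h2 : ((θ g)⁻¹ * θ' g) • φ UpperHalfPlane.I = φ UpperHalfPlane.I := by
    rw [mul_smul, h1, inv_smul_smul]
  have h3 := hΓ.free h2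
  rw [inv_mul_eq_one] at h3
  exact h3

omit [DiscreteTopology Γ] in
lemma Eqv.mul {φ ψ : ℍ ≃ₜ ℍ} {θ η : MulAut Γ} (h : Eqv φ θ) (h' : Eqv ψ η) :
    Eqv (φ * ψ) (θ * η) := by
  intro g z
  change φ (ψ (g • z)) = θ (η g) • φ (ψ z)
  rw [h', h]

end Pool.Agent.Helper2.Fuch
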