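import Mathlib
import Pool.Agent.Helper2.Planar.Ends
import Pool.Agent.Helper2.Planar.Induce

/-!
# Homeomorphisms of a punctured space
-/

set_option autoImplicit false

open Topology Set Filter

namespace Pool.Agent.Helper2.Fuch

open Pool.Agent.Helper2.Genus Pool.Agent.Helper2.Planar

section Defs

variable {X : Type*} [TopologicalSpace X]

/-- `h` extends to a homeomorphism of `X`. -/
def Extends (q : X) (h : ({q}ᶜ : Set X) ≃ₜ ({q}ᶜ : Set X)) : Prop :=
  ∃ H : X ≃ₜ X, ∀ x : ({q}ᶜ : Set X), H (x : X) = h x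

lemma Extends.one (q : X) : Extends q 1 := ⟨1, fun _ => rfl⟩

lemma Extends.mul {q : X} {g h : ({q}ᶜ : Set X) ≃ₜ ({q}ᶜ : Set X)} (hg : Extends q g)
    (hh : Extends q h) : Extends q (g * h) := by
  obtain ⟨G, hG⟩ := hg
  obtain ⟨H, hH⟩ := hh
  refine ⟨G * H, fun x => ?_⟩
  change G (H x) = g (h x)
  rw [hH, hG]

lemma Extends.inv {q : X} {h : ({q}ᶜ : Set X) ≃ₜ ({q}ᶜ : Set X)} (hh : Extends q h) :
    Extends q h⁻¹ := by
  obtain ⟨H, hH⟩ := hh
  refine ⟨H⁻¹, fun x => ?_⟩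
  change H.symm x = h.symm x
  rw [Homeomorph.symm_apply_eq, hH, Homeomorph.apply_symm_apply]

/-- The homeomorphisms of `X ∖ {q}` which extend to homeomorphisms of `X`. -/
def extendable (q : X) : Subgroup (({q}ᶜ : Set X) ≃ₜ ({q}ᶜ : Set X)) where
  carrier := {h | Extends q h}
  one_mem' := Extends.one q
  mul_mem' := Extends.mul
  inv_mem' := Extends.inv

lemma mem_extendable {q : X} {h : ({q}ᶜ : Set X) ≃ₜ ({q}ᶜ : Set X)} :
    h ∈ extendable q ↔ ∃ H : X ≃ₜ X, ∀ x : ({q}ᶜ : Set X), H (x : X) = h x := Iff.rfl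

lemma ext_fix {q : X} {h : ({q}ᶜ : Set X) ≃ₜ ({q}ᶜ : Set X)} {H : X ≃ₜ X}
    (hH : ∀ x : ({q}ᶜ : Set X), H (x : X) = h x) : H q = q := by
  by_contra hne
  have h1 := hH (h.symm ⟨H q, hne⟩)
  rw [Homeomorph.apply_symm_apply] at h1
  exact (h.symm ⟨H q, hne⟩).2 (H.injective h1)

open Classical in
/-- The extension by a fixed point. -/
noncomputable def extFun (q : X) (h : ({q}ᶜ : Set X) → ({q}ᶜ : Set X)) (x : X) : X :=
  if hx : x = q then q else h ⟨x, hx⟩

omit [TopologicalSpace X] in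
lemma extFun_self (q : X) (h : ({q}ᶜ : Set X) → ({q}ᶜ : Set X)) : extFun q h q = q := by
  unfold extFun
  rw [dif_pos rfl]

omit [TopologicalSpace X] in
lemma extFun_coe (q : X) (h : ({q}ᶜ : Set X) → ({q}ᶜ : Set X)) (x : ({q}ᶜ : Set X)) :
    extFun q h (x : X) = h x := by
  have h0 : ¬ ((x : X) = q) := x.2
  exact dif_neg h0

lemma map_comap_punct (q : X) :
    map (Subtype.val : ({q}ᶜ : Set X) → X) (comap Subtype.val (𝓝 q)) = 𝓝[≠] q := by
  rw [Filter.map_comap, Subtype.range_coe]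
  rfl

lemma continuous_extFun [T1Space X] {q : X} {h : ({q}ᶜ : Set X) → ({q}ᶜ : Set X)}
    (hh : Continuous h)
    (ht : Tendsto (fun x => (h x : X)) (comap Subtype.val (𝓝 q)) (𝓝 q)) :
    Continuous (extFun q h) := by
  rw [continuous_iff_continuousAt]
  intro x
  by_cases hx : x = q
  · rw [hx, continuousAt_iff_punctured_nhds, extFun_self, ← map_comap_punct, tendsto_map'_iff]
    refine ht.congr fun y => ?_
    exact (extFun_coe q h y).symm
  · have ho : IsOpenEmbedding (Subtype.val : ({q}ᶜ : Set X) → X) :=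
      isOpen_compl_singleton.isOpenEmbedding_subtypeVal
    have h1 : ContinuousAt (extFun q h ∘ (Subtype.val : ({q}ᶜ : Set X) → X)) ⟨x, hx⟩ := by
      have h2 : extFun q h ∘ (Subtype.val : ({q}ᶜ : Set X) → X) = fun y => (h y : X) := by
        funext y
        exact extFun_coe q h y
      rw [h2]
      exact (continuous_subtype_val.comp hh).continuousAt
    exact ho.continuousAt_iff.mp h1

/-- The extension as a homeomorphism. -/
noncomputable def extHom [T1Space X] {q : X} (h : ({q}ᶜ : Set X) ≃ₜ ({q}ᶜ : Set X))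
    (ht : Tendsto (fun x => (h x : X)) (comap Subtype.val (𝓝 q)) (𝓝 q))
    (ht' : Tendsto (fun x => (h.symm x : X)) (comap Subtype.val (𝓝 q)) (𝓝 q)) : X ≃ₜ X where
  toFun := extFun q h
  invFun := extFun q h.symm
  left_inv x := by
    by_cases hx : x = q
    · rw [hx, extFun_self, extFun_self]
    · have h1 := extFun_coe q h ⟨x, hx⟩
      have h2 := extFun_coe q h.symm (h ⟨x, hx⟩)
      rw [Homeomorph.symm_apply_apply] at h2
      change extFun q h.symm (extFun q h x) = x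
      rw [← h1] at h2
      exact h2
  right_inv x := by
    by_cases hx : x = q
    · rw [hx, extFun_self, extFun_self]
    · have h1 := extFun_coe q h.symm ⟨x, hx⟩
      have h2 := extFun_coe q h (h.symm ⟨x, hx⟩)
      rw [Homeomorph.apply_symm_apply] at h2
      change extFun q h (extFun q h.symm x) = x
      rw [← h1] at h2
      exact h2
  continuous_toFun := continuous_extFun h.continuous ht
  continuous_invFun := continuous_extFun h.symm.continuous ht'

lemma extHom_coe [T1Space X] {q : X} {h : ({q}ᶜ : Set X) ≃ₜ ({q}ᶜ : Set X)} {ht ht'}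
    (x : ({q}ᶜ : Set X)) : extHom h ht ht' (x : X) = h x :=
  extFun_coe q h x

lemma extendable_of_tendsto [T1Space X] {q : X} {h : ({q}ᶜ : Set X) ≃ₜ ({q}ᶜ : Set X)}
    (ht : Tendsto (fun x => (h x : X)) (comap Subtype.val (𝓝 q)) (𝓝 q))
    (ht' : Tendsto (fun x => (h.symm x : X)) (comap Subtype.val (𝓝 q)) (𝓝 q)) :
    h ∈ extendable q :=
  ⟨extHom h ht ht', fun _ => extHom_coe _⟩

/-- The extension of an extendable homeomorphism. -/
noncomputable def Ext {q : X} (h : extendable q) : X ≃ₜ X := h.2.choose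

lemma Ext_coe {q : X} (h : extendable q) (x : ({q}ᶜ : Set X)) :
    Ext h (x : X) = (h : ({q}ᶜ : Set X) ≃ₜ ({q}ᶜ : Set X)) x := h.2.choose_spec x

lemma Ext_self {q : X} (h : extendable q) : Ext h q = q := ext_fix (Ext_coe h)

lemma Ext_unique {q : X} (h : extendable q) {H : X ≃ₜ X}
    (hH : ∀ x : ({q}ᶜ : Set X), H (x : X) = (h : ({q}ᶜ : Set X) ≃ₜ ({q}ᶜ : Set X)) x) :
    Ext h = H := by
  ext x
  by_cases hx : x = q
  · rw [hx, Ext_self, ext_fix hH]
  · exact (Ext_coe h ⟨x, hx⟩).trans (hH ⟨x, hx⟩).symm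

lemma Ext_one {q : X} : Ext (1 : extendable q) = 1 := Ext_unique _ fun _ => rfl

lemma Ext_mul {q : X} (g h : extendable q) : Ext (g * h) = Ext g * Ext h := by
  refine Ext_unique _ fun x => ?_
  change Ext g (Ext h x) = _
  rw [Ext_coe h x, Ext_coe g]
  rfl

end Defs

section Near

variable {X : Type*} [TopologicalSpace X] [T2Space X] {q : X}

/-- The hypothesis on the point `q`. -/
structure Punctual (q : X) : Prop where
  lc : ∀ U ∈ 𝓝 q, ∃ N ∈ 𝓝 q, N ⊆ U ∧ IsPreconnected (Subtype.val ⁻¹' N : Set ({q}ᶜ : Set X))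
  ne : (comap (Subtype.val : ({q}ᶜ : Set X) → X) (𝓝 q)).NeBot

variable (hq : Punctual q)

/-- Compact subsets of the punctured space do not accumulate at `q`. -/
lemma leaves {K : Set ({q}ᶜ : Set X)} (hK : IsCompact K) :
    ∀ᶠ x in comap (Subtype.val : ({q}ᶜ : Set X) → X) (𝓝 q), x ∉ K := by
  have h1 : IsClosed (Subtype.val '' K : Set X) := (hK.image continuous_subtype_val).isClosed
  have h2 : (Subtype.val '' K : Set X)ᶜ ∈ 𝓝 q := by
    refine h1.isOpen_compl.mem_nhds ?_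
    rintro ⟨x, -, hx⟩
    exact x.2 hx
  filter_upwards [preimage_mem_comap h2] with x hx hxK
  exact hx ⟨x, hxK, rfl⟩

omit [T2Space X] in
lemma compact_preimage {K : Set X} (hK : IsCompact K) (hqK : q ∉ K) :
    IsCompact (Subtype.val ⁻¹' K : Set ({q}ᶜ : Set X)) := by
  rw [Subtype.isCompact_iff, Subtype.image_preimage_coe]
  rwa [inter_eq_right.mpr]
  intro x hx hxq
  rw [mem_singleton_iff] at hxq
  rw [hxq] at hx
  exact hqK hx

/-- If the images stay in a compact set then they converge to the puncture. -/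
lemma tendsto_of_compact (h : ({q}ᶜ : Set X) ≃ₜ ({q}ᶜ : Set X)) {V : Set X}
    (hVc : IsCompact V)
    (hV : ∀ᶠ x in comap (Subtype.val : ({q}ᶜ : Set X) → X) (𝓝 q), (h x : X) ∈ V) :
    Tendsto (fun x => (h x : X)) (comap Subtype.val (𝓝 q)) (𝓝 q) := by
  intro U hU
  obtain ⟨O, hOU, hOo, hqO⟩ := mem_nhds_iff.mp hU
  have hK : IsCompact (Subtype.val ⁻¹' (V \ O) : Set ({q}ᶜ : Set X)) :=
    compact_preimage (hVc.diff hOo) (fun h => h.2 hqO)
  have h1 : IsCompact (h ⁻¹' (Subtype.val ⁻¹' (V \ O))) := by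
    rw [← h.image_symm]
    exact hK.image h.symm.continuous
  rw [mem_map]
  filter_upwards [hV, leaves h1] with x hx1 hx2
  by_contra hx3
  exact hx2 ⟨hx1, fun h => hx3 (hOU h)⟩

include hq in
lemma tendsto_symm_aux (h : ({q}ᶜ : Set X) ≃ₜ ({q}ᶜ : Set X))
    (ht : Tendsto (fun x => (h x : X)) (comap Subtype.val (𝓝 q)) (𝓝 q)) {V : Set X}
    (hVo : IsOpen V) (hqV : q ∈ V) (hVc : IsCompact (closure V)) :
    ∀ᶠ x in comap (Subtype.val : ({q}ᶜ : Set X) → X) (𝓝 q), (h.symm x : X) ∈ V := by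
  have hne := hq.ne
  have hfr : q ∉ frontier V := by
    rw [hVo.frontier_eq]
    exact fun h => h.2 hqV
  have hK : IsCompact (Subtype.val ⁻¹' (frontier V) : Set ({q}ᶜ : Set X)) :=
    compact_preimage (hVc.of_isClosed_subset isClosed_frontier frontier_subset_closure) hfr
  have h2 := leaves (hK.image h.continuous)
  obtain ⟨W₀, hW₀, hW₀'⟩ := mem_comap.mp h2
  obtain ⟨W, hW, hWW₀, hWc⟩ := hq.lc W₀ hW₀
  have hpre : IsPreconnected ((fun x => (h.symm x : X)) '' (Subtype.val ⁻¹' W)) :=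
    hWc.image _ (continuous_subtype_val.comp h.symm.continuous).continuousOn
  have hcover : (fun x => (h.symm x : X)) '' (Subtype.val ⁻¹' W) ⊆ V ∪ (closure V)ᶜ := by
    rintro _ ⟨x, hx, rfl⟩
    by_contra hz
    rw [mem_union, not_or, mem_compl_iff, not_not] at hz
    have hfr : (h.symm x : X) ∈ frontier V := by
      rw [hVo.frontier_eq]
      exact ⟨hz.2, hz.1⟩
    refine hW₀' (hWW₀ hx) ⟨h.symm x, hfr, ?_⟩
    rw [Homeomorph.apply_symm_apply]
  have e1 : ∀ᶠ x in comap (Subtype.val : ({q}ᶜ : Set X) → X) (𝓝 q), (h x : X) ∈ W := ht hW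
  have e2 : ∀ᶠ x : ({q}ᶜ : Set X) in comap (Subtype.val : ({q}ᶜ : Set X) → X) (𝓝 q),
      (x : X) ∈ V := preimage_mem_comap (hVo.mem_nhds hqV)
  obtain ⟨x, hx1, hx2⟩ := (e1.and e2).exists
  have hsub := hpre.subset_left_of_subset_union hVo isClosed_closure.isOpen_compl
    (disjoint_compl_right.mono_left subset_closure) hcover
    ⟨x, ⟨h x, hx1, by simp⟩, hx2⟩
  filter_upwards [preimage_mem_comap hW] with y hy
  exact hsub ⟨y, hy, rfl⟩

variable [LocallyCompactSpace X]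

omit [T2Space X] in
lemma exists_relcompact {q : X} {U : Set X} (hU : U ∈ 𝓝 q) [T2Space X] :
    ∃ V, IsOpen V ∧ q ∈ V ∧ closure V ⊆ U ∧ IsCompact (closure V) := by
  obtain ⟨O, hOU, hOo, hqO⟩ := mem_nhds_iff.mp hU
  obtain ⟨V, hVo, hqV, hVU, hVc⟩ := exists_open_between_and_isCompact_closure
    (isCompact_singleton (x := q)) hOo (singleton_subset_iff.mpr hqO)
  exact ⟨V, hVo, singleton_subset_iff.mp hqV, hVU.trans hOU, hVc⟩

include hq in
lemma tendsto_symm (h : ({q}ᶜ : Set X) ≃ₜ ({q}ᶜ : Set X))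
    (ht : Tendsto (fun x => (h x : X)) (comap Subtype.val (𝓝 q)) (𝓝 q)) :
    Tendsto (fun x => (h.symm x : X)) (comap Subtype.val (𝓝 q)) (𝓝 q) := by
  obtain ⟨V, hVo, hqV, -, hVc⟩ := exists_relcompact (q := q) univ_mem
  refine tendsto_of_compact h.symm hVc ?_
  filter_upwards [tendsto_symm_aux hq h ht hVo hqV hVc] with x hx
  exact subset_closure hx

variable [LocallyConnectedSpace X]

include hq in
/-- Homeomorphisms close to the identity move a neighbourhood of the puncture only a little. -/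
lemma near_one {U : Set X} (hU : U ∈ 𝓝 q) :
    ∃ N ∈ 𝓝 q, N ⊆ U ∧ ∀ᶠ h : ({q}ᶜ : Set X) ≃ₜ ({q}ᶜ : Set X) in 𝓝 1,
      ∀ x : ({q}ᶜ : Set X), (x : X) ∈ N → (h x : X) ∈ U := by
  have hne := hq.ne
  have ho : IsOpenEmbedding (Subtype.val : ({q}ᶜ : Set X) → X) :=
    isOpen_compl_singleton.isOpenEmbedding_subtypeVal
  have : LocallyCompactSpace ({q}ᶜ : Set X) := ho.locallyCompactSpace
  have : LocallyConnectedSpace ({q}ᶜ : Set X) := ho.locallyConnectedSpace
  obtain ⟨V, hVo, hqV, hVU, hVc⟩ := exists_relcompact hU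
  have hfr : q ∉ frontier V := by
    rw [hVo.frontier_eq]
    exact fun h => h.2 hqV
  have hK : IsCompact (Subtype.val ⁻¹' (frontier V) : Set ({q}ᶜ : Set X)) :=
    compact_preimage (hVc.of_isClosed_subset isClosed_frontier frontier_subset_closure) hfr
  obtain ⟨V', hV'o, hqV', hV'V, -⟩ := exists_relcompact (hVo.mem_nhds hqV)
  obtain ⟨N, hN, hNV', hNc⟩ := hq.lc V' (hV'o.mem_nhds hqV')
  have hNV : N ⊆ V := (hNV'.trans subset_closure).trans hV'V
  refine ⟨N, hN, hNV.trans (subset_closure.trans hVU), ?_⟩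
  obtain ⟨z, hz⟩ : (Subtype.val ⁻¹' N : Set ({q}ᶜ : Set X)).Nonempty :=
    nonempty_of_mem (preimage_mem_comap hN)
  have hO : IsOpen (Subtype.val ⁻¹' (closure V')ᶜ : Set ({q}ᶜ : Set X)) :=
    isClosed_closure.isOpen_compl.preimage continuous_subtype_val
  have hKO : (Subtype.val ⁻¹' (frontier V) : Set ({q}ᶜ : Set X)) ⊆
      Subtype.val ⁻¹' (closure V')ᶜ := by
    intro x hx hx2
    rw [mem_preimage, hVo.frontier_eq] at hx
    exact hx.2 (hV'V hx2)
  have h1 := eventually_preimage_subset hK hO hKO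
  have h2 : ∀ᶠ g : ({q}ᶜ : Set X) ≃ₜ ({q}ᶜ : Set X) in 𝓝 1, (g z : X) ∈ V := by
    have hind : Continuous (fun g : ({q}ᶜ : Set X) ≃ₜ ({q}ᶜ : Set X) =>
        (⟨g, g.continuous⟩ : C(({q}ᶜ : Set X), ({q}ᶜ : Set X)))) := continuous_induced_dom
    have hopen := (ContinuousMap.isOpen_setOfPred_mapsTo (isCompact_singleton (x := z))
      (hVo.preimage continuous_subtype_val)).preimage hind
    have := hopen.mem_nhds (x := (1 : ({q}ᶜ : Set X) ≃ₜ ({q}ᶜ : Set X))) (by
      intro y hy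
      rw [mem_singleton_iff] at hy
      rw [hy]
      exact hNV hz)
    filter_upwards [this] with g hg
    exact hg (mem_singleton z)
  filter_upwards [h1, h2] with g hg1 hg2 x hx
  have hpre : IsPreconnected ((fun x => (g x : X)) '' (Subtype.val ⁻¹' N)) :=
    hNc.image _ (continuous_subtype_val.comp g.continuous).continuousOn
  have hcover : (fun x => (g x : X)) '' (Subtype.val ⁻¹' N) ⊆ V ∪ (closure V)ᶜ := by
    rintro _ ⟨y, hy, rfl⟩
    by_contra hz
    rw [mem_union, not_or, mem_compl_iff, not_not] at hz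
    have hfr : (g y : X) ∈ frontier V := by
      rw [hVo.frontier_eq]
      exact ⟨hz.2, hz.1⟩
    exact hg1 y hfr (subset_closure (hNV' hy))
  have hsub := hpre.subset_left_of_subset_union hVo isClosed_closure.isOpen_compl
    (disjoint_compl_right.mono_left subset_closure) hcover ⟨_, ⟨z, hz, rfl⟩, hg2⟩
  exact hVU (subset_closure (hsub ⟨x, hx, rfl⟩))

include hq in
lemma eventually_extendable :
    ∀ᶠ h : ({q}ᶜ : Set X) ≃ₜ ({q}ᶜ : Set X) in 𝓝 1, h ∈ extendable q := by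
  obtain ⟨V, hVo, hqV, -, hVc⟩ := exists_relcompact (q := q) univ_mem
  obtain ⟨N, hN, -, hNV⟩ := near_one hq (hVo.mem_nhds hqV)
  filter_upwards [hNV] with h hh
  have ht : Tendsto (fun x => (h x : X)) (comap Subtype.val (𝓝 q)) (𝓝 q) := by
    refine tendsto_of_compact h hVc ?_
    filter_upwards [preimage_mem_comap hN] with x hx
    exact subset_closure (hh x hx)
  exact extendable_of_tendsto ht (tendsto_symm hq h ht)

include hq in
/-- Joint continuity of the evaluation. -/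
theorem continuous_Ext : Continuous (fun p : extendable q × X => Ext p.1 p.2) := by
  have ho : IsOpenEmbedding (Subtype.val : ({q}ᶜ : Set X) → X) :=
    isOpen_compl_singleton.isOpenEmbedding_subtypeVal
  have hlc : LocallyCompactSpace ({q}ᶜ : Set X) := ho.locallyCompactSpace
  rw [continuous_iff_continuousAt]
  rintro ⟨h₀, x₀⟩
  by_cases hx : x₀ = q
  · rw [hx]
    intro U hU
    change U ∈ 𝓝 (Ext h₀ q) at hU
    rw [Ext_self] at hU
    have hU' : Ext h₀ ⁻¹' U ∈ 𝓝 q := by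
      refine (Ext h₀).continuous.continuousAt ?_
      rw [Ext_self]
      exact hU
    obtain ⟨N, hN, hNU, hev⟩ := near_one hq hU'
    have h1 : Tendsto (fun h : extendable q => (h₀ : ({q}ᶜ : Set X) ≃ₜ ({q}ᶜ : Set X))⁻¹ * h)
        (𝓝 h₀) (𝓝 1) := by
      have := ((continuous_left (h₀ : ({q}ᶜ : Set X) ≃ₜ ({q}ᶜ : Set X))⁻¹).comp
        continuous_subtype_val).tendsto h₀
      rw [Function.comp_apply, inv_mul_cancel] at this
      exact this
    rw [mem_map, nhds_prod_eq]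
    filter_upwards [prod_mem_prod (h1.eventually hev) hN] with p hp
    obtain ⟨hp1, hp2⟩ := hp
    rw [mem_preimage]
    by_cases hpq : p.2 = q
    · rw [hpq, Ext_self]
      exact mem_of_mem_nhds hU
    · have h2 := hp1 ⟨p.2, hpq⟩ hp2
      rw [mem_preimage] at h2
      have h3 := Ext_coe h₀ ((((h₀ : ({q}ᶜ : Set X) ≃ₜ ({q}ᶜ : Set X))⁻¹ * (p.1 : _)) : ({q}ᶜ : Set X) ≃ₜ ({q}ᶜ : Set X)) ⟨p.2, hpq⟩)
      rw [h3] at h2
      have h4 := Ext_coe p.1 ⟨p.2, hpq⟩
      change Ext p.1 p.2 ∈ U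
      have h5 : Ext p.1 p.2 = ((p.1 : ({q}ᶜ : Set X) ≃ₜ ({q}ᶜ : Set X)) ⟨p.2, hpq⟩ : X) := h4
      rw [h5]
      have h6 : (h₀ : ({q}ᶜ : Set X) ≃ₜ ({q}ᶜ : Set X))
          ((((h₀ : ({q}ᶜ : Set X) ≃ₜ ({q}ᶜ : Set X))⁻¹ * (p.1 : _)) :
            ({q}ᶜ : Set X) ≃ₜ ({q}ᶜ : Set X)) ⟨p.2, hpq⟩) =
          (p.1 : ({q}ᶜ : Set X) ≃ₜ ({q}ᶜ : Set X)) ⟨p.2, hpq⟩ := by
        change ((h₀ : ({q}ᶜ : Set X) ≃ₜ ({q}ᶜ : Set X)) * ((h₀ : ({q}ᶜ : Set X) ≃ₜ ({q}ᶜ : Set X))⁻¹
          * (p.1 : _))) ⟨p.2, hpq⟩ = _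
        rw [mul_inv_cancel_left]
      rw [h6] at h2
      exact h2
  · have hev : Continuous (fun r : (({q}ᶜ : Set X) ≃ₜ ({q}ᶜ : Set X)) × ({q}ᶜ : Set X) =>
        r.1 r.2) := by
      have h1 : Continuous (fun h : ({q}ᶜ : Set X) ≃ₜ ({q}ᶜ : Set X) =>
          (⟨h, h.continuous⟩ : C(({q}ᶜ : Set X), ({q}ᶜ : Set X)))) := continuous_induced_dom
      have h2 : Continuous (fun r : C(({q}ᶜ : Set X), ({q}ᶜ : Set X)) × ({q}ᶜ : Set X) => r.1 r.2) :=
        _root_.ContinuousEval.continuous_eval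
      exact h2.comp ((h1.comp continuous_fst).prodMk continuous_snd)
    have hoe : IsOpenEmbedding (Prod.map (id : extendable q → extendable q)
        (Subtype.val : ({q}ᶜ : Set X) → X)) := IsOpenEmbedding.id.prodMap ho
    have h2 : ContinuousAt ((fun p : extendable q × X => Ext p.1 p.2) ∘
        Prod.map (id : extendable q → extendable q) (Subtype.val : ({q}ᶜ : Set X) → X))
        (h₀, ⟨x₀, hx⟩) := by
      have h3 : (fun p : extendable q × X => Ext p.1 p.2) ∘
          Prod.map (id : extendable q → extendable q) (Subtype.val : ({q}ᶜ : Set X) → X) =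
          fun r => (((r.1 : ({q}ᶜ : Set X) ≃ₜ ({q}ᶜ : Set X)) r.2 : ({q}ᶜ : Set X)) : X) := by
        funext r
        exact Ext_coe r.1 r.2
      rw [h3]
      exact (continuous_subtype_val.comp (hev.comp ((continuous_subtype_val.comp
        continuous_fst).prodMk continuous_snd))).continuousAt
    exact hoe.continuousAt_iff.mp h2

end Near

end Pool.Agent.Helper2.Fuch
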