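import Mathlib
import Pool.Agent.Helper2.Fuch.Lift
import Pool.Agent.Helper2.Fuch.Punct
import Pool.Agent.Helper2.Planar.TotDisc

/-!
# The action of the homeomorphisms fixing a point on the fundamental group
-/

set_option autoImplicit false

open Topology Set Filter
open scoped MatrixGroups UpperHalfPlane unitInterval

namespace Pool.Agent.Helper2.Fuch

open Pool.Agent.Helper2.Genus Pool.Agent.Helper2.Planar

variable {Γ : Subgroup SL(2, ℝ)} [DiscreteTopology Γ] (hΓ : Hyp Γ) {p : ℍ}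

include hΓ in
lemma exists_based {H : Surf Γ ≃ₜ Surf Γ} (hH : H (pr Γ p) = pr Γ p) :
    ∃ φ : ℍ ≃ₜ ℍ, ∃ θ : MulAut Γ, φ p = p ∧ (∀ z, pr Γ (φ z) = H (pr Γ z)) ∧ Eqv φ θ := by
  obtain ⟨φ, h1, h2⟩ := hΓ.exists_homeo H (a := p) (b := p) hH.symm
  obtain ⟨θ, h3⟩ := hΓ.exists_eqv h2
  exact ⟨φ, θ, h1, h2, h3⟩

include hΓ in
lemma based_unique {H : Surf Γ ≃ₜ Surf Γ} {φ φ' : ℍ ≃ₜ ℍ} (h1 : φ p = p) (h1' : φ' p = p)
    (h2 : ∀ z, pr Γ (φ z) = H (pr Γ z)) (h2' : ∀ z, pr Γ (φ' z) = H (pr Γ z)) : φ = φ' := by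
  have := hΓ.lift_unique φ.continuous φ'.continuous (fun z => by rw [h2, h2']) (a := p)
    (by rw [h1, h1'])
  ext1 z
  exact congrFun this z

/-- The based lift. -/
noncomputable def blift (h : extendable (pr Γ p)) : ℍ ≃ₜ ℍ :=
  (exists_based hΓ (Ext_self h)).choose

lemma blift_fix (h : extendable (pr Γ p)) : blift hΓ h p = p :=
  (exists_based hΓ (Ext_self h)).choose_spec.choose_spec.1

lemma blift_pr (h : extendable (pr Γ p)) (z : ℍ) :
    pr Γ (blift hΓ h z) = Ext h (pr Γ z) :=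
  (exists_based hΓ (Ext_self h)).choose_spec.choose_spec.2.1 z

/-- The induced automorphism. -/
noncomputable def rhoFun (h : extendable (pr Γ p)) : MulAut Γ :=
  (exists_based hΓ (Ext_self h)).choose_spec.choose

lemma rhoFun_eqv (h : extendable (pr Γ p)) : Eqv (blift hΓ h) (rhoFun hΓ h) :=
  (exists_based hΓ (Ext_self h)).choose_spec.choose_spec.2.2

lemma blift_mul (g h : extendable (pr Γ p)) : blift hΓ (g * h) = blift hΓ g * blift hΓ h := by
  refine based_unique hΓ (H := Ext (g * h)) (blift_fix hΓ _) ?_ (blift_pr hΓ _) ?_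
  · change blift hΓ g (blift hΓ h p) = p
    rw [blift_fix, blift_fix]
  · intro z
    change pr Γ (blift hΓ g (blift hΓ h z)) = _
    rw [blift_pr, blift_pr, Ext_mul]
    rfl

/-- The induced homomorphism. -/
noncomputable def rho : extendable (pr Γ p) →* MulAut Γ :=
  MonoidHom.mk' (rhoFun hΓ) (fun g h => by
    refine hΓ.eqv_unique (rhoFun_eqv hΓ (g * h)) ?_
    rw [blift_mul]
    exact (rhoFun_eqv hΓ g).mul (rhoFun_eqv hΓ h))

lemma rho_eqv (h : extendable (pr Γ p)) : Eqv (blift hΓ h) (rho hΓ h) := rhoFun_eqv hΓ h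

lemma rho_mem (h : extendable (pr Γ p)) : rho hΓ h ∈ opg Γ := (rho_eqv hΓ h).op hΓ

lemma rho_unique {h : extendable (pr Γ p)} {φ : ℍ ≃ₜ ℍ} {θ : MulAut Γ} (h1 : φ p = p)
    (h2 : ∀ z, pr Γ (φ z) = Ext h (pr Γ z)) (h3 : Eqv φ θ) : rho hΓ h = θ := by
  have h4 := based_unique hΓ h1 (blift_fix hΓ h) h2 (blift_pr hΓ h)
  rw [h4] at h3
  exact hΓ.eqv_unique (rho_eqv hΓ h) h3

include hΓ in
/-- A small disc. -/
lemma exists_disc (p : ℍ) {U : Set ℍ} (hU : U ∈ 𝓝 p) : ∃ r : ℝ, 0 < r ∧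
    Metric.ball (p : ℂ) r ⊆ {z : ℂ | 0 < z.im} ∧
    (∀ z : ℍ, (z : ℂ) ∈ Metric.ball (p : ℂ) r → z ∈ U) ∧
    ∀ g : Γ, ∀ z w : ℍ, (z : ℂ) ∈ Metric.ball (p : ℂ) r → (w : ℂ) ∈ Metric.ball (p : ℂ) r →
      g • z = w → g = 1 := by
  obtain ⟨U', hU', hdis⟩ := hΓ.cover.disjoint p
  have h1 : U ∩ U' ∈ 𝓝 p := inter_mem hU hU'
  rw [UpperHalfPlane.isOpenEmbedding_coe.nhds_eq_comap, mem_comap] at h1
  obtain ⟨V, hV, hVU⟩ := h1
  have h2 : {z : ℂ | 0 < z.im} ∈ 𝓝 (p : ℂ) :=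
    (isOpen_lt continuous_const Complex.continuous_im).mem_nhds p.2
  obtain ⟨r, hr, hrV⟩ := Metric.mem_nhds_iff.mp (inter_mem hV h2)
  refine ⟨r, hr, fun z hz => (hrV hz).2, fun z hz => (hVU (hrV hz).1).1, ?_⟩
  intro g z w hz hw hgz
  refine hdis g ⟨w, ⟨z, (hVU (hrV hz).1).2, hgz⟩, (hVU (hrV hw).1).2⟩

include hΓ in
lemma punctual (p : ℍ) : Punctual (pr Γ p) := by
  have hmain : ∀ U ∈ 𝓝 (pr Γ p), ∃ r : ℝ, 0 < r ∧
      (∀ z : ℍ, (z : ℂ) ∈ Metric.ball (p : ℂ) r → pr Γ z ∈ U) ∧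
      (∀ z : ℍ, (z : ℂ) ∈ Metric.ball (p : ℂ) r → z ≠ p → pr Γ z ≠ pr Γ p) ∧
      Metric.ball (p : ℂ) r ⊆ {z : ℂ | 0 < z.im} := by
    intro U hU
    obtain ⟨r, hr, h1, h2, h3⟩ := exists_disc hΓ p (pr_continuous.continuousAt hU)
    refine ⟨r, hr, fun z hz => h2 z hz, fun z hz hne heq => ?_, h1⟩
    obtain ⟨g, hg⟩ := pr_eq.mp heq
    have h4 := h3 g p z (Metric.mem_ball_self hr) hz hg
    rw [h4, one_smul] at hg
    exact hne hg.symm
  constructor
  · intro U hU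
    obtain ⟨r, hr, h1, h2, h3⟩ := hmain U hU
    set B : Set ℍ := {z : ℍ | (z : ℂ) ∈ Metric.ball (p : ℂ) r} with hB
    have hBo : IsOpen B := Metric.isOpen_ball.preimage UpperHalfPlane.continuous_coe
    refine ⟨pr Γ '' B, (pr_open B hBo).mem_nhds ⟨p, Metric.mem_ball_self hr, rfl⟩, ?_, ?_⟩
    · rintro _ ⟨z, hz, rfl⟩
      exact h1 z hz
    · rw [← IsInducing.subtypeVal.isPreconnected_image, Subtype.image_preimage_coe]
      have h4 : ({pr Γ p}ᶜ ∩ pr Γ '' B : Set (Surf Γ)) = pr Γ '' (B \ {p}) := by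
        ext x
        constructor
        · rintro ⟨hx, z, hz, rfl⟩
          refine ⟨z, ⟨hz, ?_⟩, rfl⟩
          rintro rfl
          exact hx rfl
        · rintro ⟨z, ⟨hz, hzp⟩, rfl⟩
          exact ⟨h2 z hz hzp, z, hz, rfl⟩
      rw [h4]
      refine IsPreconnected.image ?_ _ pr_continuous.continuousOn
      rw [← UpperHalfPlane.isEmbedding_coe.isInducing.isPreconnected_image]
      have h5 : ((↑) : ℍ → ℂ) '' (B \ {p}) = Metric.ball (p : ℂ) r \ {(p : ℂ)} := by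
        ext z
        constructor
        · rintro ⟨w, ⟨hw, hwp⟩, rfl⟩
          exact ⟨hw, fun h => hwp (UpperHalfPlane.ext h)⟩
        · rintro ⟨hz, hzp⟩
          refine ⟨⟨z, h3 hz⟩, ⟨hz, ?_⟩, rfl⟩
          intro h
          exact hzp (congrArg (fun w : ℍ => (w : ℂ)) h)
      rw [h5]
      exact isPreconnected_diff Metric.isOpen_ball (convex_ball _ _).isPreconnected
        isCompact_singleton isTotallyDisconnected_singleton
        (singleton_subset_iff.mpr (Metric.mem_ball_self hr))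
  · rw [comap_neBot_iff]
    intro U hU
    obtain ⟨r, hr, h1, h2, h3⟩ := hmain U hU
    have h4 : (p : ℂ) + (r / 2 : ℝ) ∈ Metric.ball (p : ℂ) r := by
      rw [Metric.mem_ball, dist_eq_norm, add_sub_cancel_left, Complex.norm_real, Real.norm_eq_abs,
        abs_of_pos (by positivity)]
      linarith
    refine ⟨⟨pr Γ ⟨_, h3 h4⟩, h2 ⟨_, h3 h4⟩ h4 ?_⟩, h1 ⟨_, h3 h4⟩ h4⟩
    intro h
    have h5 := congrArg (fun w : ℍ => (w : ℂ)) h
    have h6 : (p : ℂ) + (r / 2 : ℝ) = p := h5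
    rw [add_eq_left, Complex.ofReal_eq_zero] at h6
    linarith

/-- Homeomorphisms close to the identity fix a given element of the group. -/
theorem rho_near (x : Γ) : ∀ᶠ h : (({pr Γ p}ᶜ : Set (Surf Γ)) ≃ₜ ({pr Γ p}ᶜ : Set (Surf Γ))) in
    𝓝 1, ∃ hh : h ∈ extendable (pr Γ p), rho hΓ ⟨h, hh⟩ x = x := by
  obtain ⟨c⟩ : Nonempty (Path p (x • p)) := ⟨PathConnectedSpace.somePath _ _⟩
  have hq := punctual hΓ p
  let A := extendable (pr Γ p)
  let H : C(I × A, Surf Γ) := ⟨fun r => Ext r.2 (pr Γ (c r.1)),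
    (continuous_Ext hq).comp (continuous_snd.prodMk
      (pr_continuous.comp (c.continuous.comp continuous_fst)))⟩
  let f : C(A, ℍ) := ContinuousMap.const A p
  have hH0 : ∀ a : A, H (0, a) = pr Γ (f a) := by
    intro a
    change Ext a (pr Γ (c 0)) = pr Γ p
    rw [c.source, Ext_self]
  let L : C(I × A, ℍ) := hΓ.isCov.liftHomotopy H f hH0
  have hL0 : ∀ a : A, L (0, a) = p := hΓ.isCov.liftHomotopy_zero H f hH0
  have hL : ∀ t, ∀ a : A, pr Γ (L (t, a)) = Ext a (pr Γ (c t)) := fun t a =>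
    congrFun (hΓ.isCov.liftHomotopy_lifts H f hH0) (t, a)
  have hL1 : ∀ a : A, L (1, a) = rho hΓ a x • p := by
    intro a
    have h1 : (fun t : I => L (t, a)) = fun t : I => blift hΓ a (c t) := by
      refine hΓ.lift_unique (L.continuous.comp (Continuous.prodMk_left a))
        ((blift hΓ a).continuous.comp c.continuous) (fun t => ?_) (a := 0) ?_
      · rw [hL, blift_pr]
      · rw [hL0, c.source, blift_fix]
    have h2 := congrFun h1 1
    simp only [c.target] at h2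
    rw [h2, rho_eqv, blift_fix]
  obtain ⟨U, hU, hdis⟩ := hΓ.cover.disjoint p
  have hxU : (fun z : ℍ => x⁻¹ • z) ⁻¹' U ∈ 𝓝 (x • p) := by
    have h1 : Continuous (fun z : ℍ => x⁻¹ • z) := continuous_const_smul _
    refine h1.continuousAt ?_
    rwa [inv_smul_smul]
  have hL11 : L (1, 1) = x • p := by rw [hL1, map_one, MulAut.one_apply]
  have h1 : ∀ᶠ a : A in 𝓝 1, L (1, a) ∈ (fun z : ℍ => x⁻¹ • z) ⁻¹' U := by
    have h2 : Continuous (fun a : A => L (1, a)) := L.continuous.comp (Continuous.prodMk_right 1)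
    refine h2.continuousAt ?_
    rw [hL11]
    exact hxU
  have h2 : ∀ᶠ a : A in 𝓝 1, rho hΓ a x = x := by
    filter_upwards [h1] with a ha
    rw [hL1, mem_preimage, smul_smul] at ha
    have h3 := hdis (x⁻¹ * rho hΓ a x) ⟨_, ⟨p, mem_of_mem_nhds hU, rfl⟩, ha⟩
    rw [inv_mul_eq_one] at h3
    exact h3.symm
  obtain ⟨W, hW, hWs⟩ := mem_comap.mp (nhds_induced Subtype.val (1 : A) ▸ h2)
  filter_upwards [eventually_extendable hq, hW] with h hh1 hh2
  exact ⟨hh1, hWs (a := ⟨h, hh1⟩) hh2⟩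

end Pool.Agent.Helper2.Fuch
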