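import Mathlib
import Pool.Agent.Helper2.Fuch.Based
import Pool.Agent.Helper2.Planar.Push

/-!
# Equivariant homeomorphisms of the upper half plane act transitively
-/

set_option autoImplicit false

open Topology Set Filter
open scoped MatrixGroups UpperHalfPlane

namespace Pool.Agent.Helper2.Fuch

open Pool.Agent.Helper2.Planar

variable {Γ : Subgroup SL(2, ℝ)}

section Ext

variable {B K : Set ℍ}

open Classical in
/-- The equivariant extension of a map supported in `B`. -/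
noncomputable def eqFun (Γ : Subgroup SL(2, ℝ)) (B : Set ℍ) (P : ℍ → ℍ) (z : ℍ) : ℍ :=
  if h : ∃ g : Γ, g⁻¹ • z ∈ B then h.choose • P (h.choose⁻¹ • z) else z

lemma eqFun_smul (hB : ∀ g : Γ, ∀ z w : ℍ, z ∈ B → w ∈ B → g • z = w → g = 1) (P : ℍ → ℍ) (g : Γ)
    {w : ℍ} (hw : w ∈ B) : eqFun Γ B P (g • w) = g • P w := by
  have h : ∃ g' : Γ, g'⁻¹ • (g • w) ∈ B := ⟨g, by rwa [inv_smul_smul]⟩
  have h1 : h.choose = g := by
    have h2 := hB (h.choose⁻¹ * g) w _ hw h.choose_spec (mul_smul _ _ _)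
    rwa [inv_mul_eq_one] at h2
  unfold eqFun
  rw [dif_pos h, h1, inv_smul_smul]

lemma eqFun_of_not (P : ℍ → ℍ) {z : ℍ} (hz : ∀ g : Γ, ∀ w ∈ B, g • w ≠ z) : eqFun Γ B P z = z := by
  have h : ¬ ∃ g : Γ, g⁻¹ • z ∈ B := by
    rintro ⟨g, hg⟩
    exact hz g _ hg (smul_inv_smul g z)
  unfold eqFun
  rw [dif_neg h]

lemma eqFun_eqv (hB : ∀ g : Γ, ∀ z w : ℍ, z ∈ B → w ∈ B → g • z = w → g = 1) (P : ℍ → ℍ)
    (g : Γ) (z : ℍ) : eqFun Γ B P (g • z) = g • eqFun Γ B P z := by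
  by_cases h : ∃ g' : Γ, ∃ w ∈ B, g' • w = z
  · obtain ⟨g', w, hw, rfl⟩ := h
    rw [← mul_smul, eqFun_smul hB P _ hw, eqFun_smul hB P _ hw, mul_smul]
  · push Not at h
    rw [eqFun_of_not P h, eqFun_of_not P]
    intro g' w hw hg
    refine h (g⁻¹ * g') w hw ?_
    rw [mul_smul, hg, inv_smul_smul]

variable [DiscreteTopology Γ]

lemma eqFun_continuous (hBo : IsOpen B) (hK : IsCompact K) (hKB : K ⊆ B)
    (hB : ∀ g : Γ, ∀ z w : ℍ, z ∈ B → w ∈ B → g • z = w → g = 1) {P : ℍ → ℍ}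
    (hP : Continuous P) (hPK : ∀ z ∉ K, P z = z) : Continuous (eqFun Γ B P) := by
  rw [continuous_iff_continuousAt]
  intro z
  by_cases h : ∃ g : Γ, ∃ w ∈ B, g • w = z
  · obtain ⟨g, w, hw, rfl⟩ := h
    have hc : Continuous (fun z : ℍ => g • P (g⁻¹ • z)) := by
      have h1 : Continuous (fun z : ℍ => g • z) := continuous_const_smul g
      have h2 : Continuous (fun z : ℍ => g⁻¹ • z) := continuous_const_smul g⁻¹
      exact h1.comp (hP.comp h2)
    have hO : (fun z : ℍ => g⁻¹ • z) ⁻¹' B ∈ 𝓝 (g • w) := by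
      have h2 : Continuous (fun z : ℍ => g⁻¹ • z) := continuous_const_smul g⁻¹
      refine h2.continuousAt ?_
      rw [inv_smul_smul]
      exact hBo.mem_nhds hw
    refine hc.continuousAt.congr ?_
    filter_upwards [hO] with z hz
    have := eqFun_smul hB P g hz
    rw [smul_inv_smul] at this
    exact this.symm
  · push Not at h
    have hcl : IsClosed (pr Γ ⁻¹' (pr Γ '' K)) :=
      ((hK.image pr_continuous).isClosed).preimage pr_continuous
    have hz : z ∈ (pr Γ ⁻¹' (pr Γ '' K))ᶜ := by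
      rintro ⟨w, hw, hwz⟩
      obtain ⟨g, hg⟩ := pr_eq.mp hwz.symm
      exact h g w (hKB hw) hg
    refine continuousAt_id.congr ?_
    filter_upwards [hcl.isOpen_compl.mem_nhds hz] with y hy
    by_cases h2 : ∃ g : Γ, ∃ w ∈ B, g • w = y
    · obtain ⟨g, w, hw, rfl⟩ := h2
      rw [eqFun_smul hB P g hw, hPK w]
      · rfl
      · intro hwK
        exact hy ⟨w, hwK, (pr_smul g w).symm⟩
    · push Not at h2
      rw [eqFun_of_not P h2]
      rfl

/-- The equivariant extension. -/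
theorem exists_eqHomeo (hBo : IsOpen B) (hK : IsCompact K) (hKB : K ⊆ B)
    (hB : ∀ g : Γ, ∀ z w : ℍ, z ∈ B → w ∈ B → g • z = w → g = 1) (P : ℍ ≃ₜ ℍ)
    (hPK : ∀ z ∉ K, P z = z) : ∃ f : ℍ ≃ₜ ℍ, Eqv f (1 : MulAut Γ) ∧ ∀ z ∈ B, f z = P z := by
  have hPK' : ∀ z ∉ K, P.symm z = z := fun z hz => by
    rw [Homeomorph.symm_apply_eq, hPK z hz]
  have hPB : ∀ z ∈ B, P z ∈ B := by
    intro z hz
    by_cases h : P z ∈ K
    · exact hKB h
    · have h1 := hPK' _ h
      rw [Homeomorph.symm_apply_apply] at h1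
      rwa [← h1]
  have hPB' : ∀ z ∈ B, P.symm z ∈ B := by
    intro z hz
    by_cases h : P.symm z ∈ K
    · exact hKB h
    · have h1 := hPK _ h
      rw [Homeomorph.apply_symm_apply] at h1
      rwa [← h1]
  refine ⟨⟨⟨eqFun Γ B P, eqFun Γ B P.symm, ?_, ?_⟩,
    eqFun_continuous hBo hK hKB hB P.continuous hPK,
    eqFun_continuous hBo hK hKB hB P.symm.continuous hPK'⟩, ?_, ?_⟩
  · intro z
    by_cases h : ∃ g : Γ, ∃ w ∈ B, g • w = z
    · obtain ⟨g, w, hw, rfl⟩ := h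
      rw [eqFun_smul hB _ g hw, eqFun_smul hB _ g (hPB w hw), Homeomorph.symm_apply_apply]
    · push Not at h
      rw [eqFun_of_not _ h, eqFun_of_not _ h]
  · intro z
    by_cases h : ∃ g : Γ, ∃ w ∈ B, g • w = z
    · obtain ⟨g, w, hw, rfl⟩ := h
      rw [eqFun_smul hB _ g hw, eqFun_smul hB _ g (hPB' w hw), Homeomorph.apply_symm_apply]
    · push Not at h
      rw [eqFun_of_not _ h, eqFun_of_not _ h]
  · intro g z
    exact eqFun_eqv hB P g z
  · intro z hz
    have := eqFun_smul hB P 1 hz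
    rwa [one_smul, one_smul] at this

end Ext

/-- The restriction of a homeomorphism of the plane. -/
lemma exists_restrict (h : ℂ ≃ₜ ℂ) {a : ℂ} {R : ℝ} (hR : ∀ e : ℂ, R ≤ dist e a → h e = e)
    (hball : Metric.closedBall a R ⊆ {z : ℂ | 0 < z.im}) :
    ∃ P : ℍ ≃ₜ ℍ, ∀ z : ℍ, ((P z : ℍ) : ℂ) = h z := by
  have hR' : ∀ e : ℂ, R ≤ dist e a → h.symm e = e := fun e he => by
    rw [Homeomorph.symm_apply_eq, hR e he]
  have hpos : ∀ z : ℂ, 0 < z.im → 0 < (h z).im := by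
    intro z hz
    by_cases hd : R ≤ dist (h z) a
    · have := hR' _ hd
      rw [Homeomorph.symm_apply_apply] at this
      rwa [← this]
    · exact hball (Metric.mem_closedBall.mpr (not_le.mp hd).le)
  have hpos' : ∀ z : ℂ, 0 < z.im → 0 < (h.symm z).im := by
    intro z hz
    by_cases hd : R ≤ dist (h.symm z) a
    · have := hR _ hd
      rw [Homeomorph.apply_symm_apply] at this
      rwa [← this]
    · exact hball (Metric.mem_closedBall.mpr (not_le.mp hd).le)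
  refine ⟨⟨⟨fun z => ⟨h z, hpos z z.2⟩, fun z => ⟨h.symm z, hpos' z z.2⟩, fun z => ?_,
    fun z => ?_⟩, ?_, ?_⟩, fun z => rfl⟩
  · apply UpperHalfPlane.ext
    exact h.symm_apply_apply _
  · apply UpperHalfPlane.ext
    exact h.apply_symm_apply _
  · rw [UpperHalfPlane.isEmbedding_coe.continuous_iff]
    exact h.continuous.comp UpperHalfPlane.continuous_coe
  · rw [UpperHalfPlane.isEmbedding_coe.continuous_iff]
    exact h.symm.continuous.comp UpperHalfPlane.continuous_coe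

variable [DiscreteTopology Γ] (hΓ : Hyp Γ)

include hΓ in
/-- The local push. -/
lemma exists_eqPush_local (a : ℍ) : ∀ᶠ b : ℍ in 𝓝 a,
    ∃ f : ℍ ≃ₜ ℍ, Eqv f (1 : MulAut Γ) ∧ f a = b := by
  obtain ⟨r, hr, h1, -, h3⟩ := exists_disc hΓ a univ_mem
  have hev : ∀ᶠ b : ℍ in 𝓝 a, dist (b : ℂ) (a : ℂ) < (r / 2) / 4 := by
    have := UpperHalfPlane.continuous_coe.continuousAt (x := a)
      (Metric.ball_mem_nhds (a : ℂ) (by positivity : 0 < (r / 2) / 4))
    exact this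
  filter_upwards [hev] with b hb
  obtain ⟨h, Λ, ⟨hab, hfix, -⟩, -⟩ := exists_push (K := {e : ℂ | r / 2 ≤ dist e (a : ℂ)})
    (by positivity : 0 < r / 2) (fun e he => he) hb
  have hball : Metric.closedBall (a : ℂ) (r / 2) ⊆ Metric.ball (a : ℂ) r :=
    Metric.closedBall_subset_ball (by linarith)
  obtain ⟨P, hP⟩ := exists_restrict h hfix (hball.trans h1)
  have hK : IsCompact {z : ℍ | (z : ℂ) ∈ Metric.closedBall (a : ℂ) (r / 2)} := by
    refine (UpperHalfPlane.isOpenEmbedding_coe.isInducing.isCompact_preimage_iff ?_).mpr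
      (isCompact_closedBall _ _)
    intro z hz
    exact ⟨⟨z, h1 (hball hz)⟩, rfl⟩
  obtain ⟨f, hf1, hf2⟩ := exists_eqHomeo (Γ := Γ)
    (B := {z : ℍ | (z : ℂ) ∈ Metric.ball (a : ℂ) r})
    (Metric.isOpen_ball.preimage UpperHalfPlane.continuous_coe) hK (fun z hz => hball hz)
    (fun g z w hz hw => h3 g z w hz hw) P (fun z hz => by
      apply UpperHalfPlane.ext
      rw [hP]
      refine hfix _ ?_
      by_contra hlt
      exact hz (Metric.mem_closedBall.mpr (not_le.mp hlt).le))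
  refine ⟨f, hf1, ?_⟩
  rw [hf2 a (Metric.mem_ball_self hr)]
  apply UpperHalfPlane.ext
  rw [hP, hab]

omit [DiscreteTopology Γ] in
lemma Eqv.one_trans {f g : ℍ ≃ₜ ℍ} (hf : Eqv f (1 : MulAut Γ)) (hg : Eqv g (1 : MulAut Γ)) :
    Eqv (f.trans g) (1 : MulAut Γ) := by
  have := hg.mul hf
  rwa [one_mul] at this

include hΓ in
/-- Equivariant homeomorphisms act transitively. -/
theorem exists_eqPush (a b : ℍ) : ∃ f : ℍ ≃ₜ ℍ, Eqv f (1 : MulAut Γ) ∧ f a = b := by
  have hpre : IsPreconnected (univ : Set ℍ) := isPreconnected_univ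
  refine hpre.induction₂' (fun x y => ∃ f : ℍ ≃ₜ ℍ, Eqv f (1 : MulAut Γ) ∧ f x = y) ?_ ?_
    (mem_univ a) (mem_univ b)
  · intro z _
    apply Filter.Eventually.filter_mono nhdsWithin_le_nhds
    filter_upwards [exists_eqPush_local hΓ z] with w hw
    obtain ⟨f, hf, hfz⟩ := hw
    refine ⟨⟨f, hf, hfz⟩, ⟨f.symm, ?_, ?_⟩⟩
    · have := hf.symm
      rwa [inv_one] at this
    · rw [Homeomorph.symm_apply_eq, hfz]
  · rintro x y z - - - ⟨f, hf, hfx⟩ ⟨g, hg, hgy⟩
    exact ⟨f.trans g, hf.one_trans hg, by rw [Homeomorph.trans_apply, hfx, hgy]⟩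

omit [DiscreteTopology Γ] in
/-- A homeomorphism of the plane descends to the surface. -/
theorem exists_descend {φ : ℍ ≃ₜ ℍ} {θ : MulAut Γ} (h : Eqv φ θ) :
    ∃ H : Surf Γ ≃ₜ Surf Γ, ∀ z, pr Γ (φ z) = H (pr Γ z) := by
  have hq : IsQuotientMap (pr Γ) := isQuotientMap_quotient_mk'
  have key : ∀ {ψ : ℍ ≃ₜ ℍ} {η : MulAut Γ}, Eqv ψ η → ∀ z w, pr Γ z = pr Γ w →
      pr Γ (ψ z) = pr Γ (ψ w) := by
    intro ψ η hψ z w hzw
    obtain ⟨g, rfl⟩ := pr_eq.mp hzw
    rw [hψ, pr_smul]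
  let F : Surf Γ → Surf Γ := Quotient.lift (fun z => pr Γ (φ z)) (fun z w hzw =>
    key h z w (Quotient.sound hzw))
  let F' : Surf Γ → Surf Γ := Quotient.lift (fun z => pr Γ (φ.symm z)) (fun z w hzw =>
    key h.symm z w (Quotient.sound hzw))
  have hF : ∀ z, F (pr Γ z) = pr Γ (φ z) := fun z => rfl
  have hF' : ∀ z, F' (pr Γ z) = pr Γ (φ.symm z) := fun z => rfl
  have hFc : Continuous F := hq.continuous_iff.mpr (pr_continuous.comp φ.continuous)
  have hFc' : Continuous F' := hq.continuous_iff.mpr (pr_continuous.comp φ.symm.continuous)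
  refine ⟨⟨⟨F, F', fun x => ?_, fun x => ?_⟩, hFc, hFc'⟩, fun z => (hF z).symm⟩
  · obtain ⟨z, rfl⟩ := pr_surj x
    rw [hF, hF', Homeomorph.symm_apply_apply]
  · obtain ⟨z, rfl⟩ := pr_surj x
    rw [hF', hF, Homeomorph.apply_symm_apply]

/-- Restriction of a homeomorphism fixing `q`. -/
lemma exists_restr {X : Type*} [TopologicalSpace X] {q : X} (H : X ≃ₜ X) (hH : H q = q) :
    ∃ h : extendable q, Ext h = H := by
  have h1 : ∀ x : X, x ∈ ({q}ᶜ : Set X) ↔ H x ∈ ({q}ᶜ : Set X) := by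
    intro x
    rw [mem_compl_iff, mem_compl_iff, mem_singleton_iff, mem_singleton_iff, not_iff_not]
    constructor
    · rintro rfl
      exact hH
    · intro hx
      exact H.injective (hx.trans hH.symm)
  let h : ({q}ᶜ : Set X) ≃ₜ ({q}ᶜ : Set X) := H.subtype h1
  have h2 : ∀ x : ({q}ᶜ : Set X), H (x : X) = h x := fun x => rfl
  exact ⟨⟨h, H, h2⟩, Ext_unique _ h2⟩

include hΓ in
/-- Point pushes induce inner automorphisms. -/
theorem exists_point_push {p : ℍ} (γ : Γ) :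
    ∃ h : extendable (pr Γ p), rho hΓ h = MulAut.conj γ := by
  obtain ⟨f, hf, hfp⟩ := exists_eqPush (Γ := Γ) hΓ p (γ⁻¹ • p)
  let φ : ℍ ≃ₜ ℍ := f.trans (Homeomorph.smul (γ : Γ))
  have hφ : ∀ z, φ z = γ • f z := fun z => rfl
  have hE : Eqv φ (MulAut.conj γ) := by
    intro g z
    rw [hφ, hφ, hf, MulAut.one_apply, MulAut.conj_apply]
    simp only [mul_smul, inv_smul_smul]
  have hφp : φ p = p := by rw [hφ, hfp, smul_inv_smul]
  obtain ⟨H, hH⟩ := exists_descend hE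
  have hHq : H (pr Γ p) = pr Γ p := by rw [← hH, hφp]
  obtain ⟨h, hh⟩ := exists_restr H hHq
  exact ⟨h, rho_unique hΓ hφp (fun z => by rw [hh, hH]) hE⟩

end Pool.Agent.Helper2.Fuch
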