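import Mathlib
import Pool.Agent.Helper2.Fuch.EqPush
import Pool.Agent.Helper2.Fuch.Len2
import Pool.Agent.Helper2.Genus.Criterion

/-!
# Mapping class groups of surfaces with isolated planar ends do not have two ends
-/

set_option autoImplicit false

open Topology Set Filter
open scoped MatrixGroups UpperHalfPlane

namespace Pool.Agent.Helper2.Fuch

open Pool.Agent.Helper2.Genus Pool.Agent.Helper2.Planar Pool.Agent.Helper50.Ends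

variable {Γ : Subgroup SL(2, ℝ)} [DiscreteTopology Γ] (hΓ : Hyp Γ) {p : ℍ}

open Classical in
/-- The length function on the group of homeomorphisms. -/
noncomputable def lenG (ℓ : MulAut Γ → ℝ)
    (h : ({pr Γ p}ᶜ : Set (Surf Γ)) ≃ₜ ({pr Γ p}ᶜ : Set (Surf Γ))) : ℝ :=
  if hh : h ∈ extendable (pr Γ p) then ℓ (rho hΓ ⟨h, hh⟩) else 0

lemma lenG_coe (ℓ : MulAut Γ → ℝ) (h : extendable (pr Γ p)) :
    lenG hΓ ℓ (h : ({pr Γ p}ᶜ : Set (Surf Γ)) ≃ₜ ({pr Γ p}ᶜ : Set (Surf Γ))) = ℓ (rho hΓ h) := by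
  unfold lenG
  rw [dif_pos h.2]

lemma lenG_isLen {ℓ : MulAut Γ → ℝ} (hℓ : IsLen ℓ (opg Γ)) :
    IsLen (lenG hΓ (p := p) ℓ) (extendable (pr Γ p)) where
  one := by
    have := lenG_coe hΓ (p := p) ℓ 1
    rw [Subgroup.coe_one] at this
    rw [this, map_one, hℓ.one]
  inv := by
    intro g hg
    have h1 := lenG_coe hΓ ℓ (⟨g, hg⟩ : extendable (pr Γ p))
    have h2 := lenG_coe hΓ ℓ (⟨g, hg⟩ : extendable (pr Γ p))⁻¹
    rw [Subgroup.coe_inv] at h2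
    rw [h1, h2, map_inv, hℓ.inv _ (rho_mem hΓ _)]
  mul := by
    intro g hg h hh
    have h1 := lenG_coe hΓ ℓ (⟨g, hg⟩ : extendable (pr Γ p))
    have h2 := lenG_coe hΓ ℓ (⟨h, hh⟩ : extendable (pr Γ p))
    have h3 := lenG_coe hΓ ℓ ((⟨g, hg⟩ : extendable (pr Γ p)) * ⟨h, hh⟩)
    rw [Subgroup.coe_mul] at h3
    rw [h1, h2, h3, map_mul]
    exact hℓ.mul _ (rho_mem hΓ _) _ (rho_mem hΓ _)

include hΓ in
/-- The main theorem for a surface with an isolated planar end. -/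
theorem not_two (hnc : ∃ a ∈ Γ, ∃ b ∈ Γ, a * b ≠ b * a)
    (hfin : (extendable (pr Γ p)).FiniteIndex)
    (H : Subgroup (({pr Γ p}ᶜ : Set (Surf Γ)) ≃ₜ ({pr Γ p}ᶜ : Set (Surf Γ))))
    (hH : H.FiniteIndex) (S : Set (MCG H)) (hS : CoarselyBounded S)
    (hgen : Subgroup.closure S = ⊤) : numEnds (cayley S) ≠ 2 := by
  classical
  obtain ⟨ℓ, x, γ, δ, C₀, hℓ, hfix, hlow, hlow2⟩ := exists_len hΓ hnc
  obtain ⟨f₁, hf₁⟩ := exists_point_push hΓ (p := p) γ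
  obtain ⟨g₁, hg₁⟩ := exists_point_push hΓ (p := p) (δ⁻¹ * γ * δ)
  set f₀ : ({pr Γ p}ᶜ : Set (Surf Γ)) ≃ₜ ({pr Γ p}ᶜ : Set (Surf Γ)) := f₁.1 with hf₀
  set g₀ : ({pr Γ p}ᶜ : Set (Surf Γ)) ≃ₜ ({pr Γ p}ᶜ : Set (Surf Γ)) := g₁.1 with hg₀
  set L := lenG hΓ (p := p) ℓ with hL
  have hlen : IsLen L (extendable (pr Γ p)) := lenG_isLen hΓ hℓ
  have hnear : ∀ᶠ h in 𝓝 (1 : ({pr Γ p}ᶜ : Set (Surf Γ)) ≃ₜ ({pr Γ p}ᶜ : Set (Surf Γ))),
      h ∈ extendable (pr Γ p) ∧ L h = 0 := by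
    have h1 := eventually_all.mpr (fun i : Fin 3 => rho_near hΓ (p := p) (x i))
    filter_upwards [h1] with h hh
    obtain ⟨hm, -⟩ := hh 0
    refine ⟨hm, ?_⟩
    have h2 := lenG_coe hΓ ℓ (⟨h, hm⟩ : extendable (pr Γ p))
    rw [hL, h2]
    exact hfix _ fun i => (hh i).2
  have : Finite ((({pr Γ p}ᶜ : Set (Surf Γ)) ≃ₜ ({pr Γ p}ᶜ : Set (Surf Γ))) ⧸
    (extendable (pr Γ p))) := Subgroup.finite_quotient_of_finiteIndex
  have : Fintype ((({pr Γ p}ᶜ : Set (Surf Γ)) ≃ₜ ({pr Γ p}ᶜ : Set (Surf Γ))) ⧸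
    (extendable (pr Γ p))) := Fintype.ofFinite _
  obtain ⟨C, hC⟩ := hlen.le_ind
  obtain ⟨d, hd⟩ := exists_pseudometric hlen.ind (ind_near hnear tendsto_conj) H
  obtain ⟨m, hm0, -, hm⟩ := Subgroup.exists_pow_mem_of_index_ne_zero hH.index_ne_zero f₀
  obtain ⟨l, hl0, -, hl⟩ := Subgroup.exists_pow_mem_of_index_ne_zero hH.index_ne_zero g₀
  have hm1 : (1 : ℝ) ≤ m := by exact_mod_cast Nat.one_le_iff_ne_zero.mpr (by omega)
  have hl1 : (1 : ℝ) ≤ l := by exact_mod_cast Nat.one_le_iff_ne_zero.mpr (by omega)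
  have hC0 : ∀ f ∈ extendable (pr Γ p), L f - C ≤ ind L (extendable (pr Γ p)) f := fun f hf => by
    have := hC f hf
    linarith
  have hLf : ∀ n : ℤ, |(n : ℝ)| ≤ L (f₀ ^ n) := by
    intro n
    have h1 := lenG_coe hΓ ℓ (f₁ ^ n)
    rw [Subgroup.coe_zpow, map_zpow, hf₁, ← map_zpow] at h1
    rw [hL, hf₀, h1]
    exact_mod_cast hlow n
  have hLfg : ∀ n k : ℤ, |(k : ℝ)| - C₀ ≤ L (f₀ ^ (-n) * g₀ ^ k) := by
    intro n k
    have h1 := lenG_coe hΓ ℓ (f₁ ^ (-n) * g₁ ^ k)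
    have e1 : (MulAut.conj γ) ^ (-n) = (MulAut.conj (γ ^ n))⁻¹ := by
      rw [zpow_neg, map_zpow]
    have e2 : (MulAut.conj (δ⁻¹ * γ * δ)) ^ k = MulAut.conj (δ⁻¹ * γ ^ k * δ) := by
      rw [← map_zpow]
      congr 1
      have := conj_zpow (a := δ⁻¹) (b := γ) (i := k)
      rw [inv_inv] at this
      exact this
    rw [Subgroup.coe_mul, Subgroup.coe_zpow, Subgroup.coe_zpow, map_mul, map_zpow, map_zpow, hf₁,
      hg₁, e1, e2] at h1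
    rw [hL, hf₀, hg₀, h1]
    exact_mod_cast hlow2 n k
  have hmem : ∀ n k : ℤ, f₀ ^ n * g₀ ^ k ∈ extendable (pr Γ p) := fun n k =>
    Subgroup.mul_mem _ (Subgroup.zpow_mem _ f₁.2 n) (Subgroup.zpow_mem _ g₁.2 k)
  have hmem' : ∀ n : ℤ, f₀ ^ n ∈ extendable (pr Γ p) := fun n => Subgroup.zpow_mem _ f₁.2 n
  refine not_two_of_far S hS hgen d ((⟨f₀ ^ m, hm⟩ : H) : MCG H) ?_ ?_
  · intro R
    set N : ℕ := ⌈R + C⌉₊ with hN
    refine (Set.finite_Icc (-(N : ℤ)) N).subset ?_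
    intro n hn
    have hn' : d.d 1 (((⟨f₀ ^ m, hm⟩ : H) : MCG H) ^ n) ≤ R := hn
    rw [← QuotientGroup.mk_zpow, ← QuotientGroup.mk_one, hd] at hn'
    have e1 : (((1 : H) : ({pr Γ p}ᶜ : Set (Surf Γ)) ≃ₜ ({pr Γ p}ᶜ : Set (Surf Γ))))⁻¹ *
        (((⟨f₀ ^ m, hm⟩ : H) ^ n : H) : ({pr Γ p}ᶜ : Set (Surf Γ)) ≃ₜ ({pr Γ p}ᶜ : Set (Surf Γ))) =
        f₀ ^ ((m : ℤ) * n) := by
      rw [Subgroup.coe_one, inv_one, one_mul, Subgroup.coe_zpow, zpow_mul, zpow_natCast]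
    rw [e1] at hn'
    have e2 := (hC0 _ (hmem' _)).trans hn'
    have e3 := hLf ((m : ℤ) * n)
    have e6 : |(n : ℝ)| ≤ |(((m : ℤ) * n : ℤ) : ℝ)| := by
      push_cast
      rw [abs_mul, abs_of_pos (by linarith : (0 : ℝ) < m)]
      nlinarith [abs_nonneg (n : ℝ)]
    have e8 : |(n : ℝ)| ≤ N := (by linarith : |(n : ℝ)| ≤ R + C).trans (Nat.le_ceil _)
    have e9 := abs_le.mp e8
    constructor
    · have := e9.1
      exact_mod_cast this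
    · have := e9.2
      exact_mod_cast this
  · intro R
    set k : ℕ := ⌈R + C + C₀⌉₊ + 1 with hk
    refine ⟨(((⟨g₀ ^ l, hl⟩ : H) ^ (k : ℤ) : H) : MCG H), fun n => ?_⟩
    rw [← QuotientGroup.mk_zpow, hd]
    have e1 : ((((⟨f₀ ^ m, hm⟩ : H) ^ n : H) :
        ({pr Γ p}ᶜ : Set (Surf Γ)) ≃ₜ ({pr Γ p}ᶜ : Set (Surf Γ))))⁻¹ *
        (((⟨g₀ ^ l, hl⟩ : H) ^ (k : ℤ) : H) :
          ({pr Γ p}ᶜ : Set (Surf Γ)) ≃ₜ ({pr Γ p}ᶜ : Set (Surf Γ))) =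
        f₀ ^ (-((m : ℤ) * n)) * g₀ ^ ((l : ℤ) * k) := by
      rw [Subgroup.coe_zpow, Subgroup.coe_zpow, zpow_neg, zpow_mul, zpow_mul, zpow_natCast f₀,
        zpow_natCast g₀]
    rw [e1]
    have e2 := hC0 _ (hmem (-((m : ℤ) * n)) ((l : ℤ) * k))
    have e3 := hLfg ((m : ℤ) * n) ((l : ℤ) * k)
    have e4 : (k : ℝ) ≤ |(((l : ℤ) * k : ℤ) : ℝ)| := by
      push_cast
      rw [abs_mul, abs_of_pos (by linarith : (0 : ℝ) < l), Nat.abs_cast]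
      nlinarith [Nat.cast_nonneg (α := ℝ) k]
    have e5 : R + C + C₀ < k := by
      have := Nat.le_ceil (R + C + C₀)
      rw [hk]
      push_cast
      linarith
    linarith

end Pool.Agent.Helper2.Fuch
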