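import Mathlib
import Pool.Agent.Helper2.Fuch.Main

/-!
# The surfaces of the main theorem
-/

set_option autoImplicit false

open Topology Set Filter
open scoped MatrixGroups UpperHalfPlane

namespace Pool.Agent.Helper2.Fuch

open Pool.Agent.Helper2.Genus Pool.Agent.Helper2.Planar Pool.Agent.Helper50.Ends

/-- The group is not commutative. -/
def NonComm (Γ : Subgroup SL(2, ℝ)) : Prop := ∃ a ∈ Γ, ∃ b ∈ Γ, a * b ≠ b * a

/-- A discrete noncommutative subgroup of `SL(2, ℝ)` all of whose nontrivial elements are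
hyperbolic. -/
structure Fuchsian where
  /-- the group -/
  grp : Subgroup SL(2, ℝ)
  discrete : DiscreteTopology grp
  hyp : Hyp grp
  nonComm : NonComm grp

/-- The surface `ℍ / Γ`. -/
def Fuchsian.X (Γ : Fuchsian) : Type := MulAction.orbitRel.Quotient Γ.grp ℍ

instance Fuchsian.topX (Γ : Fuchsian) : TopologicalSpace Γ.X :=
  inferInstanceAs (TopologicalSpace (MulAction.orbitRel.Quotient Γ.grp ℍ))

/-- The surface `ℍ / Γ` minus the point `q`. -/
def Fuchsian.M (Γ : Fuchsian) (q : Γ.X) : Type := ({q}ᶜ : Set Γ.X)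

instance Fuchsian.topM (Γ : Fuchsian) (q : Γ.X) : TopologicalSpace (Γ.M q) :=
  inferInstanceAs (TopologicalSpace ({q}ᶜ : Set Γ.X))

/-- The homeomorphisms of `(ℍ / Γ) ∖ {q}` which extend to homeomorphisms of `ℍ / Γ`. -/
def Fuchsian.ext (Γ : Fuchsian) (q : Γ.X) : Subgroup (Γ.M q ≃ₜ Γ.M q) := extendable q

/-- If the mapping class group `MCG H` is generated by a coarsely bounded set `S` then the number
of ends of its Cayley graph is not two. -/
def NotTwoEnds {Y : Type} [TopologicalSpace Y] (H : Subgroup (Y ≃ₜ Y)) : Prop :=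
  ∀ S : Set (MCG H), CoarselyBounded S → Subgroup.closure S = ⊤ → numEnds (cayley S) ≠ 2

theorem Fuchsian.not_two (Γ : Fuchsian) (q : Γ.X) (hfin : (Γ.ext q).FiniteIndex)
    (H : Subgroup (Γ.M q ≃ₜ Γ.M q)) (hH : H.FiniteIndex) : NotTwoEnds H := by
  intro S hS hgen
  have := Γ.discrete
  obtain ⟨p, hp⟩ := pr_surj (Γ := Γ.grp) q
  subst hp
  exact Fuch.not_two Γ.hyp Γ.nonComm hfin H hH S hS hgen

end Pool.Agent.Helper2.Fuch
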